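import Mathlib
import Pool.Agent.Helper271.CP.Defs

/-!
# Log canonical Fano pairs over `ℂ` and their orbifold fundamental groups

Varieties over `ℂ` are integral schemes `X` with a structure morphism `s : X ⟶ Spec ℂ`.  Prime
divisors are the points of `X` with one-dimensional local ring (`ClusterLift.IsPrimeDivisor`), and an
`ℝ`-divisor is a function on `X` of which only the values at the prime divisors matter.  We use
from `Pool.Agent.Helper271`:

* `PSpace N ℂ` is the projective space `ℙ^N` over `ℂ` and `PSpace.toSpec N ℂ` its structure morphism;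
* `functionFieldAlgebra s`: the function field `K(X)` as a `ℂ`-algebra;
* `HasOrder ι E f m`: the rational function `f` has order `m` along the prime divisor `E`
  (`ι` identifies the function field of the variety which contains `E` with `K`);
* `IsDivisorOfForm ℂ n ι ω D`: `D` is the divisor of the rational `n`-form `ω`;
* `InducesOnFunctionFields π φ`: `π : Y ⟶ X` is birational, and induces `φ : K(X) ≃ K(Y)`;
* `toK`: the inclusion of a local ring in the function field.
-/

open AlgebraicGeometry CategoryTheory ClusterLift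

namespace Pool.Agent.TH192.Orb

noncomputable section

/-! ### Divisors -/

section Divisors

variable {X : Scheme.{0}} [IsIntegral X]

/-- The orders of the rational functions `f j` along the prime divisor `E` are `m j`. -/
def HasOrders {Y : Scheme.{0}} [IsIntegral Y] (ι : Y.functionField ≃+* X.functionField) (E : Y)
    {N : ℕ} (f : Fin N → X.functionField) (m : Fin N → ℤ) : Prop :=
  ∀ j, HasOrder ι E (f j) (m j)

/-- Near the point `z` the `ℝ`-divisor `D` is `∑ r_j div(f_j)`: all `f_j` are nonzero and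
`D(E) = ∑ r_j ord_E(f_j)` for all prime divisors `E` through `z`. -/
def IsLocalEquationR (D : X → ℝ) (z : X) {N : ℕ} (f : Fin N → X.functionField)
    (r : Fin N → ℝ) : Prop :=
  (∀ j, f j ≠ 0) ∧ ∀ E : X, IsPrimeDivisor E → E ⤳ z →
    ∃ m : Fin N → ℤ, HasOrders (RingEquiv.refl _) E f m ∧ D E = ∑ j, r j * m j

/-- The `ℝ`-divisor `D` is `ℝ`-Cartier. -/
def IsRCartier (D : X → ℝ) : Prop :=
  ∀ z : X, ∃ (N : ℕ) (f : Fin N → X.functionField) (r : Fin N → ℝ), IsLocalEquationR D z f r

/-- `D` is `ℝ`-linearly equivalent to `D'`: `D - D' = ∑ r_j div(f_j)`. -/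
def RLinearEquivalent (D D' : X → ℝ) : Prop :=
  ∃ (N : ℕ) (f : Fin N → X.functionField) (r : Fin N → ℝ), (∀ j, f j ≠ 0) ∧
    ∀ E : X, IsPrimeDivisor E →
      ∃ m : Fin N → ℤ, HasOrders (RingEquiv.refl _) E f m ∧ D E - D' E = ∑ j, r j * m j

/-- The rational function `h ≠ 0` is a local equation at the point `z` of the divisor `H`. -/
def IsLocalEquationZ (H : X → ℤ) (z : X) (h : X.functionField) : Prop :=
  h ≠ 0 ∧ ∀ E : X, IsPrimeDivisor E → E ⤳ z → HasOrder (RingEquiv.refl _) E h (H E)

/-- The integral divisor `H` (some multiple of which is Cartier) is ample: every point `x` has an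
affine open neighbourhood of the form `U = X_g`, for a global section `g` of `O_X(r H)`, `r > 0`.
Here `g` is a rational function such that for every point `z` and a local equation `h` of `r H` at
`z` the product `g h` is in the local ring at `z`, and `X_g` is the set of all points `z` for which
it is a unit. -/
def IsAmple (H : X → ℤ) : Prop :=
  ∀ x : X, ∃ (r : ℕ) (g : X.functionField) (U : X.Opens), 0 < r ∧ IsAffineOpen U ∧ x ∈ U ∧
    ∀ z : X, ∃ (h : X.functionField) (a : X.presheaf.stalk z),
      IsLocalEquationZ (fun E => r * H E) z h ∧ toK a = g * h ∧ (IsUnit a ↔ z ∈ U)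

/-- The `ℝ`-divisor `D` is ample: `D ∼_ℝ ∑ a_j H_j` with `a_j > 0` and ample divisors `H_j` (at
least one). -/
def IsAmpleR (D : X → ℝ) : Prop :=
  ∃ (N : ℕ) (H : Fin (N + 1) → X → ℤ) (a : Fin (N + 1) → ℝ),
    (∀ j, IsAmple (H j) ∧ 0 < a j) ∧ RLinearEquivalent D (fun E => ∑ j, a j * H j E)

end Divisors

/-! ### Log canonical Fano pairs -/

section Pairs

variable {X : Scheme.{0}} (s : X ⟶ Spec (CommRingCat.of ℂ))

/-- `X` (with the structure morphism `s`) is a normal projective variety over `ℂ`: it is isomorphic to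
a closed integral normal subscheme of a projective space. -/
def IsNormalProjective [IsIntegral X] : Prop :=
  (∀ x : X, IsIntegrallyClosed (X.presheaf.stalk x)) ∧
    ∃ (N : ℕ) (i : X ⟶ PSpace N ℂ), IsClosedImmersion i ∧ i ≫ PSpace.toSpec N ℂ = s

/-- `X` has dimension `n`: the transcendence degree of `K(X)` over `ℂ` is `n`. -/
def HasDimension [IsIntegral X] (n : ℕ) : Prop :=
  @Algebra.trdeg ℂ X.functionField _ _ (functionFieldAlgebra s) = n

/-- `KX` is the canonical divisor given by the nonzero rational `n`-form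
`ω = a dz₁ ∧ … ∧ dzₙ`. -/
def IsCanonicalDivisor [IsIntegral X] (n : ℕ)
    (ω : letI := functionFieldAlgebra s
      ExteriorAlgebra X.functionField (KaehlerDifferential ℂ X.functionField))
    (KX : X → ℤ) : Prop :=
  letI := functionFieldAlgebra s
  ω ≠ 0 ∧ (∃ (z : Fin n → X.functionField) (a : X.functionField),
    ω = a • wedge X.functionField (fun i => KaehlerDifferential.D ℂ X.functionField (z i))) ∧
    IsDivisorOfForm ℂ n (RingEquiv.refl X.functionField) ω KX

/-- `(X, Δ)` is log canonical, where `K_X = KX` is the divisor of the rational `n`-form `ω`: for every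
proper birational morphism `π : Y ⟶ X` from a normal variety `Y` and every prime divisor `F` of `Y`,
the coefficient along `F` of `Δ_Y = π^*(K_X + Δ) - K_Y`, where `K_Y` is the divisor of `π^* ω`, is
at most `1`. Here `K_X + Δ = ∑ r_j div(f_j)` near `π(F)`, `m_j = ord_F(π^* f_j)`, and the
coefficient is `∑ r_j m_j - K_Y(F)`. -/
def IsLogCanonical [IsIntegral X] (n : ℕ)
    (ω : letI := functionFieldAlgebra s
      ExteriorAlgebra X.functionField (KaehlerDifferential ℂ X.functionField))
    (KX : X → ℤ) (Δ : X → ℝ) : Prop :=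
  letI := functionFieldAlgebra s
  ∀ (Y : Scheme.{0}) (_ : IsIntegral Y) (_ : ∀ y : Y, IsIntegrallyClosed (Y.presheaf.stalk y))
    (π : Y ⟶ X) (_ : IsProper π) (φ : X.functionField ≃+* Y.functionField),
    InducesOnFunctionFields π φ →
    ∀ KY : Y → ℤ, IsDivisorOfForm ℂ n φ.symm ω KY →
    ∀ F : Y, IsPrimeDivisor F →
      ∃ (N : ℕ) (f : Fin N → X.functionField) (r : Fin N → ℝ) (m : Fin N → ℤ),
        IsLocalEquationR (fun E => KX E + Δ E) (π F) f r ∧ HasOrders φ.symm F f m ∧
          ∑ j, r j * m j - KY F ≤ 1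

/-- `(X, Δ)` is a log canonical Fano pair of dimension `n`: `X` is a normal projective variety of
dimension `n` over `ℂ`, `Δ` is an effective `ℝ`-divisor (with finitely many components) such that
`K_X + Δ` is `ℝ`-Cartier, `(X, Δ)` is log canonical and `-(K_X + Δ)` is ample. -/
def IsLCFanoPair [IsIntegral X] (n : ℕ) (Δ : X → ℝ) : Prop :=
  IsNormalProjective s ∧ HasDimension s n ∧
    {E : X | IsPrimeDivisor E ∧ Δ E ≠ 0}.Finite ∧ (∀ E : X, IsPrimeDivisor E → 0 ≤ Δ E) ∧
    ∃ (ω : letI := functionFieldAlgebra s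
        ExteriorAlgebra X.functionField (KaehlerDifferential ℂ X.functionField)) (KX : X → ℤ),
      IsCanonicalDivisor s n ω KX ∧ IsRCartier (fun E => KX E + Δ E) ∧
      IsLogCanonical s n ω KX Δ ∧ IsAmpleR (fun E => -(KX E + Δ E))

end Pairs

/-! ### Complex points and the analytic topology -/

section Complex

variable {X : Scheme.{0}}

/-- The set `X(ℂ)` of the complex points of `X`. -/
def CPoint (s : X ⟶ Spec (CommRingCat.of ℂ)) : Type :=
  {x : Spec (CommRingCat.of ℂ) ⟶ X // x ≫ s = 𝟙 _}

variable {s : X ⟶ Spec (CommRingCat.of ℂ)}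

/-- The closed point of `X` underlying a complex point. -/
def CPoint.pt (x : CPoint s) : X := x.1 (IsLocalRing.closedPoint ℂ)

/-- The homomorphism `O_{X,x} → ℂ`, `f ↦ f(x)`, for a complex point `x`. -/
def CPoint.value (x : CPoint s) : X.presheaf.stalk x.pt →+* ℂ :=
  (Scheme.stalkClosedPointTo x.1).hom

open Classical in
/-- The value `f(x)` at the complex point `x` of the regular function `f` on the open set `U` (and
`0` if `x` is not in `U`). -/
def CPoint.eval (x : CPoint s) {U : X.Opens} (f : Γ(X, U)) : ℂ :=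
  if h : x.pt ∈ U then x.value (X.presheaf.germ U x.pt h f) else 0

/-- The analytic topology of `X(ℂ)`: it is generated by the sets of all `x ∈ U(ℂ)` with
`f(x) ∈ V`, for `f` regular on the Zariski open set `U` and `V ⊆ ℂ` open. -/
instance : TopologicalSpace (CPoint s) :=
  TopologicalSpace.generateFrom
    {S | ∃ (U : X.Opens) (f : Γ(X, U)) (V : Set ℂ), IsOpen V ∧
      S = {x | x.pt ∈ U ∧ x.eval f ∈ V}}

/-- A holomorphic map from the disc `|z| < r` to `X(ℂ)`: it is continuous, and the functions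
`f ∘ φ` for regular functions `f` are analytic where they are defined. -/
def IsHolomorphicDisc (r : ℝ) (φ : ℂ → CPoint s) : Prop :=
  ∀ z : ℂ, ‖z‖ < r → ContinuousAt φ z ∧
    ∀ (U : X.Opens) (f : Γ(X, U)), (φ z).pt ∈ U → AnalyticAt ℂ (fun w => (φ w).eval f) z

/-- `E` is a component of `Δ^st`, i.e. a prime divisor with `(Δ E)^st ≠ 0`. -/
def IsStComponent (Δ : X → ℝ) (E : X) : Prop := IsPrimeDivisor E ∧ 1 / 2 ≤ Δ E

/-- `(Δ E)^st = 1 - 1/m` with `m < ∞`: `m` is the largest positive integer with
`1 - 1/m ≤ Δ E` (there is no such `m` if `Δ E ≥ 1`). -/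
def HasIndex (Δ : X → ℝ) (E : X) (m : ℕ) : Prop :=
  IsGreatest {k : ℕ | 0 < k ∧ 1 - 1 / (k : ℝ) ≤ Δ E} m

/-- The complement of `Δ^st` in the complex points of the regular locus of `X`, with the analytic
topology. -/
def OrbSpace (s : X ⟶ Spec (CommRingCat.of ℂ)) (Δ : X → ℝ) : Set (CPoint s) :=
  {x | IsRegularLocalRing (X.presheaf.stalk x.pt) ∧ ∀ E : X, IsStComponent Δ E → ¬ E ⤳ x.pt}

/-- `φ` is a holomorphic disc `|z| < r`, `r > 1`, in the regular locus of `X` that meets `Δ^st` only
in the point `φ(0)`, which lies on the component `E` and on no other component of `Δ^st`, and `φ`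
meets `E` transversally: some regular function near `φ(0)` that vanishes on `E` has nonzero
derivative along `φ` in `0`. -/
def IsMeridianDisc (Δ : X → ℝ) (E : X) (φ : ℂ → CPoint s) : Prop :=
  (∃ r : ℝ, 1 < r ∧ IsHolomorphicDisc r φ ∧
      ∀ z : ℂ, z ≠ 0 → ‖z‖ < r → φ z ∈ OrbSpace s Δ) ∧
    IsRegularLocalRing (X.presheaf.stalk (φ 0).pt) ∧
    (∀ E' : X, IsStComponent Δ E' → (E' ⤳ (φ 0).pt ↔ E' = E)) ∧
    ∃ (U : X.Opens) (f : Γ(X, U)) (hE : E ∈ U), (φ 0).pt ∈ U ∧
      ¬ IsUnit (X.presheaf.germ U E hE f) ∧ deriv (fun w => (φ w).eval f) 0 ≠ 0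

/-- The loop `t ↦ φ(exp(2 π i t))`: `γ` is this loop in the space `OrbSpace s Δ`. -/
def IsBoundaryLoop {Δ : X → ℝ} (φ : ℂ → CPoint s) {x₁ : OrbSpace s Δ} (γ : Path x₁ x₁) : Prop :=
  ∀ t : unitInterval, (γ t : CPoint s) = φ (Complex.exp (2 * Real.pi * t * Complex.I))

/-- The relations of the orbifold fundamental group: the `m`-th powers of the classes of the loops
`δ γ δ⁻¹`, where `γ` is a small positively oriented loop around a component `E` of `Δ^st` of
coefficient `1 - 1/m` (the boundary of a meridian disc), and `δ` is a path from the base point to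
the base point of `γ`. -/
def orbRelations (s : X ⟶ Spec (CommRingCat.of ℂ)) (Δ : X → ℝ) (x₀ : OrbSpace s Δ) :
    Set (FundamentalGroup (OrbSpace s Δ) x₀) :=
  {g | ∃ (E : X) (m : ℕ) (φ : ℂ → CPoint s) (x₁ : OrbSpace s Δ) (γ : Path x₁ x₁)
      (δ : Path x₀ x₁), IsStComponent Δ E ∧ HasIndex Δ E m ∧ IsMeridianDisc Δ E φ ∧
      IsBoundaryLoop φ γ ∧
      g = FundamentalGroup.fromPath (Path.Homotopic.Quotient.mk ((δ.trans γ).trans δ.symm)) ^ m}

/-- The orbifold fundamental group of the pair `(X, Δ)` with base point `x₀`. -/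
def OrbifoldPi1 (s : X ⟶ Spec (CommRingCat.of ℂ)) (Δ : X → ℝ) (x₀ : OrbSpace s Δ) : Type :=
  FundamentalGroup (OrbSpace s Δ) x₀ ⧸ Subgroup.normalClosure (orbRelations s Δ x₀)

instance (s : X ⟶ Spec (CommRingCat.of ℂ)) (Δ : X → ℝ) (x₀ : OrbSpace s Δ) :
    Group (OrbifoldPi1 s Δ x₀) := QuotientGroup.Quotient.group _

end Complex

end

end Pool.Agent.TH192.Orb
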