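import Mathlib
import Pool.Agent.Helper271.CP.Ev
import Pool.Agent.Helper271.CP.Coords
import Pool.Agent.Helper271.CP.Dlog

/-!
# The local rings of projective space
-/

open AlgebraicGeometry CategoryTheory ClusterLift

namespace Pool.Agent.TH192.PP

attribute [local instance] MvPolynomial.gradedAlgebra

noncomputable section

universe u

variable {n : ℕ} {k : Type u} [Field k]

/-- the homogeneous ideal of a point -/
abbrev hi (E : PSpace n k) : HomogeneousIdeal (grading n k) :=
  ProjectiveSpectrum.asHomogeneousIdeal E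

/-- the field of fractions -/
abbrev Fr (n : ℕ) (k : Type u) [Field k] : Type u := FractionRing (MvPolynomial (Fin (n + 1)) k)

/-- the inclusion -/
abbrev toFr (f : MvPolynomial (Fin (n + 1)) k) : Fr n k := algebraMap _ _ f

theorem toFr_injective : Function.Injective (toFr : MvPolynomial (Fin (n + 1)) k → Fr n k) :=
  IsFractionRing.injective _ _

theorem toFr_ne {f : MvPolynomial (Fin (n + 1)) k} (h : f ≠ 0) : toFr f ≠ 0 := by
  intro h0
  exact h (toFr_injective (h0.trans (map_zero _).symm))

theorem ne_zero_of_notMem {E : PSpace n k} {g : MvPolynomial (Fin (n + 1)) k} (h : g ∉ hi E) :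
    g ≠ 0 := by
  rintro rfl
  exact h (hi E).toIdeal.zero_mem

/-- evaluation of germs in the fraction field -/
def evS (E : PSpace n k) : (PSpace n k).presheaf.stalk E →+* Fr n k := cpj2_evS (grading n k) E

/-- evaluation of rational functions in the fraction field -/
def evK : (PSpace n k).functionField →+* Fr n k :=
  cpj2_evS (grading n k) (genericPoint (PSpace n k))

theorem evK_toK {E : PSpace n k} (r : (PSpace n k).presheaf.stalk E) :
    evK (toK r) = evS E r :=
  cpj2_evS_compat (grading n k) E (genericPoint (PSpace n k))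
    ((genericPoint_spec (PSpace n k)).specializes trivial) r

theorem evK_injective : Function.Injective (evK (n := n) (k := k)) := evK.injective

theorem evS_injective (E : PSpace n k) : Function.Injective (evS E) := by
  intro a b hab
  rw [← evK_toK, ← evK_toK] at hab
  exact IsFractionRing.injective ((PSpace n k).presheaf.stalk E) (PSpace n k).functionField
    (evK_injective hab)

/-- the germ `f / g` -/
def fr (E : PSpace n k) (d : ℕ) (f g : MvPolynomial (Fin (n + 1)) k) (hf : f.IsHomogeneous d)
    (hg : g.IsHomogeneous d) (hgE : g ∉ hi E) : (PSpace n k).presheaf.stalk E :=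
  (Proj.stalkIso (grading n k) E).inv.hom (.mk ⟨d, ⟨f, hf⟩, ⟨g, hg⟩, hgE⟩)

theorem evS_fr (E : PSpace n k) (d : ℕ) (f g : MvPolynomial (Fin (n + 1)) k)
    (hf : f.IsHomogeneous d) (hg : g.IsHomogeneous d) (hgE : g ∉ hi E) :
    evS E (fr E d f g hf hg hgE) = toFr f / toFr g :=
  cpj2_evS_frac (grading n k) E ⟨d, ⟨f, hf⟩, ⟨g, hg⟩, hgE⟩

theorem isUnit_fr (E : PSpace n k) (d : ℕ) (f g : MvPolynomial (Fin (n + 1)) k)
    (hf : f.IsHomogeneous d) (hg : g.IsHomogeneous d) (hgE : g ∉ hi E) :
    IsUnit (fr E d f g hf hg hgE) ↔ f ∉ hi E :=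
  cpj2_isUnit_frac (grading n k) E ⟨d, ⟨f, hf⟩, ⟨g, hg⟩, hgE⟩

theorem exists_fr {E : PSpace n k} (r : (PSpace n k).presheaf.stalk E) :
    ∃ (d : ℕ) (f g : MvPolynomial (Fin (n + 1)) k) (hf : f.IsHomogeneous d)
      (hg : g.IsHomogeneous d) (hgE : g ∉ hi E), r = fr E d f g hf hg hgE := by
  obtain ⟨c, hc⟩ := cpj2_evS_surj (grading n k) E r
  refine ⟨c.deg, c.num, c.den, c.num.2, c.den.2, c.den_mem, ?_⟩
  apply evS_injective
  exact hc.trans (evS_fr E c.deg c.num c.den c.num.2 c.den.2 c.den_mem).symm

theorem X_hom (j : Fin (n + 1)) : (MvPolynomial.X j : MvPolynomial (Fin (n + 1)) k).IsHomogeneous 1 :=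
  MvPolynomial.isHomogeneous_X _ _

theorem pow_notMem {E : PSpace n k} {g : MvPolynomial (Fin (n + 1)) k} (h : g ∉ hi E) (d : ℕ) :
    g ^ d ∉ hi E := fun h' => h ((ProjectiveSpectrum.isPrime E).mem_of_pow_mem d h')

theorem mul_mem_iff {E : PSpace n k} {f g : MvPolynomial (Fin (n + 1)) k} :
    f * g ∈ hi E ↔ f ∈ hi E ∨ g ∈ hi E := (ProjectiveSpectrum.isPrime E).mul_mem_iff_mem_or_mem

theorem mul_notMem {E : PSpace n k} {f g : MvPolynomial (Fin (n + 1)) k} (hf : f ∉ hi E)
    (hg : g ∉ hi E) : f * g ∉ hi E := fun h => (mul_mem_iff.1 h).elim hf hg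

theorem one_notMem (E : PSpace n k) : (1 : MvPolynomial (Fin (n + 1)) k) ∉ hi E := fun h =>
  (ProjectiveSpectrum.isPrime E).ne_top ((Ideal.eq_top_iff_one _).2 h)

/-- the constants in the local ring -/
def kst (E : PSpace n k) : k →+* (PSpace n k).presheaf.stalk E :=
  (CommRingCat.ofHom (algebraMap k (grading n k 0)) ≫
          (CommRingCat.ofHom (HomogeneousLocalization.fromZeroRingHom (grading n k)
            (Submonoid.powers (1 : MvPolynomial (Fin (n + 1)) k))) ≫
            Proj.awayToSection (grading n k) 1 ≫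
            (Proj (grading n k)).presheaf.germ (Proj.basicOpen (grading n k) 1) E
              (by rw [Proj.basicOpen_one]; trivial))).hom

theorem fromSpecStalk_toSpec (E : PSpace n k) :
    (PSpace n k).fromSpecStalk E ≫ PSpace.toSpec n k = Spec.map (CommRingCat.ofHom (kst E)) := by
  have e1 : (PSpace n k).fromSpecStalk E ≫ PSpace.toSpec n k =
        Spec.map (CommRingCat.ofHom (algebraMap k (grading n k 0)) ≫
          (CommRingCat.ofHom (HomogeneousLocalization.fromZeroRingHom (grading n k)
            (Submonoid.powers (1 : MvPolynomial (Fin (n + 1)) k))) ≫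
            Proj.awayToSection (grading n k) 1 ≫
            (Proj (grading n k)).presheaf.germ (Proj.basicOpen (grading n k) 1)
              E (by rw [Proj.basicOpen_one]; trivial))) := by
    rw [Spec.map_comp]
    exact congrArg (fun f => f ≫ Spec.map (CommRingCat.ofHom (algebraMap k (grading n k 0))))
      (cpj2_fromSpecStalk_toSpecZero (grading n k) E)
  exact e1

theorem evS_kst (E : PSpace n k) (c : k) : evS E (kst E c) = toFr (MvPolynomial.C c) :=
  cpj2_evS_zero (grading n k) E (algebraMap k (grading n k 0) c)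

theorem kst_eq (E : PSpace n k) (c : k) : kst E c = fr E 0 (MvPolynomial.C c) 1
    (MvPolynomial.isHomogeneous_C _ _) (MvPolynomial.isHomogeneous_one _ _) (one_notMem E) := by
  apply evS_injective
  rw [evS_kst, evS_fr]
  simp [toFr]

theorem toK_kst (E : PSpace n k) (c : k) :
    toK (kst E c) = (functionFieldAlgebra (PSpace.toSpec n k)).algebraMap c := by
  have h1 := fromSpecStalk_toSpec (genericPoint (PSpace n k))
  have h2 : (functionFieldAlgebra (PSpace.toSpec n k)).algebraMap c =
      kst (genericPoint (PSpace n k)) c := by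
    have e3 := (congrArg Spec.preimage h1).trans (Spec.preimage_map _)
    exact congrArg (fun f => f.hom c) e3
  rw [h2]
  apply evK_injective
  rw [evK_toK, evS_kst]
  exact (evS_kst (genericPoint (PSpace n k)) c).symm

/-- the homomorphism `f ↦ f / X_i ^ deg f` -/
def psi (E : PSpace n k) (i : Fin (n + 1)) (hiE : MvPolynomial.X i ∉ hi E) :
    MvPolynomial (Fin (n + 1)) k →+* (PSpace n k).presheaf.stalk E :=
  MvPolynomial.eval₂Hom (kst E) (fun j => fr E 1 (MvPolynomial.X j) (MvPolynomial.X i) (X_hom j)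
    (X_hom i) hiE)

theorem evS_psi (E : PSpace n k) (i : Fin (n + 1)) (hiE : MvPolynomial.X i ∉ hi E)
    (f : MvPolynomial (Fin (n + 1)) k) : evS E (psi E i hiE f) =
      MvPolynomial.aeval (fun j => toFr (MvPolynomial.X j) / toFr (MvPolynomial.X i)) f := by
  have h : (evS E).comp (psi E i hiE) = (MvPolynomial.aeval (R := k)
      (fun j => toFr (MvPolynomial.X j : MvPolynomial (Fin (n + 1)) k) /
        toFr (MvPolynomial.X i)) : MvPolynomial (Fin (n + 1)) k →+* Fr n k) := by
    apply MvPolynomial.ringHom_ext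
    · intro c
      rw [RingHom.comp_apply, psi, MvPolynomial.coe_eval₂Hom, MvPolynomial.eval₂_C, evS_kst]
      simp only [RingHom.coe_coe, MvPolynomial.aeval_C]
      rw [IsScalarTower.algebraMap_apply k (MvPolynomial (Fin (n + 1)) k) (Fr n k)]
      rfl
    · intro j
      rw [RingHom.comp_apply, psi, MvPolynomial.coe_eval₂Hom, MvPolynomial.eval₂_X, evS_fr]
      simp
  exact congrArg (fun g => g f) h

theorem psi_hom (E : PSpace n k) (i : Fin (n + 1)) (hiE : MvPolynomial.X i ∉ hi E) (d : ℕ)
    (f : MvPolynomial (Fin (n + 1)) k) (hf : f.IsHomogeneous d) :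
    psi E i hiE f = fr E d f (MvPolynomial.X i ^ d) hf (MvPolynomial.isHomogeneous_X_pow i d)
      (pow_notMem hiE d) := by
  apply evS_injective
  rw [evS_psi, evS_fr]
  have h2 : toFr (MvPolynomial.X i ^ d : MvPolynomial (Fin (n + 1)) k) =
    toFr (MvPolynomial.X i) ^ d := map_pow _ _ _
  rw [h2]
  exact PS_scale n k i d f hf

theorem fr_mul_psi (E : PSpace n k) (i : Fin (n + 1)) (hiE : MvPolynomial.X i ∉ hi E) (d : ℕ)
    (f g : MvPolynomial (Fin (n + 1)) k) (hf : f.IsHomogeneous d) (hg : g.IsHomogeneous d)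
    (hgE : g ∉ hi E) : fr E d f g hf hg hgE * psi E i hiE g = psi E i hiE f := by
  apply evS_injective
  rw [map_mul, psi_hom E i hiE d g hg, psi_hom E i hiE d f hf, evS_fr, evS_fr, evS_fr,
    div_mul_div_cancel₀ (toFr_ne (ne_zero_of_notMem hgE))]

theorem isUnit_psi (E : PSpace n k) (i : Fin (n + 1)) (hiE : MvPolynomial.X i ∉ hi E) (d : ℕ)
    (f : MvPolynomial (Fin (n + 1)) k) (hf : f.IsHomogeneous d) :
    IsUnit (psi E i hiE f) ↔ f ∉ hi E := by
  rw [psi_hom E i hiE d f hf, isUnit_fr]

/-! ### the local rings as localizations of polynomial rings -/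

/-- the homomorphism from the ring of the affine chart -/
def chi (E : PSpace n k) (i : Fin (n + 1)) (hiE : MvPolynomial.X i ∉ hi E) :
    MvPolynomial (Fin n) k →+* (PSpace n k).presheaf.stalk E :=
  MvPolynomial.eval₂Hom (kst E) (fun l => fr E 1 (MvPolynomial.X (i.succAbove l))
    (MvPolynomial.X i) (X_hom _) (X_hom i) hiE)

theorem psi_eq_chi (E : PSpace n k) (i : Fin (n + 1)) (hiE : MvPolynomial.X i ∉ hi E)
    (f : MvPolynomial (Fin (n + 1)) k) : psi E i hiE f = chi E i hiE (PSdehom n k i f) := by
  have h : psi E i hiE = (chi E i hiE).comp (PSdehom n k i : MvPolynomial (Fin (n + 1)) k →+*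
      MvPolynomial (Fin n) k) := by
    apply MvPolynomial.ringHom_ext
    · intro c
      have h1 : PSdehom n k i (MvPolynomial.C c) = MvPolynomial.C c := by
        have h := (PSdehom n k i).commutes c
        rw [MvPolynomial.algebraMap_eq, MvPolynomial.algebraMap_eq] at h
        exact h
      rw [RingHom.comp_apply, psi, MvPolynomial.coe_eval₂Hom, MvPolynomial.eval₂_C]
      simp only [RingHom.coe_coe, h1]
      rw [chi, MvPolynomial.coe_eval₂Hom, MvPolynomial.eval₂_C]
    · intro j
      rw [RingHom.comp_apply, psi, MvPolynomial.coe_eval₂Hom, MvPolynomial.eval₂_X]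
      simp only [RingHom.coe_coe]
      by_cases hj : j = i
      · subst hj
        rw [PSdehom_self, map_one]
        apply evS_injective
        rw [evS_fr, map_one, div_self (toFr_ne (MvPolynomial.X_ne_zero j))]
      · obtain ⟨l, rfl⟩ := Fin.exists_succAbove_eq hj
        rw [PSdehom_succAbove, chi, MvPolynomial.coe_eval₂Hom, MvPolynomial.eval₂_X]
  exact congrArg (fun g => g f) h

theorem chi_injective (E : PSpace n k) (i : Fin (n + 1)) (hiE : MvPolynomial.X i ∉ hi E) :
    Function.Injective (chi E i hiE) := by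
  have h : (evS E).comp (chi E i hiE) = (MvPolynomial.aeval (R := k) (PSt n k i) :
      MvPolynomial (Fin n) k →+* Fr n k) := by
    apply MvPolynomial.ringHom_ext
    · intro c
      rw [RingHom.comp_apply, chi, MvPolynomial.coe_eval₂Hom, MvPolynomial.eval₂_C, evS_kst]
      simp only [RingHom.coe_coe, MvPolynomial.aeval_C]
      rw [IsScalarTower.algebraMap_apply k (MvPolynomial (Fin (n + 1)) k) (Fr n k)]
      rfl
    · intro j
      rw [RingHom.comp_apply, chi, MvPolynomial.coe_eval₂Hom, MvPolynomial.eval₂_X, evS_fr]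
      simp [PSt]
  intro a b hab
  have h1 : (evS E).comp (chi E i hiE) a = (evS E).comp (chi E i hiE) b :=
    congrArg (evS E) hab
  rw [h] at h1
  exact PS_algInd n k i h1

theorem isLocalRing_stalk (E : PSpace n k) : IsLocalRing ((PSpace n k).presheaf.stalk E) :=
  inferInstance

/-- the prime ideal of the affine chart -/
def pr (E : PSpace n k) (i : Fin (n + 1)) (hiE : MvPolynomial.X i ∉ hi E) :
    Ideal (MvPolynomial (Fin n) k) :=
  (IsLocalRing.maximalIdeal ((PSpace n k).presheaf.stalk E)).comap (chi E i hiE)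

instance (E : PSpace n k) (i : Fin (n + 1)) (hiE : MvPolynomial.X i ∉ hi E) :
    (pr E i hiE).IsPrime := by
  unfold pr
  infer_instance

theorem mem_pr {E : PSpace n k} {i : Fin (n + 1)} {hiE : MvPolynomial.X i ∉ hi E}
    {a : MvPolynomial (Fin n) k} : a ∈ pr E i hiE ↔ ¬ IsUnit (chi E i hiE a) := by
  unfold pr
  rw [Ideal.mem_comap, IsLocalRing.mem_maximalIdeal]
  rfl

theorem isLocalization_chi (E : PSpace n k) (i : Fin (n + 1)) (hiE : MvPolynomial.X i ∉ hi E) :
    letI := (chi E i hiE).toAlgebra
    IsLocalization.AtPrime ((PSpace n k).presheaf.stalk E) (pr E i hiE) := by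
  let := (chi E i hiE).toAlgebra
  refine (isLocalization_iff _ _).2 ⟨?_, ?_, ?_⟩
  · intro y
    have h : (y : MvPolynomial (Fin n) k) ∉ pr E i hiE := y.2
    rw [mem_pr, not_not] at h
    exact h
  · intro r
    obtain ⟨d, f, g, hf, hg, hgE, rfl⟩ := exists_fr r
    refine ⟨(PSdehom n k i f, ⟨PSdehom n k i g, ?_⟩), ?_⟩
    · change PSdehom n k i g ∉ pr E i hiE
      rw [mem_pr, not_not, ← psi_eq_chi, isUnit_psi E i hiE d g hg]
      exact hgE
    · change fr E d f g hf hg hgE * chi E i hiE (PSdehom n k i g) =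
        chi E i hiE (PSdehom n k i f)
      rw [← psi_eq_chi, ← psi_eq_chi, fr_mul_psi]
  · intro a b hab
    refine ⟨1, ?_⟩
    rw [show a = b from chi_injective E i hiE hab]

theorem regular_stalk (E : PSpace n k) : IsRegularLocalRing ((PSpace n k).presheaf.stalk E) := by
  obtain ⟨i, hiE⟩ := exists_X_notMem n k E
  let := (chi E i hiE).toAlgebra
  have := isLocalization_chi E i hiE
  have e := (IsLocalization.algEquiv (pr E i hiE).primeCompl
    (Localization.AtPrime (pr E i hiE)) ((PSpace n k).presheaf.stalk E)).toRingEquiv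
  have : IsRegularLocalRing (Localization.AtPrime (pr E i hiE)) := inferInstance
  exact IsRegularLocalRing.of_ringEquiv e

theorem normal_stalk (E : PSpace n k) : IsIntegrallyClosed ((PSpace n k).presheaf.stalk E) := by
  obtain ⟨i, hiE⟩ := exists_X_notMem n k E
  let := (chi E i hiE).toAlgebra
  have := isLocalization_chi E i hiE
  exact isIntegrallyClosed_of_isLocalization _ (pr E i hiE).primeCompl
    (Ideal.primeCompl_le_nonZeroDivisors _)

instance noetherian_stalk (E : PSpace n k) :
    IsNoetherianRing ((PSpace n k).presheaf.stalk E) := by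
  obtain ⟨i, hiE⟩ := exists_X_notMem n k E
  let := (chi E i hiE).toAlgebra
  have := isLocalization_chi E i hiE
  exact IsLocalization.isNoetherianRing (pr E i hiE).primeCompl _ inferInstance

end

end Pool.Agent.TH192.PP
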