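import Mathlib
import Pool.Agent.Helper271.CP.Final
import Pool.Agent.TH192.Stk

/-!
# Prime divisors of projective space
-/

open AlgebraicGeometry CategoryTheory ClusterLift

namespace Pool.Agent.TH192.PP

attribute [local instance] MvPolynomial.gradedAlgebra

noncomputable section

universe u

/-! ### orders -/

section Ord

variable {Z : Scheme.{u}} [IsIntegral Z] {K : Type u} [Field K] {ι : Z.functionField ≃+* K} {E : Z}

theorem ιt_ne {t : Z.presheaf.stalk E} (ht : Irreducible t) : ι (toK t) ≠ 0 := by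
  intro h0
  exact toK_ne ht.ne_zero (ι.injective (h0.trans (map_zero ι).symm))

theorem hasOrder_unit {r : Z.presheaf.stalk E} (hr : IsUnit r) : HasOrder ι E (ι (toK r)) 0 := by
  intro t ht
  exact ⟨r, hr, by rw [zpow_zero, mul_one]⟩

theorem hasOrder_one : HasOrder ι E 1 0 := by
  have h := hasOrder_unit (ι := ι) (E := E) (r := 1) isUnit_one
  rwa [toK_one, map_one] at h

theorem hasOrder_mul {f g : K} {a b : ℤ} (hf : HasOrder ι E f a) (hg : HasOrder ι E g b) :
    HasOrder ι E (f * g) (a + b) := by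
  intro t ht
  obtain ⟨r, hr, rfl⟩ := hf t ht
  obtain ⟨s, hs, rfl⟩ := hg t ht
  refine ⟨r * s, hr.mul hs, ?_⟩
  rw [toK_mul, map_mul, zpow_add₀ (ιt_ne ht)]
  ring

theorem hasOrder_inv {f : K} {a : ℤ} (hf : HasOrder ι E f a) : HasOrder ι E f⁻¹ (-a) := by
  intro t ht
  obtain ⟨r, hr, rfl⟩ := hf t ht
  obtain ⟨s, hs⟩ := hr.exists_right_inv
  have hs' : IsUnit s := IsUnit.of_mul_eq_one_right r hs
  refine ⟨s, hs', ?_⟩
  have h1 : ι (toK r) * ι (toK s) = 1 := by
    rw [← map_mul, ← toK_mul, hs, toK_one, map_one]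
  rw [mul_inv, eq_inv_of_mul_eq_one_right h1, zpow_neg]

theorem hasOrder_div {f g : K} {a b : ℤ} (hf : HasOrder ι E f a) (hg : HasOrder ι E g b) :
    HasOrder ι E (f / g) (a - b) := by
  rw [div_eq_mul_inv, sub_eq_add_neg]
  exact hasOrder_mul hf (hasOrder_inv hg)

theorem hasOrder_unique {f : K} {a b : ℤ} {t : Z.presheaf.stalk E} (ht : Irreducible t)
    (hf : HasOrder ι E f a) (hg : HasOrder ι E f b) : a = b := by
  obtain ⟨r, hr, h1⟩ := hf t ht
  obtain ⟨s, hs, h2⟩ := hg t ht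
  exact order_unique ht hr hs (h1.symm.trans h2)

theorem hasOrder_unif {x : Z.presheaf.stalk E} (hx : ¬ IsUnit x)
    (h : ∀ y : Z.presheaf.stalk E, ¬ IsUnit y → x ∣ y) : HasOrder ι E (ι (toK x)) 1 := by
  intro t ht
  obtain ⟨s, hs⟩ := h t ht.not_isUnit
  have hs' : IsUnit s := (ht.isUnit_or_isUnit hs).resolve_left hx
  obtain ⟨r, hr⟩ := hs'.exists_right_inv
  refine ⟨r, IsUnit.of_mul_eq_one_right s hr, ?_⟩
  rw [zpow_one, ← map_mul, ← toK_mul]
  congr 2
  rw [hs]
  calc x = x * (s * r) := by rw [hr, mul_one]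
    _ = r * (x * s) := by ring

/-- a regular function has nonnegative order -/
theorem hasOrder_nonneg [IsDiscreteValuationRing (Z.presheaf.stalk E)] {x : Z.presheaf.stalk E}
    (hx : x ≠ 0) : ∃ a : ℤ, 0 ≤ a ∧ HasOrder ι E (ι (toK x)) a := by
  obtain ⟨t, ht⟩ := IsDiscreteValuationRing.exists_irreducible (Z.presheaf.stalk E)
  obtain ⟨i, u, hu⟩ := IsDiscreteValuationRing.eq_unit_mul_pow_irreducible hx ht
  refine ⟨i, by positivity, ?_⟩
  rw [hu]
  have h1 : HasOrder ι E (ι (toK t)) 1 := by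
    refine hasOrder_unif ht.not_isUnit ?_
    intro y hy
    by_cases hy0 : y = 0
    · rw [hy0]; exact dvd_zero _
    · obtain ⟨j, v, hv⟩ := IsDiscreteValuationRing.eq_unit_mul_pow_irreducible hy0 ht
      rw [hv]
      cases j with
      | zero => exact absurd (by rw [hv, pow_zero, mul_one]; exact v.isUnit) hy
      | succ j => exact ⟨v * t ^ j, by ring⟩
  have h2 := hasOrder_mul (hasOrder_unit (ι := ι) u.isUnit) (h1.pow i)
  rw [toK_mul, map_mul, toK_pow, map_pow]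
  simpa using h2

end Ord

variable {n : ℕ} {k : Type u} [Field k]

theorem specializes_iff {E z : PSpace n k} : E ⤳ z ↔ ∀ f, f ∈ hi E → f ∈ hi z := by
  have h := ProjectiveSpectrum.le_iff_mem_closure (𝒜 := grading n k) E z
  have h2 : E ⤳ z ↔ z ∈ closure ({E} : Set (PSpace n k)) := specializes_iff_mem_closure
  rw [h2]
  exact h.symm

section Unif

variable {E : PSpace n k} {i : Fin (n + 1)} (hiE : MvPolynomial.X i ∉ hi E) {d : ℕ}
  {ℓ : MvPolynomial (Fin (n + 1)) k} (hℓ : ℓ.IsHomogeneous d) (hp : Prime ℓ) (hE : ℓ ∈ hi E)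

theorem not_dvd {g : MvPolynomial (Fin (n + 1)) k} (hE : ℓ ∈ hi E) (hg : g ∉ hi E) : ¬ ℓ ∣ g := by
  rintro ⟨c, rfl⟩
  exact hg (mul_mem_iff.2 (Or.inl hE))

include hℓ hp hE in
theorem psi_dvd_fr_iff {e : ℕ} {f g : MvPolynomial (Fin (n + 1)) k} (hf : f.IsHomogeneous e)
    (hg : g.IsHomogeneous e) (hgE : g ∉ hi E) :
    psi E i hiE ℓ ∣ fr E e f g hf hg hgE ↔ ℓ ∣ f := by
  constructor
  · rintro ⟨c, hc⟩
    obtain ⟨e', f', g', hf', hg', hgE', rfl⟩ := exists_fr c
    have h1 := congrArg (evS E) hc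
    rw [map_mul, psi_hom E i hiE d ℓ hℓ, evS_fr, evS_fr, evS_fr] at h1
    have hX := pow_notMem hiE d
    have n1 := toFr_ne (ne_zero_of_notMem hgE)
    have n2 := toFr_ne (ne_zero_of_notMem hgE')
    have n3 := toFr_ne (ne_zero_of_notMem hX)
    have h2 : f * (MvPolynomial.X i ^ d * g') = ℓ * (f' * g) := by
      apply toFr_injective
      simp only [toFr, map_mul]
      simp only [toFr] at h1 n1 n2 n3
      field_simp at h1
      linear_combination h1
    have h3 : ℓ ∣ f * (MvPolynomial.X i ^ d * g') := ⟨_, h2⟩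
    rcases hp.dvd_or_dvd h3 with h4 | h4
    · exact h4
    · exact absurd h4 (not_dvd hE (mul_notMem hX hgE'))
  · intro h
    have h1 : psi E i hiE ℓ ∣ fr E e f g hf hg hgE * psi E i hiE g := by
      rw [fr_mul_psi]
      exact map_dvd _ h
    exact (((isUnit_psi E i hiE e g hg).2 hgE).dvd_mul_right).1 h1

include hℓ hp hE in
theorem prime_psi : Prime (psi E i hiE ℓ) := by
  refine ⟨?_, ?_, ?_⟩
  · intro h
    have h1 := congrArg (evS E) h
    rw [psi_hom E i hiE d ℓ hℓ, evS_fr, map_zero] at h1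
    rcases div_eq_zero_iff.1 h1 with h2 | h2
    · exact toFr_ne hp.ne_zero h2
    · exact toFr_ne (ne_zero_of_notMem (pow_notMem hiE d)) h2
  · rw [isUnit_psi E i hiE d ℓ hℓ, not_not]
    exact hE
  · intro a b hab
    obtain ⟨e, f, g, hf, hg, hgE, rfl⟩ := exists_fr a
    obtain ⟨e', f', g', hf', hg', hgE', rfl⟩ := exists_fr b
    have h1 : fr E e f g hf hg hgE * fr E e' f' g' hf' hg' hgE' =
        fr E (e + e') (f * f') (g * g') (hf.mul hf') (hg.mul hg') (mul_notMem hgE hgE') := by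
      apply evS_injective
      rw [map_mul, evS_fr, evS_fr, evS_fr, div_mul_div_comm]
      simp [toFr]
    rw [h1, psi_dvd_fr_iff hiE hℓ hp hE] at hab
    rw [psi_dvd_fr_iff hiE hℓ hp hE, psi_dvd_fr_iff hiE hℓ hp hE]
    exact hp.dvd_or_dvd hab

include hℓ hp hE in
theorem psi_dvd (hE1 : IsPrimeDivisor E) (x : (PSpace n k).presheaf.stalk E) (hx : ¬ IsUnit x) :
    psi E i hiE ℓ ∣ x := by
  have hprime := prime_psi hiE hℓ hp hE
  have hdim : ringKrullDim ((PSpace n k).presheaf.stalk E) = 1 := hE1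
  have : Ring.KrullDimLE 1 ((PSpace n k).presheaf.stalk E) :=
    (Ring.krullDimLE_iff (n := 1)).2 (by rw [hdim]; rfl)
  have hmax : (Ideal.span {psi E i hiE ℓ} : Ideal ((PSpace n k).presheaf.stalk E)).IsMaximal := by
    refine Ring.krullDimLE_one_iff_of_noZeroDivisors.1 inferInstance _ ?_ ?_
    · rw [Ne, Ideal.span_singleton_eq_bot]; exact hprime.ne_zero
    · rw [Ideal.span_singleton_prime hprime.ne_zero]; exact hprime
  have h1 : x ∈ IsLocalRing.maximalIdeal ((PSpace n k).presheaf.stalk E) :=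
    (IsLocalRing.mem_maximalIdeal x).2 hx
  rw [← IsLocalRing.eq_maximalIdeal hmax] at h1
  exact Ideal.mem_span_singleton.1 h1

include hℓ hp hE in
theorem dvd_of_mem (hE1 : IsPrimeDivisor E) {e : ℕ} {f : MvPolynomial (Fin (n + 1)) k}
    (hf : f.IsHomogeneous e) (hfE : f ∈ hi E) : ℓ ∣ f := by
  obtain ⟨i, hiE⟩ := exists_X_notMem n k E
  have h1 := psi_dvd hiE hℓ hp hE hE1 (psi E i hiE f)
    (by rw [isUnit_psi E i hiE e f hf, not_not]; exact hfE)
  rw [psi_hom E i hiE e f hf, psi_dvd_fr_iff hiE hℓ hp hE] at h1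
  exact h1

include hℓ hp hE in
theorem hasOrder_psi_mem {K : Type u} [Field K] {ι : (PSpace n k).functionField ≃+* K}
    (hE1 : IsPrimeDivisor E) : HasOrder ι E (ι (toK (psi E i hiE ℓ))) 1 :=
  hasOrder_unif (prime_psi hiE hℓ hp hE).not_isUnit (psi_dvd hiE hℓ hp hE hE1)

end Unif

open Classical in
/-- `1` if `f` vanishes at `E`, and `0` otherwise -/
def ind (f : MvPolynomial (Fin (n + 1)) k) (E : PSpace n k) : ℤ := if f ∈ hi E then 1 else 0

theorem ind_mem {f : MvPolynomial (Fin (n + 1)) k} {E : PSpace n k} (h : f ∈ hi E) :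
    ind f E = 1 := if_pos h

theorem ind_notMem {f : MvPolynomial (Fin (n + 1)) k} {E : PSpace n k} (h : f ∉ hi E) :
    ind f E = 0 := if_neg h

theorem hasOrder_psi {K : Type u} [Field K] {ι : (PSpace n k).functionField ≃+* K}
    {E : PSpace n k} {i : Fin (n + 1)} (hiE : MvPolynomial.X i ∉ hi E) {d : ℕ}
    {ℓ : MvPolynomial (Fin (n + 1)) k} (hℓ : ℓ.IsHomogeneous d) (hp : Prime ℓ)
    (hE1 : IsPrimeDivisor E) : HasOrder ι E (ι (toK (psi E i hiE ℓ))) (ind ℓ E) := by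
  by_cases h : ℓ ∈ hi E
  · rw [ind_mem h]
    exact hasOrder_psi_mem hiE hℓ hp h hE1
  · rw [ind_notMem h]
    exact hasOrder_unit ((isUnit_psi E i hiE d ℓ hℓ).2 h)

/-! ### rational functions -/

theorem gen_hi : ∀ f, f ∈ hi (genericPoint (PSpace n k)) → f = 0 := by
  intro f hf
  have h := (genericPoint_spec (PSpace n k)).specializes (y := PSpt n k) trivial
  exact (PSpt_mem n k f).1 (specializes_iff.1 h f hf)

theorem gen_X (i : Fin (n + 1)) : MvPolynomial.X i ∉ hi (genericPoint (PSpace n k)) :=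
  fun h => MvPolynomial.X_ne_zero i (gen_hi _ h)

/-- the rational function `f / X_0 ^ deg f` -/
def wK : MvPolynomial (Fin (n + 1)) k →+* (PSpace n k).functionField :=
  psi (genericPoint (PSpace n k)) 0 (gen_X 0)

theorem evK_wK {d : ℕ} {f : MvPolynomial (Fin (n + 1)) k} (hf : f.IsHomogeneous d) :
    evK (wK f) = toFr f / toFr (MvPolynomial.X 0) ^ d := by
  have h := evS_fr (genericPoint (PSpace n k)) d f (MvPolynomial.X 0 ^ d) hf
    (MvPolynomial.isHomogeneous_X_pow 0 d) (pow_notMem (gen_X 0) d)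
  rw [← psi_hom (genericPoint (PSpace n k)) 0 (gen_X 0) d f hf] at h
  have h2 : toFr (MvPolynomial.X 0 ^ d : MvPolynomial (Fin (n + 1)) k) =
    toFr (MvPolynomial.X 0) ^ d := map_pow _ _ _
  rw [h2] at h
  exact h

theorem wK_ne {d : ℕ} {f : MvPolynomial (Fin (n + 1)) k} (hf : f.IsHomogeneous d) (h0 : f ≠ 0) :
    wK f ≠ 0 := by
  intro h
  have h1 := evK_wK hf
  rw [h, map_zero] at h1
  rcases div_eq_zero_iff.1 h1.symm with h2 | h2
  · exact toFr_ne h0 h2
  · exact pow_ne_zero d (toFr_ne (MvPolynomial.X_ne_zero 0)) h2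

theorem wK_X0 : wK (MvPolynomial.X 0 : MvPolynomial (Fin (n + 1)) k) = 1 := by
  apply evK_injective
  rw [evK_wK (X_hom 0), map_one, pow_one, div_self (toFr_ne (MvPolynomial.X_ne_zero 0))]

theorem toK_psi {E : PSpace n k} {i : Fin (n + 1)} (hiE : MvPolynomial.X i ∉ hi E) {d : ℕ}
    {f : MvPolynomial (Fin (n + 1)) k} (hf : f.IsHomogeneous d) :
    toK (psi E i hiE f) = wK f / wK (MvPolynomial.X i) ^ d := by
  apply evK_injective
  rw [evK_toK, psi_hom E i hiE d f hf, evS_fr, map_div₀, map_pow, evK_wK hf, evK_wK (X_hom i)]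
  have n1 : toFr (MvPolynomial.X 0 : MvPolynomial (Fin (n + 1)) k) ≠ 0 :=
    toFr_ne (MvPolynomial.X_ne_zero 0)
  have n2 : toFr (MvPolynomial.X i : MvPolynomial (Fin (n + 1)) k) ≠ 0 :=
    toFr_ne (MvPolynomial.X_ne_zero i)
  have h2 : toFr (MvPolynomial.X i ^ d : MvPolynomial (Fin (n + 1)) k) =
    toFr (MvPolynomial.X i) ^ d := map_pow _ _ _
  rw [h2, pow_one, div_pow]
  field_simp

theorem hasOrder_wK {E : PSpace n k} {i : Fin (n + 1)} (hiE : MvPolynomial.X i ∉ hi E) {d : ℕ}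
    {ℓ : MvPolynomial (Fin (n + 1)) k} (hℓ : ℓ.IsHomogeneous d) (hp : Prime ℓ)
    (hE1 : IsPrimeDivisor E) : HasOrder (RingEquiv.refl _) E
      (wK ℓ / wK (MvPolynomial.X i) ^ d) (ind ℓ E) := by
  rw [← toK_psi hiE hℓ]
  exact hasOrder_psi hiE hℓ hp hE1

theorem hasOrder_wK_div {E : PSpace n k} {d : ℕ}
    {ℓ ℓ' : MvPolynomial (Fin (n + 1)) k} (hℓ : ℓ.IsHomogeneous d) (hp : Prime ℓ)
    (hℓ' : ℓ'.IsHomogeneous d) (hp' : Prime ℓ')
    (hE1 : IsPrimeDivisor E) : HasOrder (RingEquiv.refl _) E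
      (wK ℓ / wK ℓ') (ind ℓ E - ind ℓ' E) := by
  obtain ⟨i, hiE⟩ := exists_X_notMem n k E
  have h := hasOrder_div (hasOrder_wK hiE hℓ hp hE1) (hasOrder_wK hiE hℓ' hp' hE1)
  have h1 : wK ℓ / wK (MvPolynomial.X i) ^ d / (wK ℓ' / wK (MvPolynomial.X i) ^ d) =
      wK ℓ / wK ℓ' := by
    have := pow_ne_zero d (wK_ne (X_hom (k := k) i) (MvPolynomial.X_ne_zero i))
    field_simp
  rwa [h1] at h

/-! ### hypersurfaces -/

/-- the generic point of the hypersurface `ℓ = 0` -/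
def Hpt (ℓ : MvPolynomial (Fin (n + 1)) k) (d : ℕ) (hℓ : ℓ.IsHomogeneous d) (hp : Prime ℓ)
    (hne : ∃ i, ¬ ℓ ∣ MvPolynomial.X i) : PSpace n k :=
  (⟨⟨Ideal.span {ℓ}, by
      refine Ideal.homogeneous_span _ _ ?_
      intro x hx
      rw [Set.mem_singleton_iff.1 hx]
      exact ⟨d, hℓ⟩⟩, by
      change (Ideal.span {ℓ}).IsPrime
      rw [Ideal.span_singleton_prime hp.ne_zero]
      exact hp, by
      intro h
      obtain ⟨i, hi⟩ := hne
      have h1 : (MvPolynomial.X i : MvPolynomial (Fin (n + 1)) k) ∈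
          HomogeneousIdeal.irrelevant (grading n k) :=
        HomogeneousIdeal.mem_irrelevant_of_mem _ one_pos (MvPolynomial.isHomogeneous_X _ _)
      have h2 : (MvPolynomial.X i : MvPolynomial (Fin (n + 1)) k) ∈ Ideal.span {ℓ} := h h1
      exact hi (Ideal.mem_span_singleton.1 h2)⟩ : ProjectiveSpectrum (grading n k))

section Hyp

variable {ℓ : MvPolynomial (Fin (n + 1)) k} {d : ℕ} {hℓ : ℓ.IsHomogeneous d} {hp : Prime ℓ}
    {hne : ∃ i, ¬ ℓ ∣ MvPolynomial.X i}

theorem mem_Hpt (f : MvPolynomial (Fin (n + 1)) k) : f ∈ hi (Hpt ℓ d hℓ hp hne) ↔ ℓ ∣ f := by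
  have h : f ∈ hi (Hpt ℓ d hℓ hp hne) ↔ f ∈ Ideal.span {ℓ} := Iff.rfl
  rw [h, Ideal.mem_span_singleton]

theorem Hpt_specializes (z : PSpace n k) : Hpt ℓ d hℓ hp hne ⤳ z ↔ ℓ ∈ hi z := by
  rw [specializes_iff]
  constructor
  · intro h
    exact h ℓ ((mem_Hpt ℓ).2 dvd_rfl)
  · intro h f hf
    obtain ⟨c, rfl⟩ := (mem_Hpt f).1 hf
    exact mul_mem_iff.2 (Or.inl h)

theorem Hpt_prime : IsPrimeDivisor (Hpt ℓ d hℓ hp hne) := by
  set E := Hpt ℓ d hℓ hp hne with hE
  have hmem : ℓ ∈ hi E := (mem_Hpt ℓ).2 dvd_rfl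
  obtain ⟨i, hiE⟩ := exists_X_notMem n k E
  have hprime := prime_psi hiE hℓ hp hmem
  have hmax : IsLocalRing.maximalIdeal ((PSpace n k).presheaf.stalk E) =
      Ideal.span {psi E i hiE ℓ} := by
    apply le_antisymm
    · intro x hx
      obtain ⟨e, f, g, hf, hg, hgE, rfl⟩ := exists_fr x
      rw [Ideal.mem_span_singleton, psi_dvd_fr_iff hiE hℓ hp hmem]
      rw [IsLocalRing.mem_maximalIdeal, mem_nonunits_iff, isUnit_fr, not_not] at hx
      exact (mem_Hpt f).1 hx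
    · rw [Ideal.span_singleton_le_iff_mem, IsLocalRing.mem_maximalIdeal]
      exact hprime.not_isUnit
  have hnf : ¬ IsField ((PSpace n k).presheaf.stalk E) := by
    intro h
    have := h.mul_inv_cancel hprime.ne_zero
    obtain ⟨b, hb⟩ := this
    exact hprime.not_isUnit (IsUnit.of_mul_eq_one b hb)
  have hdvr : IsDiscreteValuationRing ((PSpace n k).presheaf.stalk E) := by
    refine ((IsDiscreteValuationRing.TFAE _ hnf).out 0 4).2 ?_
    exact ⟨⟨_, hmax⟩⟩
  exact IsDiscreteValuationRing.ringKrullDim_eq_one _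

theorem eq_Hpt {E : PSpace n k} (hE : IsPrimeDivisor E) (hmem : ℓ ∈ hi E) :
    E = Hpt ℓ d hℓ hp hne := by
  classical
  apply ProjectiveSpectrum.ext
  apply HomogeneousIdeal.ext
  apply le_antisymm
  · intro f hf
    have h1 : ∀ e, ((DirectSum.decompose (grading n k) f e : grading n k e) :
        MvPolynomial (Fin (n + 1)) k) ∈ hi E := fun e => (hi E).isHomogeneous e hf
    have h2 : ∀ e, ((DirectSum.decompose (grading n k) f e : grading n k e) :
        MvPolynomial (Fin (n + 1)) k) ∈ (hi (Hpt ℓ d hℓ hp hne)).toIdeal := by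
      intro e
      have h3 : ((DirectSum.decompose (grading n k) f e : grading n k e) :
        MvPolynomial (Fin (n + 1)) k).IsHomogeneous e :=
        (DirectSum.decompose (grading n k) f e).2
      exact (mem_Hpt _).2 (dvd_of_mem hℓ hp hmem hE h3 (h1 e))
    rw [← DirectSum.sum_support_decompose (grading n k) f]
    exact Ideal.sum_mem _ fun e _ => h2 e
  · intro f hf
    obtain ⟨c, rfl⟩ := (mem_Hpt (hℓ := hℓ) (hp := hp) (hne := hne) f).1 hf
    exact mul_mem_iff.2 (Or.inl hmem)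

end Hyp

end

end Pool.Agent.TH192.PP
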