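import Mathlib
import Pool.Agent.TH192.Div

/-!
# The canonical divisor of projective space
-/

open AlgebraicGeometry CategoryTheory ClusterLift

namespace Pool.Agent.TH192.PP

attribute [local instance] MvPolynomial.gradedAlgebra

noncomputable section

universe u

variable {n : ℕ} {k : Type u} [Field k]

/-- the function field as an algebra over `k` -/
abbrev algK (n : ℕ) (k : Type u) [Field k] : Algebra k (PSpace n k).functionField :=
  functionFieldAlgebra (PSpace.toSpec n k)

attribute [local instance] algK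

/-- the affine coordinates -/
def yy (n : ℕ) (k : Type u) [Field k] (i : Fin (n + 1)) (l : Fin n) : (PSpace n k).functionField :=
  wK (MvPolynomial.X (i.succAbove l)) / wK (MvPolynomial.X i)

theorem toK_fr_X (E : PSpace n k) (i : Fin (n + 1)) (hiE : MvPolynomial.X i ∉ hi E)
    (j : Fin (n + 1)) : toK (fr E 1 (MvPolynomial.X j) (MvPolynomial.X i) (X_hom j) (X_hom i) hiE) =
      wK (MvPolynomial.X j) / wK (MvPolynomial.X i) := by
  have h1 := toK_psi hiE (X_hom (k := k) j)
  have h2 : psi E i hiE (MvPolynomial.X j) =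
      fr E 1 (MvPolynomial.X j) (MvPolynomial.X i) (X_hom j) (X_hom i) hiE := by
    unfold psi
    rw [MvPolynomial.coe_eval₂Hom, MvPolynomial.eval₂_X]
  rw [h2, pow_one] at h1
  exact h1

theorem toK_chi (E : PSpace n k) (i : Fin (n + 1)) (hiE : MvPolynomial.X i ∉ hi E)
    (a : MvPolynomial (Fin n) k) : toK (chi E i hiE a) = MvPolynomial.aeval (yy n k i) a := by
  have h : (algebraMap ((PSpace n k).presheaf.stalk E) (PSpace n k).functionField).comp
      (chi E i hiE) = (MvPolynomial.aeval (R := k) (yy n k i) :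
      MvPolynomial (Fin n) k →+* (PSpace n k).functionField) := by
    apply MvPolynomial.ringHom_ext
    · intro c
      rw [RingHom.comp_apply, chi, MvPolynomial.coe_eval₂Hom, MvPolynomial.eval₂_C]
      simp only [RingHom.coe_coe, MvPolynomial.aeval_C]
      exact toK_kst E c
    · intro j
      rw [RingHom.comp_apply, chi, MvPolynomial.coe_eval₂Hom, MvPolynomial.eval₂_X]
      simp only [RingHom.coe_coe, MvPolynomial.aeval_X]
      exact toK_fr_X E i hiE _
  exact congrArg (fun g => g a) h

theorem yy_algInd (i : Fin (n + 1)) : AlgebraicIndependent k (yy n k i) := by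
  intro a b hab
  have h : ∀ a, toK (chi (genericPoint (PSpace n k)) i (gen_X i) a) =
    MvPolynomial.aeval (yy n k i) a := toK_chi _ _ _
  have h1 : MvPolynomial.aeval (yy n k i) a = MvPolynomial.aeval (yy n k i) b := hab
  rw [← h, ← h] at h1
  exact chi_injective _ _ _ (toK_injective h1)

theorem yy_rep (E : PSpace n k) (i : Fin (n + 1)) (hiE : MvPolynomial.X i ∉ hi E)
    (r : (PSpace n k).presheaf.stalk E) : ∃ (a b : MvPolynomial (Fin n) k)
      (v : (PSpace n k).presheaf.stalk E), IsUnit v ∧
      toK v = MvPolynomial.aeval (yy n k i) b ∧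
      toK r * toK v = MvPolynomial.aeval (yy n k i) a := by
  obtain ⟨d, f, g, hf, hg, hgE, rfl⟩ := exists_fr r
  refine ⟨PSdehom n k i f, PSdehom n k i g, psi E i hiE g, (isUnit_psi E i hiE d g hg).2 hgE,
    ?_, ?_⟩
  · rw [psi_eq_chi, toK_chi]
  · rw [← toK_mul, fr_mul_psi, psi_eq_chi, toK_chi]

theorem yy_adjoin (i : Fin (n + 1)) :
    IntermediateField.adjoin k (Set.range (yy n k i)) = ⊤ := by
  rw [eq_top_iff]
  intro y _
  have hmem : ∀ P : MvPolynomial (Fin n) k, MvPolynomial.aeval (yy n k i) P ∈
      IntermediateField.adjoin k (Set.range (yy n k i)) := by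
    intro P
    apply IntermediateField.algebra_adjoin_le_adjoin
    rw [Algebra.adjoin_range_eq_range_aeval]
    exact ⟨P, rfl⟩
  have hX : MvPolynomial.X i ∉ hi (PSpt n k) := fun h =>
    MvPolynomial.X_ne_zero i ((PSpt_mem n k _).1 h)
  have hkey : ∀ r : (PSpace n k).presheaf.stalk (PSpt n k), toK r ∈
      IntermediateField.adjoin k (Set.range (yy n k i)) := by
    intro r
    obtain ⟨a, b, v, hv, hb, ha⟩ := yy_rep (PSpt n k) i hX r
    have hv0 : toK v ≠ 0 := toK_ne hv.ne_zero
    have : toK r = MvPolynomial.aeval (yy n k i) a / MvPolynomial.aeval (yy n k i) b := by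
      rw [← ha, ← hb, mul_div_cancel_right₀ _ hv0]
    rw [this]
    exact div_mem (hmem _) (hmem _)
  obtain ⟨a, b, hb, hab⟩ := IsFractionRing.div_surjective
    (A := (PSpace n k).presheaf.stalk (PSpt n k)) y
  rw [← hab]
  exact div_mem (hkey a) (hkey b)

theorem yy_zero : yy n k 0 = fun l : Fin n => wK (MvPolynomial.X l.succ) := by
  funext l
  unfold yy
  rw [wK_X0, div_one, Fin.succAbove_zero]

/-- the dimension of `ℙⁿ` -/
theorem trdeg_PSpace : Algebra.trdeg k (PSpace n k).functionField = n := by
  have h1 := yy_algInd (k := k) (0 : Fin (n + 1))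
  have h2 : IsTranscendenceBasis k (yy n k 0) := by
    rw [isTranscendenceBasis_iff_algebraicIndependent_isAlgebraic]
    refine ⟨h1, ?_⟩
    refine ⟨fun z => ?_⟩
    have hz : z ∈ IntermediateField.adjoin k (Set.range (yy n k 0)) := by
      rw [yy_adjoin]
      trivial
    obtain ⟨a, b, hab⟩ := (IntermediateField.mem_adjoin_range_iff k (yy n k 0) z).1 hz
    have hmem : ∀ P : MvPolynomial (Fin n) k, MvPolynomial.aeval (yy n k 0) P ∈
        Algebra.adjoin k (Set.range (yy n k 0)) := by
      intro P
      rw [Algebra.adjoin_range_eq_range_aeval]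
      exact ⟨P, rfl⟩
    by_cases hb : MvPolynomial.aeval (yy n k 0) b = 0
    · rw [hb, div_zero] at hab
      rw [hab]
      exact isAlgebraic_zero
    · refine ⟨Polynomial.C ⟨_, hmem b⟩ * Polynomial.X - Polynomial.C ⟨_, hmem a⟩, ?_, ?_⟩
      · intro h0
        have h3 := congrArg (fun p => Polynomial.coeff p 1) h0
        simp only [Polynomial.coeff_sub, Polynomial.coeff_C_mul, Polynomial.coeff_X_one, mul_one,
          Polynomial.coeff_C_succ, sub_zero, Polynomial.coeff_zero] at h3
        exact hb (congrArg Subtype.val h3)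
      · rw [map_sub, map_mul, Polynomial.aeval_C, Polynomial.aeval_X, Polynomial.aeval_C, hab]
        change MvPolynomial.aeval (yy n k 0) b * _ - MvPolynomial.aeval (yy n k 0) a = 0
        field_simp
        ring
  have h3 := h2.lift_cardinalMk_eq_trdeg
  simpa using h3.symm

/-- the form `dlog (X_1/X_0) ∧ … ∧ dlog (X_n/X_0)` -/
def Om (n : ℕ) (k : Type u) [Field k] : ExteriorAlgebra (PSpace n k).functionField
    (KaehlerDifferential k (PSpace n k).functionField) :=
  wedge (PSpace n k).functionField (fun l : Fin n =>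
    (wK (MvPolynomial.X l.succ : MvPolynomial (Fin (n + 1)) k))⁻¹ •
    KaehlerDifferential.D k (PSpace n k).functionField
      (wK (MvPolynomial.X l.succ : MvPolynomial (Fin (n + 1)) k)))

theorem isDivisorOfForm_Om : IsDivisorOfForm k n (RingEquiv.refl _) (Om n k)
    (fun E => - hypZ n k E) := by
  intro E hE t ht
  obtain ⟨i, hi⟩ := exists_X_notMem n k E
  set w : Fin (n + 1) → (PSpace n k).functionField := fun j => wK (MvPolynomial.X j) with hw
  have hw0 : ∀ j, w j ≠ 0 := fun j => wK_ne (X_hom j) (MvPolynomial.X_ne_zero j)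
  have hw1 : w 0 = 1 := wK_X0
  set e : Fin n → (PSpace n k).presheaf.stalk E := fun l => fr E 1
    (MvPolynomial.X (i.succAbove l)) (MvPolynomial.X i) (X_hom _) (X_hom i) hi with hedef
  have he : ∀ l, toK (e l) = w (i.succAbove l) / w i := fun l => toK_fr_X E i hi _
  have heu : ∀ l, IsUnit (e l) ↔ MvPolynomial.X (i.succAbove l) ∉
      ProjectiveSpectrum.asHomogeneousIdeal E := fun l => isUnit_fr E 1 _ _ _ _ hi
  have hδ : ∀ j : Fin (n + 1), (fun l : Fin n => (w (j.succAbove l) / w j)⁻¹ •
      KaehlerDifferential.D k (PSpace n k).functionField (w (j.succAbove l) / w j)) = fun l =>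
      (w (j.succAbove l))⁻¹ • KaehlerDifferential.D k (PSpace n k).functionField
        (w (j.succAbove l)) -
      (w j)⁻¹ • KaehlerDifferential.D k (PSpace n k).functionField (w j) := by
    intro j
    funext l
    exact dlog_div _ _ (hw0 _) (hw0 _)
  obtain ⟨ε, hε, hεw⟩ := wedge_succAbove (K := (PSpace n k).functionField)
    (fun j => (w j)⁻¹ • KaehlerDifferential.D k (PSpace n k).functionField (w j)) i
  have hΩ : (fun l : Fin n => (w l.succ)⁻¹ •
      KaehlerDifferential.D k (PSpace n k).functionField (w l.succ)) =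
      fun l : Fin n => (w l.succ)⁻¹ •
        KaehlerDifferential.D k (PSpace n k).functionField (w l.succ) -
      (w 0)⁻¹ • KaehlerDifferential.D k (PSpace n k).functionField (w 0) := by
    funext l
    rw [hw1]
    simp
  have hdim : ringKrullDim ((PSpace n k).presheaf.stalk E) = 1 := hE
  have hj : Function.Injective (algebraMap ((PSpace n k).presheaf.stalk E)
      (PSpace n k).functionField) := toK_injective
  have hm : ∃ m : ℕ, (m : ℤ) = hypZ n k E ∧ (m = 0 ∧ (∀ l, IsUnit (e l)) ∨
      m = 1 ∧ ∃ l, ¬ IsUnit (e l)) := by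
    by_cases hex : ∃ i : Fin (n + 1),
      MvPolynomial.X i ∈ ProjectiveSpectrum.asHomogeneousIdeal E
    · refine ⟨1, ?_, Or.inr ⟨rfl, ?_⟩⟩
      · unfold hypZ
        rw [if_pos hex]
        rfl
      · obtain ⟨j, hj⟩ := hex
        have hij : j ≠ i := by
          rintro rfl
          exact hi hj
        obtain ⟨l, rfl⟩ := Fin.exists_succAbove_eq hij
        exact ⟨l, fun hu => (heu l).mp hu hj⟩
    · refine ⟨0, ?_, Or.inl ⟨rfl, ?_⟩⟩
      · unfold hypZ
        rw [if_neg hex]
        rfl
      · intro l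
        refine (heu l).mpr ?_
        intro hc
        exact hex ⟨_, hc⟩
  obtain ⟨m, hmh, hm⟩ := hm
  obtain ⟨g1, g2⟩ := local_dlog (k := k) hdim (algebraMap ((PSpace n k).presheaf.stalk E)
      (PSpace n k).functionField) hj
      (fun l : Fin n => w (i.succAbove l) / w i) (yy_algInd i) e he
      (fun c => ⟨kst E c, toK_kst E c⟩) (yy_rep E i hi) t ht m hm
  have hexp : -(- hypZ n k E) = (m : ℤ) := by rw [neg_neg, hmh]
  rw [hδ i, hεw, ← hΩ] at g1 g2
  have hεu : IsUnit ((ε : ℤ) : (PSpace n k).presheaf.stalk E) := by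
    rcases hε with rfl | rfl <;> simp
  constructor
  · intro z
    obtain ⟨r, hr⟩ := g1 z
    refine ⟨r * (ε : ℤ), ?_⟩
    unfold stalkForm
    rw [hexp, zpow_natCast]
    refine hr.trans ?_
    rw [smul_smul]
    change _ = _ • wedge (PSpace n k).functionField (fun l => (w l.succ)⁻¹ •
      KaehlerDifferential.D k (PSpace n k).functionField (w l.succ))
    congr 1
    simp only [toK, RingEquiv.refl_apply, map_mul, map_intCast]
    ring
  · obtain ⟨z, r, hru, hr⟩ := g2
    refine ⟨z, r * (ε : ℤ), hru.mul hεu, ?_⟩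
    unfold stalkForm
    rw [hexp, zpow_natCast]
    refine hr.trans ?_
    rw [smul_smul]
    change _ = _ • wedge (PSpace n k).functionField (fun l => (w l.succ)⁻¹ •
      KaehlerDifferential.D k (PSpace n k).functionField (w l.succ))
    congr 1
    simp only [toK, RingEquiv.refl_apply, map_mul, map_intCast]
    ring

end

end Pool.Agent.TH192.PP
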