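import Mathlib
import Pool.Agent.TH192.Can

/-!
# Nonvanishing of forms
-/

open AlgebraicGeometry CategoryTheory ClusterLift

namespace Pool.Agent.TH192.PP

attribute [local instance] MvPolynomial.gradedAlgebra

noncomputable section

universe u

theorem wedge_ne_zero {K : Type u} {M : Type u} [Field K] [AddCommGroup M] [Module K M] {n : ℕ}
    (v : Fin n → M) (d : Fin n → (M →ₗ[K] K))
    (h : Matrix.det (Matrix.of fun i l => d l (v i)) ≠ 0) : wedge K v ≠ 0 := by
  intro h0
  apply h
  have h1 := ExteriorAlgebra.liftAlternating_apply_ιMulti (R := K) (M := M) (N := K) (n := n)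
    (Pi.single n (Matrix.detRowAlternating.compLinearMap (LinearMap.pi d))) v
  rw [← aux4_wedge_eq, h0, map_zero, Pi.single_eq_same] at h1
  exact h1.symm

theorem exists_der {k K : Type*} [Field k] [Field K] [Algebra k K] {n : ℕ}
    (x : Fin n → K) (hx : AlgebraicIndependent k x)
    (hx' : IntermediateField.adjoin k (Set.range x) = ⊤) (j : Fin n) :
    ∃ D : Derivation k K K, ∀ i, D (x i) = if i = j then 1 else 0 := by
  let : Algebra (MvPolynomial (Fin n) k) K :=
    (MvPolynomial.aeval x : MvPolynomial (Fin n) k →ₐ[k] K).toRingHom.toAlgebra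
  have hmap : ∀ P : MvPolynomial (Fin n) k,
      algebraMap (MvPolynomial (Fin n) k) K P = MvPolynomial.aeval x P := fun P => rfl
  have hfaith : FaithfulSMul (MvPolynomial (Fin n) k) K :=
    (faithfulSMul_iff_algebraMap_injective _ _).2 hx
  have hfrac : IsFractionRing (MvPolynomial (Fin n) k) K := by
    refine IsFractionRing.of_field (MvPolynomial (Fin n) k) K (fun z => ?_)
    have hz : z ∈ IntermediateField.adjoin k (Set.range x) := by rw [hx']; trivial
    exact (IntermediateField.mem_adjoin_range_iff k x z).1 hz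
  let φ : MvPolynomial (Fin n) k →+* TrivSqZeroExt K K :=
    MvPolynomial.eval₂Hom ((TrivSqZeroExt.inlHom K K).comp (algebraMap k K))
      (fun i => TrivSqZeroExt.inl (x i) + TrivSqZeroExt.inr (if i = j then 1 else 0))
  have hfst0 : ((TrivSqZeroExt.fstHom K K K : TrivSqZeroExt K K →ₐ[K] K) :
      TrivSqZeroExt K K →+* K).comp φ = algebraMap (MvPolynomial (Fin n) k) K := by
    refine MvPolynomial.ringHom_ext (fun a => ?_) (fun i => ?_)
    · rw [hmap]
      simp [φ]
    · rw [hmap]
      simp [φ]
      split_ifs <;> simp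
  have hfst : ∀ P, (φ P).fst = algebraMap (MvPolynomial (Fin n) k) K P := by
    intro P
    rw [← hfst0]
    rfl
  have hunit : ∀ y : nonZeroDivisors (MvPolynomial (Fin n) k), IsUnit (φ y) := by
    intro y
    rw [TrivSqZeroExt.isUnit_iff_isUnit_fst, hfst]
    exact IsLocalization.map_units K y
  let ψ : K →+* TrivSqZeroExt K K :=
    IsLocalization.lift (M := nonZeroDivisors (MvPolynomial (Fin n) k)) (g := φ) hunit
  have hψ : ∀ P, ψ (algebraMap (MvPolynomial (Fin n) k) K P) = φ P :=
    fun P => IsLocalization.lift_eq hunit P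
  have hψfst0 : ((TrivSqZeroExt.fstHom K K K : TrivSqZeroExt K K →ₐ[K] K) :
      TrivSqZeroExt K K →+* K).comp ψ = RingHom.id K := by
    refine IsLocalization.ringHom_ext (nonZeroDivisors (MvPolynomial (Fin n) k)) ?_
    refine RingHom.ext fun P => ?_
    change (ψ (algebraMap _ K P)).fst = algebraMap _ K P
    rw [hψ, hfst]
  have hψfst : ∀ z, (ψ z).fst = z := by
    intro z
    have := congrArg (fun f : K →+* K => f z) hψfst0
    exact this
  have hψk : ∀ c : k, ψ (algebraMap k K c) = TrivSqZeroExt.inl (algebraMap k K c) := by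
    intro c
    have : algebraMap k K c = algebraMap (MvPolynomial (Fin n) k) K (MvPolynomial.C c) := by
      rw [hmap, MvPolynomial.aeval_C]
    rw [this, hψ]
    simp only [φ, MvPolynomial.coe_eval₂Hom, MvPolynomial.eval₂_C, hmap, MvPolynomial.aeval_C]
    rfl
  let L : K →ₗ[k] K :=
    { toFun := fun z => (ψ z).snd
      map_add' := fun a b => by rw [map_add, TrivSqZeroExt.snd_add]
      map_smul' := fun c z => by
        rw [Algebra.smul_def, map_mul, hψk, TrivSqZeroExt.snd_mul]
        simp [Algebra.smul_def] }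
  have hL : ∀ z, L z = (ψ z).snd := fun z => rfl
  refine ⟨Derivation.mk' L (fun a b => ?_), fun i => ?_⟩
  · rw [hL, hL, hL, map_mul, TrivSqZeroExt.snd_mul, hψfst, hψfst, op_smul_eq_smul]
  · change L (x i) = _
    rw [hL]
    have : x i = algebraMap (MvPolynomial (Fin n) k) K (MvPolynomial.X i) := by
      rw [hmap, MvPolynomial.aeval_X]
    rw [this, hψ]
    simp [φ]
    split_ifs <;> simp

variable {n : ℕ} {k : Type u} [Field k]

attribute [local instance] algK

theorem Om_ne_zero : Om n k ≠ 0 := by
  have h := yy_algInd (k := k) (0 : Fin (n + 1))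
  have h' := yy_adjoin (k := k) (0 : Fin (n + 1))
  rw [yy_zero] at h h'
  choose D hD using fun j => exists_der _ h h' j
  refine wedge_ne_zero _ (fun l => (D l).liftKaehlerDifferential) ?_
  have h1 : (Matrix.of fun i l => (D l).liftKaehlerDifferential
      ((wK (MvPolynomial.X i.succ : MvPolynomial (Fin (n + 1)) k))⁻¹ •
      KaehlerDifferential.D k (PSpace n k).functionField
        (wK (MvPolynomial.X i.succ : MvPolynomial (Fin (n + 1)) k)))) =
      Matrix.diagonal (fun i : Fin n =>
        (wK (MvPolynomial.X i.succ : MvPolynomial (Fin (n + 1)) k))⁻¹) := by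
    ext i l
    rw [Matrix.of_apply, map_smul, Derivation.liftKaehlerDifferential_comp_D, hD,
      Matrix.diagonal_apply]
    split_ifs <;> simp
  rw [h1, Matrix.det_diagonal, Finset.prod_ne_zero_iff]
  intro i _
  exact inv_ne_zero (wK_ne (X_hom _) (MvPolynomial.X_ne_zero _))

end

end Pool.Agent.TH192.PP
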