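import Mathlib
import Pool.Agent.TH192.Nz

/-!
# Logarithmic forms and discrepancies
-/

open AlgebraicGeometry CategoryTheory ClusterLift

namespace Pool.Agent.TH192.PP

attribute [local instance] MvPolynomial.gradedAlgebra

noncomputable section

universe u

section Alg

variable {k K : Type u} [Field k] [Field K] [Algebra k K]

theorem dlog_mul' (a b : K) (ha : a ≠ 0) (hb : b ≠ 0) :
    (a * b)⁻¹ • KaehlerDifferential.D k K (a * b) =
      a⁻¹ • KaehlerDifferential.D k K a + b⁻¹ • KaehlerDifferential.D k K b := by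
  rw [Derivation.leibniz, smul_add, smul_smul, smul_smul]
  have e1 : (a * b)⁻¹ * a = b⁻¹ := by field_simp
  have e2 : (a * b)⁻¹ * b = a⁻¹ := by field_simp
  rw [e1, e2, add_comm]

theorem dlog_npow (a : K) (ha : a ≠ 0) (m : ℕ) :
    (a ^ m)⁻¹ • KaehlerDifferential.D k K (a ^ m) =
      (m : K) • (a⁻¹ • KaehlerDifferential.D k K a) := by
  induction m with
  | zero => simp
  | succ m ih =>
    rw [pow_succ, dlog_mul' _ _ (pow_ne_zero m ha) ha, ih]
    push_cast
    rw [add_smul, one_smul]

theorem dlog_inv' (a : K) (ha : a ≠ 0) :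
    (a⁻¹)⁻¹ • KaehlerDifferential.D k K a⁻¹ = - (a⁻¹ • KaehlerDifferential.D k K a) := by
  have h := dlog_mul' (k := k) a a⁻¹ ha (inv_ne_zero ha)
  rw [mul_inv_cancel₀ ha] at h
  rw [Derivation.map_one_eq_zero, smul_zero] at h
  exact (neg_eq_of_add_eq_zero_right h.symm).symm

theorem dlog_zpow (a : K) (ha : a ≠ 0) (m : ℤ) :
    (a ^ m)⁻¹ • KaehlerDifferential.D k K (a ^ m) =
      (m : K) • (a⁻¹ • KaehlerDifferential.D k K a) := by
  obtain ⟨m, rfl | rfl⟩ := m.eq_nat_or_neg
  · rw [zpow_natCast, dlog_npow a ha]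
    push_cast
    rfl
  · rw [zpow_neg, zpow_natCast, dlog_inv' _ (pow_ne_zero m ha), dlog_npow a ha]
    push_cast
    rw [neg_smul]

variable {M : Type u} [AddCommGroup M] [Module K M]

theorem wedge_two (α β : M) : wedge K ![α, β] = ExteriorAlgebra.ι K α * ExteriorAlgebra.ι K β := by
  unfold wedge
  simp [List.ofFn_succ]

theorem wedge_two_swap (α β : M) : wedge K ![α, β] = - wedge K ![β, α] := by
  rw [wedge_two, wedge_two]
  have h := ExteriorAlgebra.ι_sq_zero (R := K) (α + β)
  have h1 := ExteriorAlgebra.ι_sq_zero (R := K) α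
  have h2 := ExteriorAlgebra.ι_sq_zero (R := K) β
  rw [map_add, add_mul, mul_add, mul_add, h1, h2, zero_add, add_zero] at h
  exact eq_neg_of_add_eq_zero_left h

theorem wedge_two_self (α : M) : wedge K ![α, α] = 0 := by
  rw [wedge_two]
  exact ExteriorAlgebra.ι_sq_zero (R := K) α

theorem wedge_two_add_left (α α' β : M) :
    wedge K ![α + α', β] = wedge K ![α, β] + wedge K ![α', β] := by
  simp only [wedge_two, map_add, add_mul]

theorem wedge_two_add_right (α β β' : M) :
    wedge K ![α, β + β'] = wedge K ![α, β] + wedge K ![α, β'] := by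
  simp only [wedge_two, map_add, mul_add]

theorem wedge_two_smul_left (c : K) (α β : M) :
    wedge K ![c • α, β] = c • wedge K ![α, β] := by
  simp only [wedge_two, map_smul, smul_mul_assoc]

theorem wedge_two_smul_right (c : K) (α β : M) :
    wedge K ![α, c • β] = c • wedge K ![α, β] := by
  simp only [wedge_two, map_smul, mul_smul_comm]

theorem dlog_wedge {R : Type u} [CommRing R] (j : R →+* K) (t : R) (ht : j t ≠ 0)
    (ω : ExteriorAlgebra K (KaehlerDifferential k K)) (N : ℤ)
    (h : ∀ z : Fin 2 → R, ∃ r : R, wedge K (fun i => KaehlerDifferential.D k K (j (z i))) =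
      (j r * j t ^ N) • ω) (u v : R) (hu : IsUnit u) (hv : IsUnit v) (a b : ℤ) (f g : K)
    (hf : f = j u * j t ^ a) (hg : g = j v * j t ^ b) :
    ∃ r : R, wedge K ![f⁻¹ • KaehlerDifferential.D k K f, g⁻¹ • KaehlerDifferential.D k K g] =
      (j r * j t ^ (N - 1)) • ω := by
  obtain ⟨u', hu'⟩ := hu.exists_right_inv
  obtain ⟨v', hv'⟩ := hv.exists_right_inv
  have hju : j u * j u' = 1 := by rw [← map_mul, hu', map_one]
  have hjv : j v * j v' = 1 := by rw [← map_mul, hv', map_one]
  have hu0 : j u ≠ 0 := left_ne_zero_of_mul_eq_one hju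
  have hv0 : j v ≠ 0 := left_ne_zero_of_mul_eq_one hjv
  have hui : (j u)⁻¹ = j u' := inv_eq_of_mul_eq_one_right hju
  have hvi : (j v)⁻¹ = j v' := inv_eq_of_mul_eq_one_right hjv
  have h2 : ∀ x y : R, ∃ r : R,
      wedge K ![KaehlerDifferential.D k K (j x), KaehlerDifferential.D k K (j y)] =
      (j r * j t ^ N) • ω := by
    intro x y
    obtain ⟨r, hr⟩ := h ![x, y]
    refine ⟨r, ?_⟩
    rw [← hr]
    congr 1
    funext i
    fin_cases i <;> rfl
  obtain ⟨r1, h1⟩ := h2 u v
  obtain ⟨r2, h2'⟩ := h2 u t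
  obtain ⟨r3, h3⟩ := h2 t v
  refine ⟨u' * v' * t * r1 + b * u' * r2 + a * v' * r3, ?_⟩
  rw [hf, hg, dlog_mul' _ _ hu0 (zpow_ne_zero _ ht), dlog_mul' _ _ hv0 (zpow_ne_zero _ ht),
    dlog_zpow _ ht, dlog_zpow _ ht, hui, hvi]
  simp only [wedge_two_add_left, wedge_two_add_right, wedge_two_smul_left, wedge_two_smul_right,
    wedge_two_self, h1, h2', h3, smul_zero, add_zero, smul_smul, ← add_smul]
  congr 1
  rw [zpow_sub_one₀ ht]
  simp only [map_add, map_mul, map_intCast]
  field_simp
  ring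

end Alg

section Geo

variable {X Y : Scheme.{u}} [IsIntegral X] [IsIntegral Y]

/-- the isomorphism of function fields as a morphism -/
def psm (φ : X.functionField ≃+* Y.functionField) : X.functionField ⟶ Y.functionField :=
  CommRingCat.ofHom φ.toRingHom

theorem toK_stalkMap (π : Y ⟶ X) (φ : X.functionField ≃+* Y.functionField)
    (hφ : InducesOnFunctionFields π φ) (F : Y) (a : X.presheaf.stalk (π F)) :
    φ (toK a) = toK ((π.stalkMap F).hom a) := by
  have hφ' : Y.fromSpecStalk (genericPoint Y) ≫ π =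
    Spec.map (psm φ) ≫ X.fromSpecStalk (genericPoint X) := hφ
  have h : exists_lift_stalk_tf X (π F) ≫ psm φ =
      π.stalkMap F ≫ exists_lift_stalk_tf Y F := by
    apply Spec.map_injective
    rw [Spec.map_comp, Spec.map_comp, ← cancel_mono (X.fromSpecStalk (π F)), Category.assoc,
      Category.assoc, exists_lift_stalk_tf_comp, Scheme.SpecMap_stalkMap_fromSpecStalk, ← hφ',
      ← exists_lift_stalk_tf_comp Y F, Category.assoc]
  exact congrArg (fun f => f.hom a) h

end Geo

end

end Pool.Agent.TH192.PP
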