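import Mathlib
import Pool.Agent.TH192.LC
import Pool.Agent.TH192.Defs

/-!
# The log discrepancy inequality on the projective plane
-/

open AlgebraicGeometry CategoryTheory ClusterLift

namespace Pool.Agent.TH192.PP

attribute [local instance] MvPolynomial.gradedAlgebra

noncomputable section

/-! ### finiteness -/

instance lft_toSpec (n : ℕ) (k : Type) [Field k] : LocallyOfFiniteType (PSpace.toSpec n k) := by
  have h0 : IsScalarTower k (grading n k 0) (MvPolynomial (Fin (n + 1)) k) :=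
    ⟨fun x y z => by
      change ((x • y : grading n k 0) : MvPolynomial (Fin (n + 1)) k) * z =
        x • ((y : MvPolynomial (Fin (n + 1)) k) * z)
      rw [Submodule.coe_smul, smul_mul_assoc]⟩
  have h1 : Algebra.FiniteType (grading n k 0) (MvPolynomial (Fin (n + 1)) k) :=
    Algebra.FiniteType.of_restrictScalars_finiteType k _ _
  have h2 : LocallyOfFiniteType (Proj.toSpecZero (grading n k)) := inferInstance
  have h3 : LocallyOfFiniteType
      (Spec.map (CommRingCat.ofHom (algebraMap k (grading n k 0)))) := by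
    rw [HasRingHomProperty.Spec_iff (P := @LocallyOfFiniteType)]
    change (algebraMap k (grading n k 0)).FiniteType
    refine RingHom.FiniteType.of_surjective _ ?_
    rintro ⟨x, hx⟩
    have hx' : x ∈ (1 : Submodule k (MvPolynomial (Fin (n + 1)) k)) := by
      rw [← MvPolynomial.homogeneousSubmodule_zero]
      exact hx
    obtain ⟨c, hc⟩ := Submodule.mem_one.1 hx'
    exact ⟨c, Subtype.ext hc⟩
  exact inferInstanceAs (LocallyOfFiniteType (Proj.toSpecZero (grading n k) ≫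
    Spec.map (CommRingCat.ofHom (algebraMap k (grading n k 0)))))

instance noeth_PSpace (n : ℕ) (k : Type) [Field k] : IsLocallyNoetherian (PSpace n k) :=
  LocallyOfFiniteType.isLocallyNoetherian (PSpace.toSpec n k)

theorem isDVR_of_proper {n : ℕ} {k : Type} [Field k] {Y : Scheme.{0}} [IsIntegral Y]
    (hY : ∀ y : Y, IsIntegrallyClosed (Y.presheaf.stalk y)) (π : Y ⟶ PSpace n k) [IsProper π]
    (F : Y) (hF : IsPrimeDivisor F) : IsDiscreteValuationRing (Y.presheaf.stalk F) := by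
  have : IsLocallyNoetherian Y := LocallyOfFiniteType.isLocallyNoetherian π
  have := hY F
  exact Pool.Agent.Helper271.CT.isDVR_of_dim_one _ hF

/-! ### logarithmic forms -/

attribute [local instance] algK

/-- the function field of the plane -/
abbrev KK : Type := (PSpace 2 ℂ).functionField

/-- the coordinates -/
def x1 : KK := wK (MvPolynomial.X 1 : MvPolynomial (Fin 3) ℂ)
def x2 : KK := wK (MvPolynomial.X 2 : MvPolynomial (Fin 3) ℂ)

theorem x1_ne : x1 ≠ 0 := wK_ne (X_hom (n := 2) 1) (MvPolynomial.X_ne_zero _)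
theorem x2_ne : x2 ≠ 0 := wK_ne (X_hom (n := 2) 2) (MvPolynomial.X_ne_zero _)

theorem l3_hom : (MvPolynomial.X 1 - MvPolynomial.X 2 : MvPolynomial (Fin 3) ℂ).IsHomogeneous 1 :=
  (X_hom 1).sub (X_hom 2)

theorem l3_ne : (MvPolynomial.X 1 - MvPolynomial.X 2 : MvPolynomial (Fin 3) ℂ) ≠ 0 := by
  intro h
  have := congrArg (MvPolynomial.eval ![0, 1, 0]) h
  simp at this

theorem x12_ne : x1 - x2 ≠ 0 := by
  have h := wK_ne l3_hom l3_ne
  rw [map_sub] at h
  exact h

theorem Om_eq : Om 2 ℂ = (x1⁻¹ * x2⁻¹) • wedge KK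
    ![KaehlerDifferential.D ℂ KK x1, KaehlerDifferential.D ℂ KK x2] := by
  rw [← smul_smul, ← wedge_two_smul_right, ← wedge_two_smul_left]
  unfold Om
  congr 1
  funext i
  fin_cases i <;> rfl

theorem wedge_x1_x2 : wedge KK ![x1⁻¹ • KaehlerDifferential.D ℂ KK x1,
    x2⁻¹ • KaehlerDifferential.D ℂ KK x2] = (1 : KK) • Om 2 ℂ := by
  rw [Om_eq, wedge_two_smul_left, wedge_two_smul_right, smul_smul, one_smul]

theorem wedge_x12_x2 : wedge KK ![(x1 - x2)⁻¹ • KaehlerDifferential.D ℂ KK (x1 - x2),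
    x2⁻¹ • KaehlerDifferential.D ℂ KK x2] = (x1 / (x1 - x2)) • Om 2 ℂ := by
  rw [Om_eq, wedge_two_smul_left, wedge_two_smul_right, smul_smul, smul_smul, map_sub,
    sub_eq_add_neg (KaehlerDifferential.D ℂ KK x1), wedge_two_add_left]
  have h : wedge KK ![- KaehlerDifferential.D ℂ KK x2, KaehlerDifferential.D ℂ KK x2] = 0 := by
    rw [← neg_one_smul KK (KaehlerDifferential.D ℂ KK x2), wedge_two_smul_left, wedge_two_self,
      smul_zero]
  rw [h, add_zero]
  congr 1
  have h1 := x1_ne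
  have h2 := x2_ne
  have h3 := x12_ne
  field_simp

theorem wedge_x12_x1 : wedge KK ![(x1 - x2)⁻¹ • KaehlerDifferential.D ℂ KK (x1 - x2),
    x1⁻¹ • KaehlerDifferential.D ℂ KK x1] = (x2 / (x1 - x2)) • Om 2 ℂ := by
  rw [Om_eq, wedge_two_smul_left, wedge_two_smul_right, smul_smul, smul_smul, map_sub,
    sub_eq_add_neg (KaehlerDifferential.D ℂ KK x1), wedge_two_add_left, wedge_two_self, zero_add]
  have h : wedge KK ![- KaehlerDifferential.D ℂ KK x2, KaehlerDifferential.D ℂ KK x1] =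
      wedge KK ![KaehlerDifferential.D ℂ KK x1, KaehlerDifferential.D ℂ KK x2] := by
    rw [wedge_two_swap (KaehlerDifferential.D ℂ KK x1), ← neg_one_smul KK
      (KaehlerDifferential.D ℂ KK x2), wedge_two_smul_left, neg_one_smul]
  rw [h]
  congr 1
  have h1 := x1_ne
  have h2 := x2_ne
  have h3 := x12_ne
  field_simp

section Ineq

variable {Y : Scheme.{0}} [IsIntegral Y] {ι : Y.functionField ≃+* KK} {KY : Y → ℤ}
  (hKY : IsDivisorOfForm ℂ 2 ι (Om 2 ℂ) KY) {F : Y} (hF : IsPrimeDivisor F)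
  [IsDiscreteValuationRing (Y.presheaf.stalk F)]

include hKY hF in
theorem order_ge {f g c : KK} {a b γ : ℤ} (hf : HasOrder ι F f a) (hg : HasOrder ι F g b)
    (hc0 : c ≠ 0) (hc : HasOrder ι F c γ)
    (h : wedge KK ![f⁻¹ • KaehlerDifferential.D ℂ KK f, g⁻¹ • KaehlerDifferential.D ℂ KK g] =
      c • Om 2 ℂ) : -KY F - 1 ≤ γ := by
  obtain ⟨t, ht⟩ := IsDiscreteValuationRing.exists_irreducible (Y.presheaf.stalk F)
  obtain ⟨u, hu, hfu⟩ := hf t ht
  obtain ⟨v, hv, hgv⟩ := hg t ht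
  let j : Y.presheaf.stalk F →+* KK :=
    (ι : Y.functionField →+* KK).comp (algebraMap (Y.presheaf.stalk F) Y.functionField)
  have hj : ∀ r, j r = ι (toK r) := fun r => rfl
  obtain ⟨r, hr⟩ := dlog_wedge j t (by rw [hj]; exact ιt_ne ht) (Om 2 ℂ) (-KY F)
    (hKY F hF t ht).1 u v hu hv a b f g hfu hgv
  rw [h] at hr
  have h1 : c = j r * j t ^ (-KY F - 1) := smul_left_injective _ Om_ne_zero hr
  have hr0 : r ≠ 0 := by
    rintro rfl
    rw [map_zero, zero_mul] at h1
    exact hc0 h1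
  obtain ⟨ρ, hρ0, hρ⟩ := hasOrder_nonneg (ι := ι) hr0
  have ht1 : HasOrder ι F (ι (toK t)) 1 := by
    intro t' ht'
    obtain ⟨w, hw⟩ := IsDiscreteValuationRing.associated_of_irreducible _ ht' ht
    refine ⟨w, w.isUnit, ?_⟩
    rw [zpow_one, ← map_mul, ← toK_mul, ← hw, mul_comm]
  have ht2 : ∀ m : ℤ, HasOrder ι F (ι (toK t) ^ m) m := by
    intro m
    obtain ⟨m, rfl | rfl⟩ := m.eq_nat_or_neg
    · rw [zpow_natCast]
      simpa using ht1.pow m
    · rw [zpow_neg, zpow_natCast]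
      exact hasOrder_inv (by simpa using ht1.pow m)
  have h2 := hasOrder_mul hρ (ht2 (-KY F - 1))
  rw [← hj, ← hj, ← h1] at h2
  have h3 := hasOrder_unique ht hc h2
  omega

include hKY hF in
theorem ineqs {μ ν l : ℤ} (h1 : HasOrder ι F x1 μ) (h2 : HasOrder ι F x2 ν)
    (h3 : HasOrder ι F (x1 - x2) l) :
    0 ≤ KY F + 1 ∧ l - μ ≤ KY F + 1 ∧ l - ν ≤ KY F + 1 := by
  have e1 := order_ge hKY hF h1 h2 one_ne_zero hasOrder_one wedge_x1_x2
  have e2 := order_ge hKY hF h3 h2 (div_ne_zero x1_ne x12_ne) (hasOrder_div h1 h3) wedge_x12_x2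
  have e3 := order_ge hKY hF h3 h1 (div_ne_zero x2_ne x12_ne) (hasOrder_div h2 h3) wedge_x12_x1
  refine ⟨by omega, by omega, by omega⟩

end Ineq

end

end Pool.Agent.TH192.PP
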