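import Mathlib
import Pool.Agent.TH192.Disc1

/-!
# The log canonical Fano pair
-/

open AlgebraicGeometry CategoryTheory ClusterLift

namespace Pool.Agent.TH192.PP

open Pool.Agent.TH192.Orb

attribute [local instance] MvPolynomial.gradedAlgebra

noncomputable section

/-- the polynomial ring -/
abbrev AA : Type := MvPolynomial (Fin 3) ℂ

/-- the four lines -/
def lf : Fin 4 → AA := ![MvPolynomial.X 0, MvPolynomial.X 1, MvPolynomial.X 2,
  MvPolynomial.X 1 - MvPolynomial.X 2]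

theorem lf_hom (a : Fin 4) : (lf a).IsHomogeneous 1 := by
  fin_cases a
  · exact X_hom 0
  · exact X_hom 1
  · exact X_hom 2
  · exact l3_hom

theorem lf_prime (a : Fin 4) : Prime (lf a) := by
  fin_cases a
  · exact MvPolynomial.X_prime
  · exact MvPolynomial.X_prime
  · exact MvPolynomial.X_prime
  · change Prime (MvPolynomial.X 1 - MvPolynomial.X 2 : AA)
    rw [← irreducible_iff_prime]
    refine MvPolynomial.irreducible_of_totalDegree_eq_one (l3_hom.totalDegree l3_ne) ?_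
    intro x hx
    have h := hx (Finsupp.single 1 1)
    rw [MvPolynomial.coeff_sub, MvPolynomial.coeff_X, MvPolynomial.coeff_X, if_pos rfl, if_neg,
      sub_zero] at h
    · exact isUnit_of_dvd_one h
    · intro h2
      have := congrArg (fun f => f 1) h2
      simp at this

/-- a general point on each line -/
def gp : Fin 4 → Fin 3 → ℂ := ![![0, 1, 2], ![1, 0, 1], ![1, 1, 0], ![1, 1, 1]]

theorem lf_gp (a b : Fin 4) : MvPolynomial.eval (gp a) (lf b) = 0 ↔ a = b := by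
  fin_cases a <;> fin_cases b <;> simp [lf, gp] <;> norm_num

theorem lf_dvd (a b : Fin 4) : lf a ∣ lf b ↔ a = b := by
  constructor
  · intro h
    have h1 : MvPolynomial.eval (gp a) (lf a) ∣ MvPolynomial.eval (gp a) (lf b) := map_dvd _ h
    rw [(lf_gp a a).2 rfl, zero_dvd_iff, lf_gp] at h1
    exact h1
  · rintro rfl
    exact dvd_rfl

theorem lf_ne_X (a : Fin 4) : ∃ i : Fin 3, ¬ lf a ∣ MvPolynomial.X i := by
  by_cases h : a = 0
  · refine ⟨1, ?_⟩
    have h1 : (MvPolynomial.X 1 : AA) = lf 1 := rfl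
    rw [h1, lf_dvd, h]
    decide
  · refine ⟨0, ?_⟩
    have h1 : (MvPolynomial.X 0 : AA) = lf 0 := rfl
    rw [h1, lf_dvd]
    exact h

/-- the generic points of the four lines -/
def HH (a : Fin 4) : PSpace 2 ℂ := Hpt (lf a) 1 (lf_hom a) (lf_prime a) (lf_ne_X a)

theorem HH_prime (a : Fin 4) : IsPrimeDivisor (HH a) := Hpt_prime

theorem mem_HH (a b : Fin 4) : lf b ∈ hi (HH a) ↔ a = b := (mem_Hpt _).trans (lf_dvd a b)

theorem HH_specializes (a : Fin 4) (z : PSpace 2 ℂ) : HH a ⤳ z ↔ lf a ∈ hi z := Hpt_specializes z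

theorem mem_iff_eq_HH {E : PSpace 2 ℂ} (hE : IsPrimeDivisor E) (a : Fin 4) :
    lf a ∈ hi E ↔ E = HH a := by
  constructor
  · intro h
    exact eq_Hpt hE h
  · rintro rfl
    exact (mem_HH a a).2 rfl

/-- the coefficients -/
def cf (m : ℕ) : Fin 4 → ℝ := ![1 - 1 / m, 2 / 3, 2 / 3, 2 / 3]

/-- the divisor `Δ = (1 - 1/m) L_∞ + 2/3 (L_1 + L_2 + L_3)` -/
def DD (m : ℕ) (E : PSpace 2 ℂ) : ℝ := ∑ a, cf m a * (ind (lf a) E : ℤ)

theorem DD_HH (m : ℕ) (a : Fin 4) : DD m (HH a) = cf m a := by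
  unfold DD
  rw [Finset.sum_eq_single a]
  · rw [ind_mem ((mem_HH a a).2 rfl)]
    simp
  · intro b _ hb
    rw [ind_notMem (fun h => hb ((mem_HH a b).1 h).symm)]
    simp
  · simp

theorem DD_zero (m : ℕ) {E : PSpace 2 ℂ} (h : ∀ a, lf a ∉ hi E) : DD m E = 0 := by
  unfold DD
  refine Finset.sum_eq_zero fun a _ => ?_
  rw [ind_notMem (h a)]
  simp

theorem DD_cases (m : ℕ) {E : PSpace 2 ℂ} (hE : IsPrimeDivisor E) :
    (∃ a, E = HH a ∧ DD m E = cf m a) ∨ ((∀ a, lf a ∉ hi E) ∧ DD m E = 0) := by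
  by_cases h : ∃ a, lf a ∈ hi E
  · obtain ⟨a, ha⟩ := h
    left
    refine ⟨a, (mem_iff_eq_HH hE a).1 ha, ?_⟩
    rw [(mem_iff_eq_HH hE a).1 ha, DD_HH]
  · push Not at h
    exact Or.inr ⟨h, DD_zero m h⟩

theorem cf_nonneg {m : ℕ} (hm : 0 < m) (a : Fin 4) : 0 ≤ cf m a := by
  have h1 : (1 : ℝ) ≤ m := by exact_mod_cast hm
  have h2 : 1 / (m : ℝ) ≤ 1 := by
    rw [div_le_one (by linarith)]
    exact h1
  fin_cases a
  · change 0 ≤ 1 - 1 / (m : ℝ)
    linarith
  · change (0 : ℝ) ≤ 2 / 3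
    norm_num
  · change (0 : ℝ) ≤ 2 / 3
    norm_num
  · change (0 : ℝ) ≤ 2 / 3
    norm_num

theorem hypZ_eq {E : PSpace 2 ℂ} (hE : IsPrimeDivisor E) :
    hypZ 2 ℂ E = ind (lf 0) E + ind (lf 1) E + ind (lf 2) E := by
  rcases DD_cases 1 hE with ⟨a, rfl, -⟩ | ⟨h, -⟩
  · have h0 : ∀ b, ind (lf b) (HH a) = if a = b then 1 else 0 := by
      intro b
      split_ifs with h
      · exact ind_mem ((mem_HH a b).2 h)
      · exact ind_notMem (fun h' => h ((mem_HH a b).1 h'))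
    rw [h0, h0, h0]
    unfold hypZ
    fin_cases a
    · rw [if_pos ⟨0, (mem_HH 0 0).2 rfl⟩]
      rfl
    · rw [if_pos ⟨1, (mem_HH 1 1).2 rfl⟩]
      rfl
    · rw [if_pos ⟨2, (mem_HH 2 2).2 rfl⟩]
      rfl
    · rw [if_neg]
      · rfl
      · rintro ⟨i, hi⟩
        fin_cases i
        · exact absurd ((mem_HH 3 0).1 hi) (by decide)
        · exact absurd ((mem_HH 3 1).1 hi) (by decide)
        · exact absurd ((mem_HH 3 2).1 hi) (by decide)
  · rw [ind_notMem (h 0), ind_notMem (h 1), ind_notMem (h 2)]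
    unfold hypZ
    rw [if_neg]
    · rfl
    · rintro ⟨i, hi⟩
      fin_cases i
      · exact h 0 hi
      · exact h 1 hi
      · exact h 2 hi

/-- the canonical divisor -/
def KX (E : PSpace 2 ℂ) : ℤ := - hypZ 2 ℂ E

/-- coefficients of `K + Δ` -/
def rr (m : ℕ) : Fin 4 → ℝ := ![- (1 / m), - (1 / 3), - (1 / 3), 2 / 3]

theorem KD_eq (m : ℕ) {E : PSpace 2 ℂ} (hE : IsPrimeDivisor E) :
    (KX E : ℝ) + DD m E = ∑ a, rr m a * (ind (lf a) E : ℤ) := by
  unfold KX DD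
  rw [hypZ_eq hE]
  simp only [Fin.sum_univ_four, cf, rr]
  push_cast
  simp
  ring

theorem localEq (m : ℕ) (z : PSpace 2 ℂ) (i : Fin 3) (hiz : MvPolynomial.X i ∉ hi z) :
    IsLocalEquationR (fun E => (KX E : ℝ) + DD m E) z
      (fun a => wK (lf a) / wK (MvPolynomial.X i)) (rr m) := by
  refine ⟨fun a => div_ne_zero (wK_ne (lf_hom a) (lf_prime a).ne_zero)
    (wK_ne (X_hom i) (MvPolynomial.X_ne_zero i)), ?_⟩
  intro E hE hEz
  have hiE : MvPolynomial.X i ∉ hi E := fun h => hiz (specializes_iff.1 hEz _ h)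
  refine ⟨fun a => ind (lf a) E, ?_, KD_eq m hE⟩
  intro a
  have h := hasOrder_wK hiE (lf_hom a) (lf_prime a) hE
  rw [pow_one] at h
  exact h

theorem isRCartier_KD (m : ℕ) : IsRCartier (fun E => (KX E : ℝ) + DD m E) := by
  intro z
  obtain ⟨i, hi⟩ := exists_X_notMem 2 ℂ z
  exact ⟨4, _, _, localEq m z i hi⟩

theorem isNormalProjective : IsNormalProjective (PSpace.toSpec 2 ℂ) :=
  ⟨normal_stalk, 2, 𝟙 _, inferInstance, Category.id_comp _⟩

theorem hasDimension : HasDimension (PSpace.toSpec 2 ℂ) 2 := by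
  have h := trdeg_PSpace (n := 2) (k := ℂ)
  exact h

theorem isCanonical : IsCanonicalDivisor (PSpace.toSpec 2 ℂ) 2 (Om 2 ℂ) KX := by
  refine ⟨Om_ne_zero, ⟨fun l => wK (MvPolynomial.X l.succ : AA),
    ∏ l : Fin 2, (wK (MvPolynomial.X l.succ : AA))⁻¹, ?_⟩, isDivisorOfForm_Om⟩
  exact aux4_wedge_smul _ _ _

theorem isLC {m : ℕ} (hm : 0 < m) :
    IsLogCanonical (PSpace.toSpec 2 ℂ) 2 (Om 2 ℂ) KX (DD m) := by
  intro Y _ hY π _ φ hφ KY hKY F hF
  have hdvr := isDVR_of_proper hY π F hF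
  obtain ⟨i, hi⟩ := exists_X_notMem 2 ℂ (π F)
  set ι := φ.symm with hι
  have hne : ∀ a, wK (lf a) ≠ 0 := fun a => wK_ne (lf_hom a) (lf_prime a).ne_zero
  choose o ho using fun a => exists_hasOrder (ι := ι) (E := F) (hne a)
  have hXne : wK (MvPolynomial.X i : AA) ≠ 0 := wK_ne (X_hom i) (MvPolynomial.X_ne_zero i)
  obtain ⟨oi, hoi⟩ := exists_hasOrder (ι := ι) (E := F) hXne
  obtain ⟨t, ht⟩ := IsDiscreteValuationRing.exists_irreducible (Y.presheaf.stalk F)
  -- order of `X_0 / X_i`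
  have h0 : HasOrder ι F (wK (lf 0)) 0 := by
    have : wK (lf 0) = 1 := wK_X0
    rw [this]
    exact hasOrder_one
  have ho0 : o 0 = 0 := hasOrder_unique ht (ho 0) h0
  have hoi0 : oi ≤ 0 := by
    set a := psi (π F) i hi (lf 0) with ha
    have ha1 : toK a = wK (lf 0) / wK (MvPolynomial.X i) := by
      rw [ha, toK_psi hi (lf_hom 0), pow_one]
    have ha2 : ι (toK ((π.stalkMap F).hom a)) = toK a := by
      rw [← toK_stalkMap π φ hφ F a, hι, RingEquiv.symm_apply_apply]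
    have ha3 : (π.stalkMap F).hom a ≠ 0 := by
      intro h
      rw [h] at ha2
      have h2 : toK (0 : Y.presheaf.stalk F) = 0 := map_zero _
      rw [h2, map_zero, ha1] at ha2
      exact div_ne_zero (hne 0) hXne ha2.symm
    obtain ⟨ρ, hρ0, hρ⟩ := hasOrder_nonneg (ι := ι) ha3
    rw [ha2, ha1] at hρ
    have h4 := hasOrder_unique ht hρ (hasOrder_div h0 hoi)
    omega
  have h1 : HasOrder ι F x1 (o 1) := ho 1
  have h2 : HasOrder ι F x2 (o 2) := ho 2
  have h3 : HasOrder ι F (x1 - x2) (o 3) := by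
    have h := ho 3
    have e : wK (lf 3) = x1 - x2 := map_sub _ _ _
    rw [e] at h
    exact h
  obtain ⟨i1, i2, i3⟩ := ineqs hKY hF h1 h2 h3
  refine ⟨4, _, _, fun a => o a - oi, localEq m (π F) i hi, ?_, ?_⟩
  · intro a
    exact hasOrder_div (ho a) hoi
  · simp only [Fin.sum_univ_four, rr, ho0]
    have hm' : (0 : ℝ) < m := by exact_mod_cast hm
    have e1 : (0 : ℝ) ≤ KY F + 1 := by exact_mod_cast i1
    have e2 : (o 3 : ℝ) - o 1 ≤ KY F + 1 := by exact_mod_cast i2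
    have e3 : (o 3 : ℝ) - o 2 ≤ KY F + 1 := by exact_mod_cast i3
    have e4 : (oi : ℝ) ≤ 0 := by exact_mod_cast hoi0
    have e5 : (1 / (m : ℝ)) * oi ≤ 0 := mul_nonpos_of_nonneg_of_nonpos (by positivity) e4
    push_cast
    linarith

/-! ### ampleness -/

theorem isAmple_H0 : IsAmple (fun E : PSpace 2 ℂ => ind (lf 0) E) := by
  intro x
  obtain ⟨j, hj⟩ := exists_X_notMem 2 ℂ x
  refine ⟨1, wK (MvPolynomial.X j) / wK (lf 0), Proj.basicOpen (grading 2 ℂ) (MvPolynomial.X j),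
    one_pos, ?_, hj, ?_⟩
  · exact Proj.isAffineOpen_basicOpen (grading 2 ℂ) (MvPolynomial.X j) (X_hom j) one_pos
  · intro z
    obtain ⟨i, hiz⟩ := exists_X_notMem 2 ℂ z
    have hXj : wK (MvPolynomial.X j : AA) ≠ 0 := wK_ne (X_hom j) (MvPolynomial.X_ne_zero j)
    have hXi : wK (MvPolynomial.X i : AA) ≠ 0 := wK_ne (X_hom i) (MvPolynomial.X_ne_zero i)
    have hX0 : wK (lf 0) ≠ 0 := wK_ne (lf_hom 0) (lf_prime 0).ne_zero
    refine ⟨wK (lf 0) / wK (MvPolynomial.X i), psi z i hiz (MvPolynomial.X j),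
      ⟨div_ne_zero hX0 hXi, ?_⟩, ?_, ?_⟩
    · intro E hE hEz
      have hiE : MvPolynomial.X i ∉ hi E := fun h => hiz (specializes_iff.1 hEz _ h)
      have h := hasOrder_wK hiE (lf_hom 0) (lf_prime 0) hE
      rw [pow_one] at h
      simpa using h
    · rw [toK_psi hiz (X_hom j), pow_one]
      field_simp
    · rw [isUnit_psi z i hiz 1 _ (X_hom j)]
      rfl

theorem isAmpleR_neg {m : ℕ} (hm : 0 < m) : IsAmpleR (fun E => -((KX E : ℝ) + DD m E)) := by
  have hm' : (0 : ℝ) < m := by exact_mod_cast hm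
  refine ⟨0, fun _ => fun E => ind (lf 0) E, fun _ => 1 / m, fun _ => ⟨isAmple_H0, by positivity⟩,
    2, ![wK (lf 1) / wK (lf 3), wK (lf 2) / wK (lf 3)], ![1 / 3, 1 / 3], ?_, ?_⟩
  · have hne : ∀ a, wK (lf a) ≠ 0 := fun a => wK_ne (lf_hom a) (lf_prime a).ne_zero
    intro j
    fin_cases j
    · exact div_ne_zero (hne 1) (hne 3)
    · exact div_ne_zero (hne 2) (hne 3)
  · intro E hE
    refine ⟨![ind (lf 1) E - ind (lf 3) E, ind (lf 2) E - ind (lf 3) E], ?_, ?_⟩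
    · intro j
      fin_cases j
      · exact hasOrder_wK_div (lf_hom 1) (lf_prime 1) (lf_hom 3) (lf_prime 3) hE
      · exact hasOrder_wK_div (lf_hom 2) (lf_prime 2) (lf_hom 3) (lf_prime 3) hE
    · change -((KX E : ℝ) + DD m E) - ∑ j : Fin 1, (1 / (m : ℝ)) * ((ind (lf 0) E : ℤ) : ℝ) = _
      rw [KD_eq m hE]
      simp only [Fin.sum_univ_four, Fin.sum_univ_two, Fin.sum_univ_one, rr]
      simp only [Matrix.cons_val_zero, Matrix.cons_val_one, Matrix.cons_val]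
      push_cast
      ring

/-- `(ℙ², Δ)` is a log canonical Fano pair. -/
theorem isLCFanoPair {m : ℕ} (hm : 0 < m) : IsLCFanoPair (PSpace.toSpec 2 ℂ) 2 (DD m) := by
  refine ⟨isNormalProjective, hasDimension, ?_, ?_, Om 2 ℂ, KX, isCanonical, isRCartier_KD m,
    isLC hm, isAmpleR_neg hm⟩
  · refine (Set.finite_range HH).subset ?_
    rintro E ⟨hE, hne⟩
    rcases DD_cases m hE with ⟨a, rfl, -⟩ | ⟨-, h⟩
    · exact ⟨a, rfl⟩
    · exact absurd h hne
  · intro E hE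
    rcases DD_cases m hE with ⟨a, -, h⟩ | ⟨-, h⟩
    · rw [h]
      exact cf_nonneg hm a
    · rw [h]

end

end Pool.Agent.TH192.PP
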