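import Mathlib

/-!
# Elementary lemmas on homotopies of paths and fundamental groups
-/

open unitInterval Topology CategoryTheory

namespace Pool.Agent.TH192

variable {Y Z : Type*} [TopologicalSpace Y] [TopologicalSpace Z]

theorem homotopic_of_fun {x y : Y} (γ γ' : Path x y)
    (F : I × I → Y) (hF : Continuous F) (h0 : ∀ t, F (0, t) = γ t) (h1 : ∀ t, F (1, t) = γ' t)
    (hx : ∀ s, F (s, 0) = x) (hy : ∀ s, F (s, 1) = y) : γ.Homotopic γ' := by
  refine ⟨{ toFun := F, continuous_toFun := hF, map_zero_left := h0, map_one_left := h1,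
            prop' := ?_ }⟩
  rintro s t (rfl | ht)
  · simp [hx]
  · rw [Set.mem_singleton_iff] at ht
    subst ht
    simp [hy]

theorem homotopic_of_lift {E : Type*} [NormedAddCommGroup E] [NormedSpace ℝ E]
    (f : E → Y) (hf : Continuous f) {x y : Y} (γ γ' : Path x y) (u v : I → E)
    (hu : Continuous u) (hv : Continuous v) (hγ : ∀ t, γ t = f (u t))
    (hγ' : ∀ t, γ' t = f (v t)) (h0 : u 0 = v 0) (h1 : u 1 = v 1) : γ.Homotopic γ' := by
  refine homotopic_of_fun γ γ' (fun p => f ((1 - (p.1 : ℝ)) • u p.2 + (p.1 : ℝ) • v p.2))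
    (by fun_prop) ?_ ?_ ?_ ?_
  · intro t
    simp [hγ]
  · intro t
    simp [hγ']
  · intro s
    have h2 : x = f (u 0) := by rw [← hγ, γ.source]
    simp only [← h0, ← add_smul]
    rw [h2]
    congr 1
    simp
  · intro s
    have h2 : y = f (u 1) := by rw [← hγ, γ.target]
    simp only [← h1, ← add_smul]
    rw [h2]
    congr 1
    simp

theorem homotopic_square {a b c d : Y} (γ0 : Path a b) (γ1 : Path c d) (σ0 : Path a c)
    (σ1 : Path b d) (F : I × I → Y) (hF : Continuous F) (h0 : ∀ t, F (0, t) = γ0 t)
    (h1 : ∀ t, F (1, t) = γ1 t) (hs0 : ∀ s, F (s, 0) = σ0 s) (hs1 : ∀ s, F (s, 1) = σ1 s) :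
    (γ0.trans σ1).Homotopic (σ0.trans γ1) := by
  have h := Path.Homotopic.map_trans_evalAt
    (F := (⟨⟨F, hF⟩, h0, h1⟩ : ContinuousMap.Homotopy γ0.toContinuousMap γ1.toContinuousMap))
    (Path.id)
  have e1 : (0 : I) = (0 : I) := rfl
  convert h.pathCast (x₂ := a) (x₃ := d) (by simp) (by simp) using 1
  · ext t
    simp only [Path.trans_apply, Path.cast_coe, Path.map_coe, Function.comp_apply]
    split_ifs
    · rfl
    · exact (hs1 _).symm
  · ext t
    simp only [Path.trans_apply, Path.cast_coe, Path.map_coe, Function.comp_apply]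
    split_ifs
    · exact (hs0 _).symm
    · rfl

/-- The class of a loop in the fundamental group. -/
def loopClass {x : Y} (γ : Path x x) : FundamentalGroup Y x := Path.Homotopic.Quotient.mk γ

theorem loopClass_eq {x : Y} {γ γ' : Path x x} (h : γ.Homotopic γ') :
    loopClass γ = loopClass γ' := Path.Homotopic.Quotient.eq.2 h

theorem loopClass_trans {x : Y} (γ γ' : Path x x) :
    loopClass (γ.trans γ') = loopClass γ' * loopClass γ := rfl

theorem loopClass_symm {x : Y} (γ : Path x x) :
    loopClass γ.symm = (loopClass γ)⁻¹ := rfl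

theorem loopClass_refl {x : Y} : loopClass (Path.refl x) = 1 := rfl

theorem map_loopClass (f : C(Y, Z)) {x : Y} (γ : Path x x) :
    FundamentalGroup.map f x (loopClass γ) = loopClass (γ.map f.continuous) := rfl

/-- Conjugation with a homotopy class of paths. -/
noncomputable def conjHom {x y : Y} (δ : Path.Homotopic.Quotient x y) :
    FundamentalGroup Y y ≃* FundamentalGroup Y x :=
  ((Groupoid.isoEquivHom (FundamentalGroupoid.mk x) (FundamentalGroupoid.mk y)).symm δ).symm.conj

theorem conjHom_apply {x y : Y} (δ : Path.Homotopic.Quotient x y) (g : FundamentalGroup Y y) :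
    conjHom δ g = δ.trans (Path.Homotopic.Quotient.trans g δ.symm) := rfl

theorem symm_trans_eq {x y z : Y} (δ : Path.Homotopic.Quotient x y)
    (ε : Path.Homotopic.Quotient y z) : (δ.trans ε).symm = ε.symm.trans δ.symm := by
  induction δ using Path.Homotopic.Quotient.ind with | mk p =>
  induction ε using Path.Homotopic.Quotient.ind with | mk q =>
  rw [← Path.Homotopic.Quotient.mk_trans, ← Path.Homotopic.Quotient.mk_symm, Path.trans_symm]
  rfl

theorem map_trans_eq (f : C(Y, Z)) {x y z : Y} (δ : Path.Homotopic.Quotient x y)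
    (ε : Path.Homotopic.Quotient y z) : (δ.trans ε).map f = (δ.map f).trans (ε.map f) := by
  induction δ using Path.Homotopic.Quotient.ind with | mk p =>
  induction ε using Path.Homotopic.Quotient.ind with | mk q =>
  rw [← Path.Homotopic.Quotient.mk_trans, ← Path.Homotopic.Quotient.mk_map,
    ← Path.Homotopic.Quotient.mk_map, ← Path.Homotopic.Quotient.mk_map, Path.map_trans]
  rfl

theorem map_symm_eq (f : C(Y, Z)) {x y : Y} (δ : Path.Homotopic.Quotient x y) :
    δ.symm.map f = (δ.map f).symm := by
  induction δ using Path.Homotopic.Quotient.ind with | mk p =>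
  rfl

theorem conjHom_trans {x y z : Y} (δ : Path.Homotopic.Quotient x y)
    (ε : Path.Homotopic.Quotient y z) (g : FundamentalGroup Y z) :
    conjHom (δ.trans ε) g = conjHom δ (conjHom ε g) := by
  simp only [conjHom_apply, symm_trans_eq, Path.Homotopic.Quotient.trans_assoc]

theorem map_conjHom (f : C(Y, Z)) {x y : Y} (δ : Path.Homotopic.Quotient x y)
    (g : FundamentalGroup Y y) :
    FundamentalGroup.map f x (conjHom δ g) =
      conjHom (δ.map f) (FundamentalGroup.map f y g) := by
  change Path.Homotopic.Quotient.map (δ.trans (Path.Homotopic.Quotient.trans g δ.symm)) f =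
    (δ.map f).trans (Path.Homotopic.Quotient.trans (Path.Homotopic.Quotient.map g f)
      (δ.map f).symm)
  rw [map_trans_eq, map_trans_eq, map_symm_eq]

theorem conjHom_refl {x : Y} (g : FundamentalGroup Y x) :
    conjHom (Path.Homotopic.Quotient.refl x) g = g := by
  rw [conjHom_apply]
  have h : (Path.Homotopic.Quotient.refl x).symm = Path.Homotopic.Quotient.refl x := by
    rw [← Path.Homotopic.Quotient.mk_refl, ← Path.Homotopic.Quotient.mk_symm, Path.refl_symm]
  rw [h, Path.Homotopic.Quotient.refl_trans, Path.Homotopic.Quotient.trans_refl]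

theorem conjHom_symm_self {x y : Y} (δ : Path.Homotopic.Quotient x y)
    (g : FundamentalGroup Y y) : conjHom δ.symm (conjHom δ g) = g := by
  rw [← conjHom_trans, Path.Homotopic.Quotient.symm_trans, conjHom_refl]

/-- `conjHom` for a loop is conjugation in the fundamental group. -/
theorem conjHom_loop {x : Y} (δ g : FundamentalGroup Y x) :
    conjHom (x := x) (y := x) δ g = δ⁻¹ * g * δ := by
  rw [conjHom_apply]
  change Path.Homotopic.Quotient.trans δ (Path.Homotopic.Quotient.trans g
    (Path.Homotopic.Quotient.symm δ)) = Path.Homotopic.Quotient.trans δ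
      (Path.Homotopic.Quotient.trans g (Path.Homotopic.Quotient.symm δ))
  rfl

/-- `γ0 · σ1 = σ0 · γ1` for loops `γ0`, `γ1` means that `γ0` is the conjugate of `γ1`. -/
theorem eq_conjHom_of_trans {a c : Y} (γ0 : Path a a) (γ1 : Path c c) (s : Path a c)
    (h : (γ0.trans s).Homotopic (s.trans γ1)) :
    loopClass γ0 = conjHom (Path.Homotopic.Quotient.mk s) (loopClass γ1) := by
  rw [conjHom_apply]
  have h1 : (Path.Homotopic.Quotient.mk γ0).trans (Path.Homotopic.Quotient.mk s) =
      (Path.Homotopic.Quotient.mk s).trans (Path.Homotopic.Quotient.mk γ1) := by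
    rw [← Path.Homotopic.Quotient.mk_trans, ← Path.Homotopic.Quotient.mk_trans]
    exact Path.Homotopic.Quotient.eq.2 h
  unfold loopClass
  rw [← Path.Homotopic.Quotient.trans_assoc, ← h1, Path.Homotopic.Quotient.trans_assoc,
    Path.Homotopic.Quotient.trans_symm, Path.Homotopic.Quotient.trans_refl]

/-! ### Loops from periodic functions -/

/-- the loop `t ↦ f (n t)` for a function `f` with period `1` -/
noncomputable def rp (f : C(ℝ, Y)) (hf : ∀ x, f (x + 1) = f x) (n : ℕ) : Path (f 0) (f 0) where
  toFun t := f (n * t)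
  continuous_toFun := by fun_prop
  source' := by simp
  target' := by
    have h : ∀ n : ℕ, f n = f 0 := by
      intro n
      induction n with
      | zero => simp
      | succ n ih => rw [Nat.cast_succ, hf, ih]
    simpa using h n

theorem rp_apply (f : C(ℝ, Y)) (hf : ∀ x, f (x + 1) = f x) (n : ℕ) (t : I) :
    rp f hf n t = f (n * t) := rfl

theorem rp_add_nat (f : C(ℝ, Y)) (hf : ∀ x, f (x + 1) = f x) (n : ℕ) (x : ℝ) :
    f (x + n) = f x := by
  induction n with
  | zero => simp
  | succ n ih => rw [Nat.cast_succ, ← add_assoc, hf, ih]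

theorem rp_succ (f : C(ℝ, Y)) (hf : ∀ x, f (x + 1) = f x) (n : ℕ) :
    (rp f hf (n + 1)).Homotopic ((rp f hf 1).trans (rp f hf n)) := by
  refine homotopic_of_lift (E := ℝ) f f.continuous _ _ (fun t => (n + 1) * t)
    (fun t => if (t : ℝ) ≤ 1 / 2 then 2 * t else 1 + n * (2 * t - 1)) (by fun_prop) ?_ ?_ ?_ ?_ ?_
  · refine Continuous.if_le (by fun_prop) (by fun_prop) (by fun_prop) (by fun_prop) ?_
    intro x hx
    rw [hx]
    ring
  · intro t
    simp [rp_apply]
  · intro t
    rw [Path.trans_apply]
    split_ifs with h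
    · simp [rp_apply]
    · rw [rp_apply]
      have := hf (n * (2 * t - 1))
      rw [add_comm] at this
      exact this.symm
  · simp
  · norm_num
    ring

/-- the class of `t ↦ f (n t)` is the `n`-th power of the class of `t ↦ f t` -/
theorem rp_pow (f : C(ℝ, Y)) (hf : ∀ x, f (x + 1) = f x) (n : ℕ) :
    loopClass (rp f hf n) = loopClass (rp f hf 1) ^ n := by
  induction n with
  | zero =>
    rw [pow_zero, ← loopClass_refl]
    refine loopClass_eq ?_
    refine homotopic_of_lift (E := ℝ) f f.continuous _ _ (fun t => 0) (fun t => 0)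
      continuous_const continuous_const ?_ ?_ rfl rfl
    · intro t
      simp [rp_apply]
    · intro t
      simp
  | succ n ih =>
    rw [pow_succ, ← ih, ← loopClass_trans]
    exact loopClass_eq (rp_succ f hf n)

end Pool.Agent.TH192
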