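import Mathlib
import Pool.Agent.TH192.Homot

/-!
# The complement of three concurrent lines
-/

open unitInterval Topology CategoryTheory

namespace Pool.Agent.TH192

/-- `e t = exp (2 π i t)` -/
noncomputable def e (t : ℝ) : ℂ := Complex.exp (2 * Real.pi * t * Complex.I)

theorem e_continuous : Continuous e := by unfold e; fun_prop

@[simp] theorem e_zero : e 0 = 1 := by simp [e]

theorem e_add (s t : ℝ) : e (s + t) = e s * e t := by
  unfold e
  rw [← Complex.exp_add]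
  congr 1
  push_cast
  ring

@[simp] theorem e_one : e 1 = 1 := by
  unfold e
  rw [Complex.ofReal_one, mul_one, Complex.exp_two_pi_mul_I]

theorem e_ne (t : ℝ) : e t ≠ 0 := Complex.exp_ne_zero _

theorem e_per (t : ℝ) : e (t + 1) = e t := by rw [e_add, e_one, mul_one]

theorem e_nat_mul (n : ℕ) (t : ℝ) : e (n * t) = e t ^ n := by
  unfold e
  rw [← Complex.exp_nat_mul]
  congr 1
  push_cast
  ring

theorem e_three (t : ℝ) : e (3 * t) = e t ^ 3 := by
  have := e_nat_mul 3 t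
  simpa using this

theorem norm_e (t : ℝ) : ‖e t‖ = 1 := by
  unfold e
  have : (2 * (Real.pi : ℂ) * t * Complex.I) = ((2 * Real.pi * t : ℝ) : ℂ) * Complex.I := by
    push_cast; ring
  rw [this, Complex.norm_exp_ofReal_mul_I]

theorem e_eq_one_iff (t : ℝ) : e t = 1 ↔ ∃ n : ℤ, t = n := by
  unfold e
  rw [Complex.exp_eq_one_iff]
  constructor
  · rintro ⟨n, hn⟩
    refine ⟨n, ?_⟩
    have hpi : (2 * (Real.pi : ℂ) * Complex.I) ≠ 0 := Complex.two_pi_I_ne_zero
    have h2 : (t : ℂ) * (2 * Real.pi * Complex.I) = n * (2 * Real.pi * Complex.I) := by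
      rw [← hn]; ring
    have h3 := mul_right_cancel₀ hpi h2
    exact_mod_cast h3
  · rintro ⟨n, rfl⟩
    exact ⟨n, by push_cast; ring⟩

/-- `q (X, Y) = X Y (X - Y)` -/
def q (p : ℂ × ℂ) : ℂ := p.1 * p.2 * (p.1 - p.2)

theorem q_continuous : Continuous q := by unfold q; fun_prop

/-- The complement of the three lines `X = 0`, `Y = 0`, `X = Y`. -/
def W : Set (ℂ × ℂ) := {p | q p ≠ 0}

theorem mem_W {p : ℂ × ℂ} : p ∈ W ↔ q p ≠ 0 := Iff.rfl

theorem mem_W' {p : ℂ × ℂ} : p ∈ W ↔ p.1 ≠ 0 ∧ p.2 ≠ 0 ∧ p.1 ≠ p.2 := by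
  rw [mem_W]
  unfold q
  rw [mul_ne_zero_iff, mul_ne_zero_iff, sub_ne_zero, and_assoc]

/-- `{x ≠ 0, y ≠ 0, x³ ≠ y³}` -/
def V : Set (ℂ × ℂ) := {p | p.1 ≠ 0 ∧ p.2 ≠ 0 ∧ p.1 ^ 3 ≠ p.2 ^ 3}

/-- The map `(x, y) ↦ (x³, y³)` -/
def P : C(V, W) where
  toFun v := ⟨(v.1.1 ^ 3, v.1.2 ^ 3), mem_W'.2 ⟨pow_ne_zero _ v.2.1, pow_ne_zero _ v.2.2.1,
    v.2.2.2⟩⟩
  continuous_toFun := by fun_prop

theorem P_coe (v : V) : (P v : ℂ × ℂ) = (v.1.1 ^ 3, v.1.2 ^ 3) := rfl

/-- `ω = exp (2 π i / 3)` -/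
noncomputable def om : ℂ := e (1 / 3)

theorem om_cube : om ^ 3 = 1 := by
  unfold om
  rw [← e_three]
  norm_num

theorem om_ne : om ≠ 0 := e_ne _

theorem om_ne_one : om ≠ 1 := by
  intro h
  obtain ⟨n, hn⟩ := (e_eq_one_iff _).1 h
  have h3 : (1 : ℝ) = 3 * n := by linarith
  have h4 : (1 : ℤ) = 3 * n := by exact_mod_cast h3
  omega

theorem om_quad : om ^ 2 + om + 1 = 0 := by
  have h : (om - 1) * (om ^ 2 + om + 1) = 0 := by
    have := om_cube
    linear_combination this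
  rcases mul_eq_zero.1 h with h | h
  · exact absurd (sub_eq_zero.1 h) om_ne_one
  · exact h

/-- The linear map `(x, y) ↦ (-ω (x - y), ω² x - y)` -/
noncomputable def Lam (p : ℂ × ℂ) : ℂ × ℂ := (-om * (p.1 - p.2), om ^ 2 * p.1 - p.2)

theorem Lam_continuous : Continuous Lam := by unfold Lam; fun_prop

theorem q_Lam (p : ℂ × ℂ) : q (Lam p) = p.2 ^ 3 - p.1 ^ 3 := by
  unfold q Lam
  obtain ⟨x, y⟩ := p
  simp only
  have h1 := om_quad
  have h2 := om_cube
  have e1 : -om * (x - y) - (om ^ 2 * x - y) = x - om ^ 2 * y := by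
    linear_combination (-x + y) * h1
  rw [e1]
  have e2 : om ^ 2 * x - y = om ^ 2 * (x - om * y) := by
    linear_combination y * h2
  rw [e2]
  have e3 : (x - om * y) * (x - om ^ 2 * y) = x ^ 2 + x * y + y ^ 2 := by
    linear_combination (-x * y) * h1 + y ^ 2 * h2
  have e4 : -om * (x - y) * (om ^ 2 * (x - om * y)) * (x - om ^ 2 * y) =
      -om ^ 3 * (x - y) * ((x - om * y) * (x - om ^ 2 * y)) := by ring
  rw [e4, e3, h2]
  ring

theorem Lam_ne {p : ℂ × ℂ} (hp : p ≠ 0) : Lam p ≠ 0 := by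
  intro h
  apply hp
  unfold Lam at h
  obtain ⟨x, y⟩ := p
  simp only [Prod.mk_eq_zero] at h
  have h1 : x - y = 0 := by
    rcases mul_eq_zero.1 h.1 with h3 | h3
    · exact absurd (neg_eq_zero.1 h3) om_ne
    · exact h3
  have h2 : (om ^ 2 - 1) * x = 0 := by linear_combination h.2 - h1
  have h3 : x = 0 := by
    rcases mul_eq_zero.1 h2 with h4 | h4
    · exfalso
      have h5 := om_quad
      have h6 : om = -2 := by linear_combination h5 - h4
      have h7 := om_cube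
      rw [h6] at h7
      norm_num at h7
    · exact h4
  have h4 : y = 0 := by linear_combination h3 - h1
  rw [h3, h4]
  rfl

/-- `Lam` as a map `V → W` -/
noncomputable def L : C(V, W) where
  toFun v := ⟨Lam v.1, by
    rw [mem_W, q_Lam, sub_ne_zero]
    exact v.2.2.2.symm⟩
  continuous_toFun := by
    have := Lam_continuous
    fun_prop

end Pool.Agent.TH192
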