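import Mathlib
import Pool.Agent.TH192.Lines

/-!
# Meridian discs in the complement of three concurrent lines
-/

open unitInterval Topology CategoryTheory

namespace Pool.Agent.TH192

noncomputable section

/-- (topological) discs meeting the union of the three lines transversally in one point, away from
the origin -/
def IsDisc (φ : ℂ → ℂ × ℂ) : Prop :=
  Continuous φ ∧ (∀ z, φ z ≠ 0) ∧ ∃ h : ℂ → ℂ, Continuous h ∧ (∀ z, h z ≠ 0) ∧
    ∀ z, q (φ z) = z * h z

theorem IsDisc.mem {φ : ℂ → ℂ × ℂ} (hφ : IsDisc φ) {z : ℂ} (hz : z ≠ 0) : φ z ∈ W := by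
  obtain ⟨-, -, h, -, h1, h2⟩ := hφ
  rw [mem_W, h2]
  exact mul_ne_zero hz (h1 z)

/-- the boundary loop of a disc, as a periodic function -/
noncomputable def bdry (φ : ℂ → ℂ × ℂ) (hφ : IsDisc φ) : C(ℝ, W) where
  toFun t := ⟨φ (e t), hφ.mem (e_ne t)⟩
  continuous_toFun := by
    have h1 := hφ.1
    have h2 := e_continuous
    fun_prop

theorem bdry_per (φ : ℂ → ℂ × ℂ) (hφ : IsDisc φ) (t : ℝ) :
    bdry φ hφ (t + 1) = bdry φ hφ t := by
  unfold bdry
  simp only [ContinuousMap.coe_mk, e_per]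

/-- conjugates of the cubes of the boundary loops -/
def RelSet (w : W) : Set (FundamentalGroup W w) :=
  {g | ∃ (φ : ℂ → ℂ × ℂ) (hφ : IsDisc φ) (δ : Path.Homotopic.Quotient w (bdry φ hφ 0)),
    g = conjHom δ (loopClass (rp (bdry φ hφ) (bdry_per φ hφ) 1) ^ 3)}

/-- the subgroup generated by them -/
def R (w : W) : Subgroup (FundamentalGroup W w) := Subgroup.closure (RelSet w)

theorem R_conj {w y : W} (δ : Path.Homotopic.Quotient w y) {g : FundamentalGroup W y}
    (hg : g ∈ R y) : conjHom δ g ∈ R w := by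
  have h : R y ≤ (R w).comap (conjHom δ).toMonoidHom := by
    unfold R
    rw [Subgroup.closure_le]
    rintro g ⟨φ, hφ, ε, rfl⟩
    refine Subgroup.subset_closure ⟨φ, hφ, δ.trans ε, ?_⟩
    rw [conjHom_trans]
    rfl
  exact h hg

/-- the cubes of boundary loops -/
theorem cube_mem_R (φ : ℂ → ℂ × ℂ) (hφ : IsDisc φ) (f : C(ℝ, W)) (hf : ∀ t, f (t + 1) = f t)
    (h : ∀ t, (f t : ℂ × ℂ) = φ (e t)) : loopClass (rp f hf 1) ^ 3 ∈ R (f 0) := by
  obtain rfl : f = bdry φ hφ := by
    ext1 t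
    exact Subtype.ext (h t)
  refine Subgroup.subset_closure ⟨φ, hφ, Path.Homotopic.Quotient.refl _, ?_⟩
  rw [conjHom_refl]

theorem mapOfEq_rfl {Y Z : Type*} [TopologicalSpace Y] [TopologicalSpace Z] (f : C(Y, Z)) {x : Y}
    (g : FundamentalGroup Y x) :
    FundamentalGroup.mapOfEq f (rfl : f x = f x) g = FundamentalGroup.map f x g := by
  rw [FundamentalGroup.mapOfEq_apply]
  exact Path.Homotopic.Quotient.cast_rfl_rfl _

theorem mapOfEq_rp {Y Z : Type*} [TopologicalSpace Y] [TopologicalSpace Z] (p : C(Y, Z))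
    (f' : C(ℝ, Y)) (hf' : ∀ x, f' (x + 1) = f' x) (f : C(ℝ, Z)) (hf : ∀ x, f (x + 1) = f x)
    (n m : ℕ) (h : ∀ t : ℝ, p (f' (n * t)) = f (m * t)) (h0 : p (f' 0) = f 0) :
    FundamentalGroup.mapOfEq p h0 (loopClass (rp f' hf' n)) = loopClass (rp f hf m) := by
  rw [FundamentalGroup.mapOfEq_apply]
  unfold loopClass
  rw [← Path.Homotopic.Quotient.mk_map, ← Path.Homotopic.Quotient.mk_cast]
  congr 1
  ext t
  exact h t

/-- classes whose lifts to `V` are closed and lie in `R` -/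
def K (w : W) : Subgroup (FundamentalGroup W w) where
  carrier := {g | ∀ (v : V) (hv : P v = w), ∃ g' : FundamentalGroup V v,
    FundamentalGroup.mapOfEq P hv g' = g ∧ FundamentalGroup.map L v g' ∈ R (L v)}
  one_mem' := fun v hv => ⟨1, map_one _, by rw [map_one]; exact Subgroup.one_mem _⟩
  mul_mem' := by
    intro a b ha hb v hv
    obtain ⟨a', ha1, ha2⟩ := ha v hv
    obtain ⟨b', hb1, hb2⟩ := hb v hv
    exact ⟨a' * b', by rw [map_mul, ha1, hb1], by rw [map_mul]; exact Subgroup.mul_mem _ ha2 hb2⟩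
  inv_mem' := by
    intro a ha v hv
    obtain ⟨a', ha1, ha2⟩ := ha v hv
    exact ⟨a'⁻¹, by rw [map_inv, ha1], by rw [map_inv]; exact Subgroup.inv_mem _ ha2⟩

theorem mem_K {w : W} {g : FundamentalGroup W w} : g ∈ K w ↔ ∀ (v : V) (hv : P v = w),
    ∃ g' : FundamentalGroup V v, FundamentalGroup.mapOfEq P hv g' = g ∧
      FundamentalGroup.map L v g' ∈ R (L v) := Iff.rfl

theorem cov_units : IsCoveringMap (fun x : ℂˣ × ℂˣ => (x.1 ^ 3, x.2 ^ 3)) := by
  have h1 : IsOpenQuotientMap (fun x : ℂˣ => x ^ 3) :=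
    (Complex.isQuotientCoveringMap_npow 3).isOpenQuotientMap
  have h2 : IsQuotientMap (powMonoidHom 3 : ℂˣ × ℂˣ →* ℂˣ × ℂˣ) := by
    have := (h1.prodMap h1).isQuotientMap
    exact this
  have h3 : IsDiscrete ((powMonoidHom 3 : ℂˣ × ℂˣ →* ℂˣ × ℂˣ).ker : Set (ℂˣ × ℂˣ)) := by
    refine Set.Finite.isDiscrete ?_
    have hfin : (rootsOfUnity 3 ℂ : Set ℂˣ).Finite :=
      Set.finite_coe_iff.1 (inferInstanceAs (Finite (rootsOfUnity 3 ℂ)))
    refine (hfin.prod hfin).subset ?_
    intro x hx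
    have hx' : x ^ 3 = 1 := hx
    have hx1 := congrArg Prod.fst hx'
    have hx2 := congrArg Prod.snd hx'
    exact ⟨hx1, hx2⟩
  exact (Topology.IsQuotientMap.isQuotientCoveringMap_of_isDiscrete_ker_monoidHom
    h2 h3).isCoveringMap

theorem continuous_mk0 {Z : Type*} [TopologicalSpace Z] {f : Z → ℂ} (hf : Continuous f)
    (h0 : ∀ z, f z ≠ 0) : Continuous fun z => Units.mk0 (f z) (h0 z) := by
  rw [Units.continuous_iff]
  refine ⟨hf, ?_⟩
  have : (fun x => ((Units.mk0 (f x) (h0 x))⁻¹ : ℂˣ).val) = fun x => (f x)⁻¹ := by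
    funext x
    simp
  rw [this]
  exact hf.inv₀ h0

/-- `V` inside the torus -/
def hV : V ≃ₜ ((fun x : ℂˣ × ℂˣ => (x.1 ^ 3, x.2 ^ 3)) ⁻¹' {p : ℂˣ × ℂˣ | p.1 ≠ p.2}) where
  toFun v := ⟨(Units.mk0 v.1.1 v.2.1, Units.mk0 v.1.2 v.2.2.1), by
    intro h
    apply v.2.2.2
    have := congrArg Units.val h
    simpa using this⟩
  invFun x := ⟨((x.1.1 : ℂ), (x.1.2 : ℂ)), x.1.1.ne_zero, x.1.2.ne_zero, by
    intro h
    apply x.2
    ext
    simpa using h⟩
  left_inv v := by simp
  right_inv x := by simp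
  continuous_toFun := by
    refine Continuous.subtype_mk (Continuous.prodMk ?_ ?_) _
    · exact continuous_mk0 (by fun_prop) _
    · exact continuous_mk0 (by fun_prop) _
  continuous_invFun := by
    have h0 := Units.continuous_val (M := ℂ)
    refine Continuous.subtype_mk (Continuous.prodMk ?_ ?_) _
    · exact h0.comp (continuous_fst.comp continuous_subtype_val)
    · exact h0.comp (continuous_snd.comp continuous_subtype_val)

/-- `W` inside the torus -/
def hW : {p : ℂˣ × ℂˣ | p.1 ≠ p.2} ≃ₜ W where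
  toFun x := ⟨((x.1.1 : ℂ), (x.1.2 : ℂ)), mem_W'.2 ⟨x.1.1.ne_zero, x.1.2.ne_zero, by
    intro h
    apply x.2
    ext
    simpa using h⟩⟩
  invFun v := ⟨(Units.mk0 v.1.1 (mem_W'.1 v.2).1, Units.mk0 v.1.2 (mem_W'.1 v.2).2.1), by
    intro h
    apply (mem_W'.1 v.2).2.2
    have := congrArg Units.val h
    simpa using this⟩
  left_inv v := by simp
  right_inv x := by simp
  continuous_toFun := by
    have h0 := Units.continuous_val (M := ℂ)
    refine Continuous.subtype_mk (Continuous.prodMk ?_ ?_) _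
    · exact h0.comp (continuous_fst.comp continuous_subtype_val)
    · exact h0.comp (continuous_snd.comp continuous_subtype_val)
  continuous_invFun := by
    refine Continuous.subtype_mk (Continuous.prodMk ?_ ?_) _
    · exact continuous_mk0 (by fun_prop) _
    · exact continuous_mk0 (by fun_prop) _

/-- `P` is a covering map. -/
theorem P_cov : IsCoveringMap P := by
  have h := ((cov_units.restrictPreimage {p : ℂˣ × ℂˣ | p.1 ≠ p.2}).comp_homeomorph
    hV).homeomorph_comp hW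
  convert h using 1
  funext v
  ext <;> rfl

theorem K_conj {w y : W} (δ : Path.Homotopic.Quotient w y) {g : FundamentalGroup W y}
    (hg : g ∈ K y) : conjHom δ g ∈ K w := by
  induction δ using Path.Homotopic.Quotient.ind with | mk δ =>
  rw [mem_K]
  intro v hv
  obtain ⟨Γ, h1, h2⟩ := P_cov.exists_path_lifts δ.toContinuousMap v (by simp [hv])
  have hv' : P (Γ 1) = y := by
    have := congrFun h1 1
    simpa using this
  subst hv
  subst hv'
  obtain ⟨g', hg1, hg2⟩ := (mem_K.1 hg) (Γ 1) rfl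
  rw [mapOfEq_rfl] at hg1
  let Γ' : Path v (Γ 1) := ⟨Γ, h2, rfl⟩
  have h3 : Γ'.map P.continuous = δ := by
    ext1
    funext t
    exact congrFun h1 t
  refine ⟨conjHom (Path.Homotopic.Quotient.mk Γ') g', ?_, ?_⟩
  · rw [mapOfEq_rfl, map_conjHom, hg1, ← Path.Homotopic.Quotient.mk_map, h3]
  · rw [map_conjHom]
    exact R_conj _ hg2

end

end Pool.Agent.TH192
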