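import Mathlib
import Pool.Agent.TH192.Discs

/-!
# Cubes of meridians lift to products of cubes of meridians
-/

open unitInterval Topology CategoryTheory

namespace Pool.Agent.TH192

noncomputable section

theorem exists_cube_root (f : ℂ → ℂ) (hf : Continuous f) (h0 : ∀ z, f z ≠ 0) (z₀ a : ℂ)
    (ha : a ^ 3 = f z₀) : ∃ ψ : ℂ → ℂ, Continuous ψ ∧ (∀ z, ψ z ≠ 0) ∧ ψ z₀ = a ∧
      ∀ z, ψ z ^ 3 = f z := by
  obtain ⟨F, ⟨h1, h2⟩, -⟩ := (isCoveringMapOn_npow (𝕜 := ℂ) 3 (by norm_num)).existsUnique_continuousMap_lifts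
    ⟨f, hf⟩ (a₀ := z₀) (e₀ := a) ha (fun z => h0 z)
  refine ⟨F, F.continuous, ?_, h1, fun z => congrFun h2 z⟩
  intro z hz
  have h3 : F z ^ 3 = f z := congrFun h2 z
  rw [hz] at h3
  exact h0 z (by rw [← h3]; norm_num)

theorem disc_cases {φ : ℂ → ℂ × ℂ} (hφ : IsDisc φ) :
    ((φ 0).1 = 0 ∧ (∀ z, (φ z).2 ≠ 0) ∧ ∀ z, (φ z).1 ≠ (φ z).2) ∨
    ((φ 0).2 = 0 ∧ (∀ z, (φ z).1 ≠ 0) ∧ ∀ z, (φ z).1 ≠ (φ z).2) ∨
    ((φ 0).1 = (φ 0).2 ∧ (∀ z, (φ z).1 ≠ 0) ∧ ∀ z, (φ z).2 ≠ 0) := by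
  have h0 := hφ.2.1 0
  obtain ⟨-, -, h, -, h1, h2⟩ := id hφ
  have hq : q (φ 0) = 0 := by rw [h2, zero_mul]
  have hW : ∀ z, z ≠ 0 → (φ z).1 ≠ 0 ∧ (φ z).2 ≠ 0 ∧ (φ z).1 ≠ (φ z).2 := fun z hz =>
    mem_W'.1 (hφ.mem hz)
  have h0' : ¬ ((φ 0).1 = 0 ∧ (φ 0).2 = 0) := by
    rintro ⟨h3, h4⟩
    exact h0 (Prod.ext h3 h4)
  unfold q at hq
  rcases mul_eq_zero.1 hq with h3 | h3
  · rcases mul_eq_zero.1 h3 with h4 | h4
    · left
      refine ⟨h4, fun z => ?_, fun z => ?_⟩
      · by_cases hz : z = 0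
        · rw [hz]
          exact fun h5 => h0' ⟨h4, h5⟩
        · exact (hW z hz).2.1
      · by_cases hz : z = 0
        · rw [hz, h4]
          exact fun h5 => h0' ⟨h4, h5.symm⟩
        · exact (hW z hz).2.2
    · right; left
      refine ⟨h4, fun z => ?_, fun z => ?_⟩
      · by_cases hz : z = 0
        · rw [hz]
          exact fun h5 => h0' ⟨h5, h4⟩
        · exact (hW z hz).1
      · by_cases hz : z = 0
        · rw [hz, h4]
          exact fun h5 => h0' ⟨h5, h4⟩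
        · exact (hW z hz).2.2
  · right; right
    rw [sub_eq_zero] at h3
    refine ⟨h3, fun z => ?_, fun z => ?_⟩
    · by_cases hz : z = 0
      · rw [hz]
        exact fun h5 => h0' ⟨h5, by rw [← h3, h5]⟩
      · exact (hW z hz).1
    · by_cases hz : z = 0
      · rw [hz]
        exact fun h5 => h0' ⟨by rw [h3, h5], h5⟩
      · exact (hW z hz).2.1

theorem loop_trivial (χ : C(ℂ, W)) (f : C(ℝ, W)) (hf : ∀ t, f (t + 1) = f t)
    (h : ∀ t, f t = χ (e t)) : loopClass (rp f hf 1) = 1 := by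
  rw [← loopClass_refl]
  refine loopClass_eq (homotopic_of_lift (E := ℂ) χ χ.continuous _ _ (fun t : I => e t)
    (fun t => 1) (e_continuous.comp continuous_subtype_val) continuous_const ?_ ?_ ?_ ?_)
  · intro t
    rw [rp_apply, h]
    simp
  · intro t
    rw [Path.refl_apply, h]
    simp
  · simp
  · simp

/-- the case where the third power of the boundary loop lifts to the boundary of a disc in `W` -/
theorem lift_ramified (f : C(ℝ, W)) (hf : ∀ t, f (t + 1) = f t) (v : V) (hv : P v = f 0)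
    (χ : ℂ → ℂ × ℂ) (hχ : Continuous χ) (h1 : χ 1 = v.1)
    (h2 : ∀ z, (χ z).1 ^ 3 ≠ (χ z).2 ^ 3)
    (h3 : ∀ t, ((χ (e t)).1 ^ 3, (χ (e t)).2 ^ 3) = (f (3 * t) : ℂ × ℂ)) :
    ∃ g' : FundamentalGroup V v,
    FundamentalGroup.mapOfEq P hv g' = loopClass (rp f hf 1) ^ 3 ∧
      FundamentalGroup.map L v g' ∈ R (L v) := by
  have hV : ∀ t, χ (e t) ∈ V := by
    intro t
    have h4 := mem_W'.1 (f (3 * t)).2
    rw [← h3] at h4
    exact ⟨fun h5 => h4.1 (by rw [h5]; norm_num), fun h5 => h4.2.1 (by rw [h5]; norm_num), h4.2.2⟩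
  let f' : C(ℝ, V) := ⟨fun t => ⟨χ (e t), hV t⟩, by
    have := e_continuous
    fun_prop⟩
  have hf' : ∀ t, f' (t + 1) = f' t := by
    intro t
    refine Subtype.ext ?_
    change χ (e (t + 1)) = χ (e t)
    rw [e_per]
  have hf0 : f' 0 = v := by
    refine Subtype.ext ?_
    change χ (e 0) = v.1
    rw [e_zero, h1]
  subst hf0
  refine ⟨loopClass (rp f' hf' 1), ?_, ?_⟩
  · rw [← rp_pow]
    refine mapOfEq_rp P f' hf' f hf 1 3 ?_ hv
    intro t
    refine Subtype.ext ?_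
    rw [Nat.cast_one, one_mul, Nat.cast_ofNat, ← h3]
    rfl
  · have h5 : FundamentalGroup.map L (f' 0) (loopClass (rp f' hf' 1)) = 1 := by
      rw [← mapOfEq_rfl, mapOfEq_rp L f' hf' (L.comp f') (fun t => by
        simp only [ContinuousMap.comp_apply, hf']) 1 1 (fun t => rfl) rfl]
      refine loop_trivial ⟨fun z => ⟨Lam (χ z), ?_⟩, ?_⟩ _ _ ?_
      · rw [mem_W, q_Lam, sub_ne_zero]
        exact (h2 z).symm
      · have := Lam_continuous
        fun_prop
      · intro t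
        rfl
    rw [h5]
    exact Subgroup.one_mem _

theorem disc_cube_mem_K (φ : ℂ → ℂ × ℂ) (hφ : IsDisc φ) :
    loopClass (rp (bdry φ hφ) (bdry_per φ hφ) 1) ^ 3 ∈ K (bdry φ hφ 0) := by
  rw [mem_K]
  intro v hv
  have hφc : Continuous φ := hφ.1
  have hv1 : v.1.1 ^ 3 = (φ 1).1 := by
    have h1 : v.1.1 ^ 3 = (φ (e 0)).1 := congrArg (fun w : W => w.1.1) hv
    rwa [e_zero] at h1
  have hv2 : v.1.2 ^ 3 = (φ 1).2 := by
    have h1 : v.1.2 ^ 3 = (φ (e 0)).2 := congrArg (fun w : W => w.1.2) hv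
    rwa [e_zero] at h1
  obtain ⟨-, -, h, hc, hn, hq⟩ := id hφ
  rcases disc_cases hφ with ⟨h1, h2, h3⟩ | ⟨h1, h2, h3⟩ | ⟨h1, h2, h3⟩
  · -- `φ 0` on the line `X = 0`
    have hk : ∀ z, (φ z).1 = z * (h z / ((φ z).2 * ((φ z).1 - (φ z).2))) := by
      intro z
      have h4 := hq z
      unfold q at h4
      have h5 : (φ z).1 - (φ z).2 ≠ 0 := sub_ne_zero.2 (h3 z)
      have h6 := h2 z
      field_simp
      linear_combination h4
    have hkc : Continuous fun z => h z / ((φ z).2 * ((φ z).1 - (φ z).2)) := by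
      refine hc.div (by fun_prop) ?_
      intro z
      exact mul_ne_zero (h2 z) (sub_ne_zero.2 (h3 z))
    have hkn : ∀ z, h z / ((φ z).2 * ((φ z).1 - (φ z).2)) ≠ 0 := fun z =>
      div_ne_zero (hn z) (mul_ne_zero (h2 z) (sub_ne_zero.2 (h3 z)))
    obtain ⟨k, k1, k2, k3, k4⟩ := exists_cube_root _ hkc hkn 1 v.1.1 (by
      have h7 := hk 1
      rw [one_mul] at h7
      rw [hv1]
      exact h7)
    obtain ⟨l, l1, l2, l3, l4⟩ := exists_cube_root (fun z => (φ z).2) (by fun_prop) h2 1 v.1.2 hv2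
    refine lift_ramified _ _ v hv (fun s => (s * k (s ^ 3), l (s ^ 3))) (by fun_prop) ?_ ?_ ?_
    · simp [k3, l3]
    · intro z
      have h5 := h3 (z ^ 3)
      simp only [mul_pow, k4, l4]
      rw [← hk]
      exact h5
    · intro t
      simp only [mul_pow, k4, l4]
      rw [← hk]
      simp only [bdry, ContinuousMap.coe_mk, e_three]
  · -- `φ 0` on the line `Y = 0`
    have hk : ∀ z, (φ z).2 = z * (h z / ((φ z).1 * ((φ z).1 - (φ z).2))) := by
      intro z
      have h4 := hq z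
      unfold q at h4
      have h5 : (φ z).1 - (φ z).2 ≠ 0 := sub_ne_zero.2 (h3 z)
      have h6 := h2 z
      field_simp
      linear_combination h4
    have hkc : Continuous fun z => h z / ((φ z).1 * ((φ z).1 - (φ z).2)) := by
      refine hc.div (by fun_prop) ?_
      intro z
      exact mul_ne_zero (h2 z) (sub_ne_zero.2 (h3 z))
    have hkn : ∀ z, h z / ((φ z).1 * ((φ z).1 - (φ z).2)) ≠ 0 := fun z =>
      div_ne_zero (hn z) (mul_ne_zero (h2 z) (sub_ne_zero.2 (h3 z)))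
    obtain ⟨k, k1, k2, k3, k4⟩ := exists_cube_root _ hkc hkn 1 v.1.2 (by
      have h7 := hk 1
      rw [one_mul] at h7
      rw [hv2]
      exact h7)
    obtain ⟨l, l1, l2, l3, l4⟩ := exists_cube_root (fun z => (φ z).1) (by fun_prop) h2 1 v.1.1 hv1
    refine lift_ramified _ _ v hv (fun s => (l (s ^ 3), s * k (s ^ 3))) (by fun_prop) ?_ ?_ ?_
    · simp [k3, l3]
    · intro z
      have h5 := h3 (z ^ 3)
      simp only [mul_pow, k4, l4]
      rw [← hk]
      exact h5
    · intro t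
      simp only [mul_pow, k4, l4]
      rw [← hk]
      simp only [bdry, ContinuousMap.coe_mk, e_three]
  · -- `φ 0` on the line `X = Y`
    obtain ⟨k, k1, k2, k3, k4⟩ := exists_cube_root (fun z => (φ z).1) (by fun_prop) h2 1 v.1.1 hv1
    obtain ⟨l, l1, l2, l3, l4⟩ := exists_cube_root (fun z => (φ z).2) (by fun_prop) h3 1 v.1.2 hv2
    have hV : ∀ t, ((k (e t), l (e t)) : ℂ × ℂ) ∈ V := by
      intro t
      have h4 := mem_W'.1 (hφ.mem (e_ne t))
      rw [← k4, ← l4] at h4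
      exact ⟨k2 _, l2 _, h4.2.2⟩
    let f' : C(ℝ, V) := ⟨fun t => ⟨(k (e t), l (e t)), hV t⟩, by
      have := e_continuous
      fun_prop⟩
    have hf' : ∀ t, f' (t + 1) = f' t := by
      intro t
      refine Subtype.ext ?_
      change (k (e (t + 1)), l (e (t + 1))) = (k (e t), l (e t))
      rw [e_per]
    have hf0 : f' 0 = v := by
      refine Subtype.ext ?_
      change (k (e 0), l (e 0)) = v.1
      rw [e_zero, k3, l3]
    subst hf0
    refine ⟨loopClass (rp f' hf' 1) ^ 3, ?_, ?_⟩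
    · rw [map_pow]
      congr 1
      refine mapOfEq_rp P f' hf' _ _ 1 1 ?_ hv
      intro t
      refine Subtype.ext ?_
      change (k (e _) ^ 3, l (e _) ^ 3) = _
      rw [k4, l4]
      rfl
    · rw [map_pow, ← mapOfEq_rfl, mapOfEq_rp L f' hf' (L.comp f') (fun t => by
        simp only [ContinuousMap.comp_apply, hf']) 1 1 (fun t => rfl) rfl]
      refine cube_mem_R (fun z => Lam (k z, l z)) ?_ (L.comp f') _ (fun t => rfl)
      refine ⟨by have := Lam_continuous; fun_prop, ?_, fun z => -(h z / ((φ z).1 * (φ z).2)),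
        ?_, ?_, ?_⟩
      · intro z
        refine Lam_ne ?_
        intro h4
        exact k2 z (congrArg Prod.fst h4)
      · refine (hc.div (by fun_prop) ?_).neg
        intro z
        exact mul_ne_zero (h2 z) (h3 z)
      · intro z
        exact neg_ne_zero.2 (div_ne_zero (hn z) (mul_ne_zero (h2 z) (h3 z)))
      · intro z
        rw [q_Lam]
        simp only [k4, l4]
        have h4 := hq z
        unfold q at h4
        have h5 := h2 z
        have h6 := h3 z
        field_simp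
        linear_combination -h4

theorem R_le_K (w : W) : R w ≤ K w := by
  unfold R
  rw [Subgroup.closure_le]
  rintro g ⟨φ, hφ, δ, rfl⟩
  exact K_conj δ (disc_cube_mem_K φ hφ)

end

end Pool.Agent.TH192
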