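import Mathlib
import Pool.Agent.TH192.Core

/-!
# The scaling loop has infinite order
-/

open unitInterval Topology CategoryTheory

namespace Pool.Agent.TH192

noncomputable section

section LoopAt

variable {Y Z : Type*} [TopologicalSpace Y] [TopologicalSpace Z]

/-- the class of `t ↦ f (n t)` at the base point `y = f 0` -/
def loopAt (f : C(ℝ, Y)) (hf : ∀ x, f (x + 1) = f x) (n : ℕ) {y : Y} (hy : f 0 = y) :
    FundamentalGroup Y y := loopClass ((rp f hf n).cast hy.symm hy.symm)

theorem loopAt_pow (f : C(ℝ, Y)) (hf : ∀ x, f (x + 1) = f x) (n : ℕ) {y : Y} (hy : f 0 = y) :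
    loopAt f hf n hy = loopAt f hf 1 hy ^ n := by
  subst hy
  exact rp_pow f hf n

theorem loopAt_rfl (f : C(ℝ, Y)) (hf : ∀ x, f (x + 1) = f x) (n : ℕ) :
    loopAt f hf n rfl = loopClass (rp f hf n) := rfl

theorem mapOfEq_loopAt (p : C(Y, Z))
    (f' : C(ℝ, Y)) (hf' : ∀ x, f' (x + 1) = f' x) (f : C(ℝ, Z)) (hf : ∀ x, f (x + 1) = f x)
    (n m : ℕ) (h : ∀ t : ℝ, p (f' (n * t)) = f (m * t)) {y' : Y} (hy' : f' 0 = y') {y : Z}
    (hy : f 0 = y) (h0 : p y' = y) :
    FundamentalGroup.mapOfEq p h0 (loopAt f' hf' n hy') = loopAt f hf m hy := by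
  subst hy'
  subst hy
  exact mapOfEq_rp p f' hf' f hf n m h h0

theorem map_loopAt (p : C(Y, Z))
    (f' : C(ℝ, Y)) (hf' : ∀ x, f' (x + 1) = f' x) (f : C(ℝ, Z)) (hf : ∀ x, f (x + 1) = f x)
    (n m : ℕ) (h : ∀ t : ℝ, p (f' (n * t)) = f (m * t)) {y' : Y} (hy' : f' 0 = y')
    (hy : f 0 = p y') :
    FundamentalGroup.map p y' (loopAt f' hf' n hy') = loopAt f hf m hy := by
  rw [← mapOfEq_rfl]
  exact mapOfEq_loopAt p f' hf' f hf n m h hy' hy rfl

end LoopAt

theorem q_smul (a : ℂ) (p : ℂ × ℂ) : q (a • p) = a ^ 3 * q p := by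
  unfold q
  simp only [Prod.smul_fst, Prod.smul_snd, smul_eq_mul]
  ring

theorem smul_mem_W {a : ℂ} (ha : a ≠ 0) {p : ℂ × ℂ} (hp : p ∈ W) : a • p ∈ W := by
  rw [mem_W, q_smul]
  exact mul_ne_zero (pow_ne_zero _ ha) hp

theorem smul_mem_V {a : ℂ} (ha : a ≠ 0) {p : ℂ × ℂ} (hp : p ∈ V) : a • p ∈ V := by
  refine ⟨mul_ne_zero ha hp.1, mul_ne_zero ha hp.2.1, ?_⟩
  intro h
  apply hp.2.2
  simp only [Prod.smul_fst, Prod.smul_snd, smul_eq_mul, mul_pow] at h
  exact mul_left_cancel₀ (pow_ne_zero _ ha) h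

/-- the scaling loop in `W` -/
def scal (w : W) : C(ℝ, W) where
  toFun t := ⟨e t • w.1, smul_mem_W (e_ne t) w.2⟩
  continuous_toFun := by
    have := e_continuous
    fun_prop

theorem scal_per (w : W) (t : ℝ) : scal w (t + 1) = scal w t := by
  refine Subtype.ext ?_
  change e (t + 1) • w.1 = e t • w.1
  rw [e_per]

theorem scal_zero (w : W) : scal w 0 = w := by
  refine Subtype.ext ?_
  change e 0 • w.1 = w.1
  rw [e_zero, one_smul]

/-- the scaling loop in `V` -/
def scalV (v : V) : C(ℝ, V) where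
  toFun t := ⟨e t • v.1, smul_mem_V (e_ne t) v.2⟩
  continuous_toFun := by
    have := e_continuous
    fun_prop

theorem scalV_per (w : V) (t : ℝ) : scalV w (t + 1) = scalV w t := by
  refine Subtype.ext ?_
  change e (t + 1) • w.1 = e t • w.1
  rw [e_per]

theorem scalV_zero (w : V) : scalV w 0 = w := by
  refine Subtype.ext ?_
  change e 0 • w.1 = w.1
  rw [e_zero, one_smul]

theorem P_smul (a : ℂ) (v v' : V) (h : v'.1 = a • v.1) : (P v' : ℂ × ℂ) = a ^ 3 • (P v).1 := by
  rw [P_coe, P_coe, h]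
  ext <;> simp [mul_pow]

theorem Lam_smul (a : ℂ) (p : ℂ × ℂ) : Lam (a • p) = a • Lam p := by
  unfold Lam
  ext <;> simp <;> ring

/-- the class of the scaling loop -/
def cc (w : W) : FundamentalGroup W w := loopAt (scal w) (scal_per w) 1 (scal_zero w)

theorem P_surj (w : W) : ∃ v, P v = w := by
  obtain ⟨x, hx⟩ := IsAlgClosed.exists_pow_nat_eq w.1.1 (n := 3) (by norm_num)
  obtain ⟨y, hy⟩ := IsAlgClosed.exists_pow_nat_eq w.1.2 (n := 3) (by norm_num)
  have h := mem_W'.1 w.2
  refine ⟨⟨(x, y), ?_, ?_, ?_⟩, ?_⟩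
  · rintro rfl
    exact h.1 (by rw [← hx]; norm_num)
  · rintro rfl
    exact h.2.1 (by rw [← hy]; norm_num)
  · simp only [hx, hy]
    exact h.2.2
  · refine Subtype.ext ?_
    rw [P_coe]
    ext
    · exact hx
    · exact hy

theorem lift_end (v : V) (n : ℕ) (γ : Path v v)
    (h : FundamentalGroup.map P v (loopClass γ) =
      loopAt (scal (P v)) (scal_per _) n (scal_zero _)) : e (n / 3) = 1 := by
  let s : C(I, V) := ⟨fun t => scalV v (n / 3 * t), by fun_prop⟩
  have hs0 : s 0 = v := by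
    change scalV v (n / 3 * ((0 : I) : ℝ)) = v
    simp [scalV_zero]
  have h1 : (P.comp γ.toContinuousMap).HomotopicRel (P.comp s) {0, 1} := by
    have h2 := Path.Homotopic.Quotient.exact h
    have h3 : ((rp (scal (P v)) (scal_per _) n).cast (scal_zero _).symm
        (scal_zero _).symm).toContinuousMap = P.comp s := by
      ext1 t
      refine Subtype.ext ?_
      change e (n * t) • (P v).1 = (P (scalV v (n / 3 * t)) : ℂ × ℂ)
      rw [P_smul (e (n / 3 * t)) v (scalV v (n / 3 * t)) rfl, ← e_three]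
      congr 2
      ring
    have h4 := h2
    unfold Path.Homotopic at h4
    unfold Path.Homotopy at h4
    rw [h3] at h4
    exact h4
  have h5 := P_cov.liftPath_apply_one_eq_of_homotopicRel h1 v (by simp)
    (by rw [ContinuousMap.comp_apply, hs0])
  rw [← (P_cov.eq_liftPath_iff' (γ := P.comp γ.toContinuousMap) (e := v) (by simp)
      (Γ := γ.toContinuousMap)).2 ⟨rfl, by simp⟩,
    ← (P_cov.eq_liftPath_iff' (γ := P.comp s) (e := v) (by rw [ContinuousMap.comp_apply, hs0])
      (Γ := s)).2 ⟨rfl, hs0⟩] at h5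
  have h6 : v = scalV v (n / 3 * ((1 : I) : ℝ)) := by
    have : γ.toContinuousMap 1 = v := by simp
    rw [this] at h5
    exact h5
  have h7 := congrArg (fun x : V => x.1.1) h6
  have h8 : v.1.1 = e (n / 3 * ((1 : I) : ℝ)) * v.1.1 := h7
  have h9 : (e (n / 3 * ((1 : I) : ℝ)) - 1) * v.1.1 = 0 := by linear_combination -h8
  rcases mul_eq_zero.1 h9 with h10 | h10
  · have := sub_eq_zero.1 h10
    simpa using this
  · exact absurd h10 v.2.1

theorem cc_pow_notMem (n : ℕ) (hn : 0 < n) (w : W) : cc w ^ n ∉ R w := by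
  induction n using Nat.strong_induction_on generalizing w with
  | _ n ih =>
    intro hmem
    obtain ⟨v, hv⟩ := P_surj w
    obtain ⟨g', hg1, hg2⟩ := mem_K.1 (R_le_K w hmem) v hv
    subst hv
    rw [mapOfEq_rfl] at hg1
    unfold cc at hg1
    rw [← loopAt_pow] at hg1
    have h3 : e (n / 3) = 1 := by
      induction g' using Path.Homotopic.Quotient.ind with | mk γ =>
      exact lift_end v n γ hg1
    obtain ⟨m, hm⟩ := (e_eq_one_iff _).1 h3
    have hm2 : (n : ℤ) = 3 * m := by
      have : (n : ℝ) = 3 * m := by linarith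
      exact_mod_cast this
    obtain ⟨k, rfl⟩ : ∃ k : ℕ, n = 3 * k := ⟨m.toNat, by omega⟩
    have h4 : FundamentalGroup.map P v (loopAt (scalV v) (scalV_per v) k (scalV_zero v)) =
        loopAt (scal (P v)) (scal_per _) (3 * k) (scal_zero _) := by
      refine map_loopAt P _ _ _ _ _ _ ?_ _ _
      intro t
      refine Subtype.ext ?_
      rw [P_smul (e (k * t)) v (scalV v (k * t)) rfl, ← e_three]
      change _ = e _ • (P v).1
      congr 2
      push_cast
      ring
    have h5 : g' = loopAt (scalV v) (scalV_per v) k (scalV_zero v) := by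
      rw [← h4] at hg1
      exact P_cov.injective_path_homotopic_map v v hg1
    have h6 : FundamentalGroup.map L v g' = cc (L v) ^ k := by
      rw [h5, cc, ← loopAt_pow]
      refine map_loopAt L _ _ _ _ _ _ ?_ _ _
      intro t
      refine Subtype.ext ?_
      exact Lam_smul _ _
    rw [h6] at hg2
    exact ih k (by omega) (by omega) (L v) hg2

end

end Pool.Agent.TH192
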