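import Mathlib
import Pool.Agent.TH192.Scal

/-!
# The scaling loop is central and is a product of three meridians
-/

open unitInterval Topology CategoryTheory

namespace Pool.Agent.TH192

noncomputable section

theorem conj_cc {w y : W} (δ : Path.Homotopic.Quotient w y) : conjHom δ (cc y) = cc w := by
  induction δ using Path.Homotopic.Quotient.ind with | mk δ =>
  symm
  refine eq_conjHom_of_trans _ _ δ ?_
  refine homotopic_square _ _ δ δ
    (fun p => ⟨e p.2 • (δ p.1).1, smul_mem_W (e_ne _) (δ p.1).2⟩) ?_ ?_ ?_ ?_ ?_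
  · have := e_continuous
    fun_prop
  · intro t
    refine Subtype.ext ?_
    change e t • (δ 0).1 = e (((1 : ℕ) : ℝ) * t) • w.1
    simp
  · intro t
    refine Subtype.ext ?_
    change e t • (δ 1).1 = e (((1 : ℕ) : ℝ) * t) • y.1
    simp
  · intro s
    refine Subtype.ext ?_
    change e ((0 : I) : ℝ) • (δ s).1 = _
    simp
  · intro s
    refine Subtype.ext ?_
    change e ((1 : I) : ℝ) • (δ s).1 = _
    simp

theorem cc_central {w : W} (g : FundamentalGroup W w) : g * cc w = cc w * g := by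
  have h := conj_cc (w := w) (y := w) g
  rw [conjHom_loop] at h
  have h2 := congrArg (fun x => g * x) h
  simp only [← mul_assoc, mul_inv_cancel, one_mul] at h2
  exact h2.symm

/-! ### discs from closed discs -/

/-- the retraction to the closed unit disc -/
def ret (z : ℂ) : ℂ := z / (max 1 ‖z‖ : ℝ)

theorem max_pos (z : ℂ) : (0 : ℝ) < max 1 ‖z‖ := lt_of_lt_of_le one_pos (le_max_left _ _)

theorem max_ne (z : ℂ) : ((max 1 ‖z‖ : ℝ) : ℂ) ≠ 0 := by
  exact_mod_cast (max_pos z).ne'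

theorem ret_continuous : Continuous ret := by
  unfold ret
  exact continuous_id.div (by fun_prop) max_ne

theorem norm_ret (z : ℂ) : ‖ret z‖ ≤ 1 := by
  unfold ret
  rw [norm_div, Complex.norm_real, Real.norm_of_nonneg (max_pos z).le]
  exact div_le_one_of_le₀ (le_max_right _ _) (max_pos z).le

theorem ret_of_norm_le {z : ℂ} (hz : ‖z‖ ≤ 1) : ret z = z := by
  unfold ret
  rw [max_eq_left hz]
  simp

theorem ret_e (t : ℝ) : ret (e t) = e t := ret_of_norm_le (norm_e t).le

theorem isDisc_ret (φ : ℂ → ℂ × ℂ) (h : ℂ → ℂ)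
    (hφ : ContinuousOn φ (Metric.closedBall 0 1)) (hh : ContinuousOn h (Metric.closedBall 0 1))
    (h0 : ∀ z, ‖z‖ ≤ 1 → φ z ≠ 0) (h1 : ∀ z, ‖z‖ ≤ 1 → h z ≠ 0)
    (h2 : ∀ z, ‖z‖ ≤ 1 → q (φ z) = z * h z) : IsDisc (fun z => φ (ret z)) := by
  have hm : ∀ z, ret z ∈ Metric.closedBall (0 : ℂ) 1 := by
    intro z
    rw [mem_closedBall_zero_iff]
    exact norm_ret z
  refine ⟨hφ.comp_continuous ret_continuous hm, fun z => h0 _ (norm_ret z),
    fun z => h (ret z) / (max 1 ‖z‖ : ℝ), ?_, ?_, ?_⟩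
  · exact (hh.comp_continuous ret_continuous hm).div (by fun_prop) max_ne
  · intro z
    exact div_ne_zero (h1 _ (norm_ret z)) (max_ne z)
  · intro z
    rw [h2 _ (norm_ret z)]
    unfold ret
    ring

/-! ### the relation -/

/-- the base points -/
def w0 : W := ⟨(2, -3 * Complex.I), by
  rw [mem_W']
  refine ⟨by norm_num, by simp, ?_⟩
  intro h
  have := congrArg Complex.re h
  simp at this⟩

def w1 : W := ⟨(2, 1), by
  rw [mem_W']
  norm_num⟩

/-- a point `2 a`, `-3 i b` with `|a| = |b| = 1` -/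
theorem torus_mem (s t : ℝ) : ((2 * e s, -3 * Complex.I * e t) : ℂ × ℂ) ∈ W := by
  rw [mem_W']
  refine ⟨mul_ne_zero two_ne_zero (e_ne _), mul_ne_zero (by simp) (e_ne _), ?_⟩
  intro h
  have := congrArg norm h
  simp [norm_e] at this

theorem mk_path_eq {Y : Type*} [TopologicalSpace Y] {x : Y} {a b : Path x x}
    (h : a.Homotopic b) : loopClass a = loopClass b := loopClass_eq h

/-- the loop `t ↦ (2 e(t), -3 i)` -/
def fX : C(ℝ, W) := ⟨fun t => ⟨(2 * e t, -3 * Complex.I), by
    have := torus_mem t 0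
    simpa using this⟩, by
  have := e_continuous
  fun_prop⟩

theorem fX_per (t : ℝ) : fX (t + 1) = fX t := by
  refine Subtype.ext ?_
  change (2 * e (t + 1), -3 * Complex.I) = (2 * e t, -3 * Complex.I)
  rw [e_per]

theorem fX_zero : fX 0 = w0 := by
  refine Subtype.ext ?_
  change (2 * e 0, -3 * Complex.I) = (2, -3 * Complex.I)
  simp

/-- the loop `t ↦ (2, -3 i e(t))` -/
def fH : C(ℝ, W) := ⟨fun t => ⟨(2, -3 * Complex.I * e t), by
    have := torus_mem 0 t
    simpa using this⟩, by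
  have := e_continuous
  fun_prop⟩

theorem fH_per (t : ℝ) : fH (t + 1) = fH t := by
  refine Subtype.ext ?_
  change ((2 : ℂ), -3 * Complex.I * e (t + 1)) = (2, -3 * Complex.I * e t)
  rw [e_per]

theorem fH_zero : fH 0 = w0 := by
  refine Subtype.ext ?_
  change ((2 : ℂ), -3 * Complex.I * e 0) = (2, -3 * Complex.I)
  simp

theorem cc_w0 : cc w0 = loopAt fH fH_per 1 fH_zero * loopAt fX fX_per 1 fX_zero := by
  unfold cc loopAt
  rw [← loopClass_trans]
  refine loopClass_eq ?_
  refine homotopic_of_lift (E := ℝ × ℝ) (fun p => (⟨_, torus_mem p.1 p.2⟩ : W)) ?_ _ _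
    (fun t => ((t : ℝ), (t : ℝ)))
    (fun t => if (t : ℝ) ≤ 1 / 2 then (2 * (t : ℝ), 0) else (1, 2 * (t : ℝ) - 1))
    (by fun_prop) ?_ ?_ ?_ ?_ ?_
  · have := e_continuous
    fun_prop
  · refine Continuous.if_le (by fun_prop) (by fun_prop) (by fun_prop) (by fun_prop) ?_
    intro x hx
    rw [hx]
    norm_num
  · intro t
    refine Subtype.ext ?_
    change e (((1 : ℕ) : ℝ) * t) • ((2 : ℂ), -3 * Complex.I) = (2 * e t, -3 * Complex.I * e t)
    simp [mul_comm]
  · intro t
    rw [Path.trans_apply]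
    split_ifs with h
    · refine Subtype.ext ?_
      change (2 * e (((1 : ℕ) : ℝ) * (2 * t)), -3 * Complex.I) = _
      simp
    · refine Subtype.ext ?_
      change ((2 : ℂ), -3 * Complex.I * e (((1 : ℕ) : ℝ) * (2 * t - 1))) = _
      simp
  · simp
  · norm_num

theorem f2_mem (t : ℝ) : (((2 : ℂ), 2 - e t) : ℂ × ℂ) ∈ W := by
  rw [mem_W']
  refine ⟨by norm_num, ?_, ?_⟩
  · intro h
    have h2 : (2 : ℂ) = e t := sub_eq_zero.1 h
    have := congrArg norm h2
    simp [norm_e] at this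
  · intro h
    have h1 : (2 : ℂ) = 2 - e t := h
    have h2 : e t = 0 := by linear_combination h1
    exact e_ne t h2

/-- the loop `t ↦ (2, 2 - e(t))` -/
def f2 : C(ℝ, W) := ⟨fun t => ⟨(2, 2 - e t), f2_mem t⟩, by
  have := e_continuous
  fun_prop⟩

theorem f2_per (t : ℝ) : f2 (t + 1) = f2 t := by
  refine Subtype.ext ?_
  change ((2 : ℂ), 2 - e (t + 1)) = (2, 2 - e t)
  rw [e_per]

theorem f2_zero : f2 0 = w1 := by
  refine Subtype.ext ?_
  change ((2 : ℂ), 2 - e 0) = (2, 1)
  simp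
  norm_num

theorem f0_mem (t : ℝ) : (((2 : ℂ), e t) : ℂ × ℂ) ∈ W := by
  rw [mem_W']
  refine ⟨by norm_num, e_ne t, ?_⟩
  intro h
  have := congrArg norm h
  simp [norm_e] at this

/-- the loop `t ↦ (2, e(t))` -/
def f0 : C(ℝ, W) := ⟨fun t => ⟨(2, e t), f0_mem t⟩, by
  have := e_continuous
  fun_prop⟩

theorem f0_per (t : ℝ) : f0 (t + 1) = f0 t := by
  refine Subtype.ext ?_
  change ((2 : ℂ), e (t + 1)) = (2, e t)
  rw [e_per]

theorem f0_zero : f0 0 = w1 := by
  refine Subtype.ext ?_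
  change ((2 : ℂ), e 0) = (2, 1)
  simp

theorem e_re_im (t : ℝ) : e t = ⟨Real.cos (2 * Real.pi * t), Real.sin (2 * Real.pi * t)⟩ := by
  unfold e
  have h : (2 * (Real.pi : ℂ) * t * Complex.I) = ((2 * Real.pi * t : ℝ) : ℂ) * Complex.I := by
    push_cast; ring
  rw [h]
  apply Complex.ext
  · exact Complex.exp_ofReal_mul_I_re _
  · exact Complex.exp_ofReal_mul_I_im _

theorem aux_first {s c d : ℝ} (hs0 : 0 ≤ s) (hs1 : s ≤ 1) (hd : 0 ≤ d)
    (hcd : c ^ 2 + d ^ 2 = 1) (y : ℂ)
    (hre : y.re = (1 - s) * (3 * d) + s * (1 + 2 * d ^ 2))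
    (him : y.im = -c * (3 * (1 - s) + 2 * s * d)) : y ≠ 0 ∧ y ≠ 2 := by
  constructor
  · rintro rfl
    simp only [Complex.zero_re, Complex.zero_im] at hre him
    have h1 : 0 ≤ (1 - s) * (3 * d) := by
      have : 0 ≤ 1 - s := by linarith
      positivity
    have h2 : 0 ≤ s * (1 + 2 * d ^ 2) := by positivity
    have h3 : s * (1 + 2 * d ^ 2) = 0 := by linarith
    have h4 : s = 0 := by
      rcases mul_eq_zero.1 h3 with h | h
      · exact h
      · nlinarith
    subst h4
    have h5 : d = 0 := by linarith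
    subst h5
    have h6 : c = 0 := by linarith
    subst h6
    norm_num at hcd
  · intro hy
    rw [hy] at hre him
    simp only [Complex.re_ofNat, Complex.im_ofNat] at hre him
    have h1 : c = 0 ∨ 3 * (1 - s) + 2 * s * d = 0 := by
      rcases mul_eq_zero.1 him.symm with h | h
      · left; linarith
      · right; exact h
    rcases h1 with h1 | h1
    · subst h1
      have h2 : d = 1 := by nlinarith
      subst h2
      nlinarith
    · have h2 : 0 ≤ s * d := by positivity
      have h3 : s = 1 := by nlinarith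
      subst h3
      have h4 : d = 0 := by linarith
      subst h4
      norm_num at hre

theorem aux_second {s c d : ℝ} (hs0 : 0 ≤ s) (hs1 : s ≤ 1) (hd : d ≤ 0)
    (hcd : c ^ 2 + d ^ 2 = 1) (y : ℂ)
    (hre : y.re = (1 - s) * (3 * d) + s * (1 - 2 * d ^ 2))
    (him : y.im = -c * (3 * (1 - s) - 2 * s * d)) : y ≠ 0 ∧ y ≠ 2 := by
  constructor
  · rintro rfl
    simp only [Complex.zero_re, Complex.zero_im] at hre him
    have h1 : c = 0 ∨ 3 * (1 - s) - 2 * s * d = 0 := by
      rcases mul_eq_zero.1 him.symm with h | h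
      · left; linarith
      · right; exact h
    rcases h1 with h1 | h1
    · subst h1
      have h2 : d = -1 := by nlinarith
      subst h2
      nlinarith
    · have h2 : 0 ≤ s * (-d) := mul_nonneg hs0 (by linarith)
      have h3 : s = 1 := by nlinarith
      subst h3
      have h4 : d = 0 := by linarith
      subst h4
      norm_num at hre
  · intro hy
    rw [hy] at hre him
    simp only [Complex.re_ofNat, Complex.im_ofNat] at hre him
    have h1 : (1 - s) * (3 * d) ≤ 0 :=
      mul_nonpos_of_nonneg_of_nonpos (by linarith) (by linarith)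
    have h2 : s * (1 - 2 * d ^ 2) ≤ 1 := by nlinarith [sq_nonneg d]
    linarith

theorem fig8_mem (s t : I) : (((2 : ℂ), (1 - ((s : ℝ) : ℂ)) * (-3 * Complex.I * e t) +
    ((s : ℝ) : ℂ) * (if (t : ℝ) ≤ 1 / 2 then 2 - e (2 * t) else e (2 * t - 1))) : ℂ × ℂ) ∈ W := by
  have hs0 : (0 : ℝ) ≤ s := s.2.1
  have hs1 : (s : ℝ) ≤ 1 := s.2.2
  have ht0 : (0 : ℝ) ≤ t := t.2.1
  have ht1 : (t : ℝ) ≤ 1 := t.2.2
  have hpi := Real.pi_pos
  have hcd := Real.cos_sq_add_sin_sq (2 * Real.pi * t)
  have e2re : (e (2 * t)).re = 1 - 2 * Real.sin (2 * Real.pi * t) ^ 2 := by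
    rw [e_re_im]
    change Real.cos (2 * Real.pi * (2 * t)) = _
    rw [show 2 * Real.pi * (2 * (t : ℝ)) = 2 * (2 * Real.pi * t) by ring, Real.cos_two_mul]
    linarith
  have e2im : (e (2 * t)).im = 2 * Real.sin (2 * Real.pi * t) * Real.cos (2 * Real.pi * t) := by
    rw [e_re_im]
    change Real.sin (2 * Real.pi * (2 * t)) = _
    rw [show 2 * Real.pi * (2 * (t : ℝ)) = 2 * (2 * Real.pi * t) by ring, Real.sin_two_mul]
  have e1re : (e t).re = Real.cos (2 * Real.pi * t) := by rw [e_re_im]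
  have e1im : (e t).im = Real.sin (2 * Real.pi * t) := by rw [e_re_im]
  have key : ∀ y : ℂ, y ≠ 0 ∧ y ≠ 2 → (((2 : ℂ), y) : ℂ × ℂ) ∈ W := by
    intro y hy
    rw [mem_W']
    exact ⟨by norm_num, hy.1, hy.2.symm⟩
  apply key
  split_ifs with h
  · refine aux_first (s := s) (c := Real.cos (2 * Real.pi * t)) (d := Real.sin (2 * Real.pi * t))
      hs0 hs1 ?_ hcd _ ?_ ?_
    · apply Real.sin_nonneg_of_nonneg_of_le_pi
      · positivity
      · nlinarith
    · simp only [Complex.add_re, Complex.mul_re, Complex.sub_re, Complex.one_re,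
        Complex.ofReal_re, Complex.ofReal_im, Complex.neg_re, Complex.neg_im, Complex.re_ofNat,
        Complex.im_ofNat, Complex.I_re, Complex.I_im, Complex.mul_im, Complex.sub_im,
        Complex.one_im, e1re, e1im, e2re, e2im]
      ring
    · simp only [Complex.add_im, Complex.mul_re, Complex.sub_re, Complex.one_re,
        Complex.ofReal_re, Complex.ofReal_im, Complex.neg_re, Complex.neg_im, Complex.re_ofNat,
        Complex.im_ofNat, Complex.I_re, Complex.I_im, Complex.mul_im, Complex.sub_im,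
        Complex.one_im, e1re, e1im, e2re, e2im]
      ring
  · have e3 : e (2 * t - 1) = e (2 * t) := by
      have := e_per (2 * t - 1)
      rw [sub_add_cancel] at this
      exact this.symm
    rw [e3]
    push Not at h
    refine aux_second (s := s) (c := Real.cos (2 * Real.pi * t)) (d := Real.sin (2 * Real.pi * t))
      hs0 hs1 ?_ hcd _ ?_ ?_
    · have h5 : Real.sin (2 * Real.pi * t) = - Real.sin (2 * Real.pi * t - Real.pi) := by
        rw [Real.sin_sub_pi, neg_neg]
      rw [h5]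
      have h6 : 0 ≤ Real.sin (2 * Real.pi * t - Real.pi) := by
        apply Real.sin_nonneg_of_nonneg_of_le_pi
        · nlinarith
        · nlinarith
      linarith
    · simp only [Complex.add_re, Complex.mul_re, Complex.sub_re, Complex.one_re,
        Complex.ofReal_re, Complex.ofReal_im, Complex.neg_re, Complex.neg_im, Complex.re_ofNat,
        Complex.im_ofNat, Complex.I_re, Complex.I_im, Complex.mul_im, Complex.sub_im,
        Complex.one_im, e1re, e1im, e2re, e2im]
      ring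
    · simp only [Complex.add_im, Complex.mul_re, Complex.sub_re, Complex.one_re,
        Complex.ofReal_re, Complex.ofReal_im, Complex.neg_re, Complex.neg_im, Complex.re_ofNat,
        Complex.im_ofNat, Complex.I_re, Complex.I_im, Complex.mul_im, Complex.sub_im,
        Complex.one_im, e1re, e1im, e2re, e2im]
      ring

/-- the path from `w0` to `w1` -/
def pw : Path w0 w1 where
  toFun s := ⟨(2, (1 - ((s : ℝ) : ℂ)) * (-3 * Complex.I) + ((s : ℝ) : ℂ)), by
    have := fig8_mem s 0
    simp at this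
    norm_num at this
    simpa using this⟩
  continuous_toFun := by fun_prop
  source' := by
    refine Subtype.ext ?_
    simp [w0]
  target' := by
    refine Subtype.ext ?_
    simp [w1]

theorem fH_conj : loopAt fH fH_per 1 fH_zero =
    conjHom (Path.Homotopic.Quotient.mk pw)
      (loopAt f0 f0_per 1 f0_zero * loopAt f2 f2_per 1 f2_zero) := by
  unfold loopAt
  rw [← loopClass_trans]
  refine eq_conjHom_of_trans _ _ pw ?_
  have hval : ∀ t : I, ((((rp f2 f2_per 1).cast f2_zero.symm f2_zero.symm).trans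
      ((rp f0 f0_per 1).cast f0_zero.symm f0_zero.symm) t : W) : ℂ × ℂ) =
      ((2 : ℂ), if (t : ℝ) ≤ 1 / 2 then 2 - e (2 * t) else e (2 * t - 1)) := by
    intro t
    rw [Path.trans_apply]
    split_ifs with h
    · change ((2 : ℂ), 2 - e (((1 : ℕ) : ℝ) * (2 * t))) = _
      simp
    · change ((2 : ℂ), e (((1 : ℕ) : ℝ) * (2 * t - 1))) = _
      simp
  generalize ((rp f2 f2_per 1).cast f2_zero.symm f2_zero.symm).trans
      ((rp f0 f0_per 1).cast f0_zero.symm f0_zero.symm) = G at hval ⊢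
  have hmem : ∀ p : I × I, ((2 : ℂ),
    (1 - ((p.1 : ℝ) : ℂ)) * (-3 * Complex.I * e p.2) + ((p.1 : ℝ) : ℂ) *
      ((G p.2 : W) : ℂ × ℂ).2) ∈ W := by
    intro p
    rw [hval]
    exact fig8_mem p.1 p.2
  refine homotopic_square _ _ pw pw (fun p => ⟨((2 : ℂ),
    (1 - ((p.1 : ℝ) : ℂ)) * (-3 * Complex.I * e p.2) + ((p.1 : ℝ) : ℂ) *
      ((G p.2 : W) : ℂ × ℂ).2), hmem p⟩) ?_ ?_ ?_ ?_ ?_
  · have := e_continuous
    fun_prop
  · intro t
    refine Subtype.ext ?_
    change _ = ((2 : ℂ), -3 * Complex.I * e (((1 : ℕ) : ℝ) * t))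
    simp
  · intro t
    refine Subtype.ext ?_
    change ((2 : ℂ), (1 - (((1 : I) : ℝ) : ℂ)) * (-3 * Complex.I * e t) + (((1 : I) : ℝ) : ℂ) *
      ((G t : W) : ℂ × ℂ).2) = (G t : ℂ × ℂ)
    rw [hval]
    simp
  · intro s
    refine Subtype.ext ?_
    change ((2 : ℂ), (1 - ((s : ℝ) : ℂ)) * (-3 * Complex.I * e ((0 : I) : ℝ)) + ((s : ℝ) : ℂ) *
      ((G 0 : W) : ℂ × ℂ).2) = ((2 : ℂ), (1 - ((s : ℝ) : ℂ)) * (-3 * Complex.I) + ((s : ℝ) : ℂ))
    rw [G.source]
    simp [w1]
  · intro s
    refine Subtype.ext ?_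
    change ((2 : ℂ), (1 - ((s : ℝ) : ℂ)) * (-3 * Complex.I * e ((1 : I) : ℝ)) + ((s : ℝ) : ℂ) *
      ((G 1 : W) : ℂ × ℂ).2) = ((2 : ℂ), (1 - ((s : ℝ) : ℂ)) * (-3 * Complex.I) + ((s : ℝ) : ℂ))
    rw [G.target]
    simp [w1]

/-- the scaling loop is a product of three meridians -/
theorem cc_w0_eq : cc w0 = conjHom (Path.Homotopic.Quotient.mk pw)
      (loopAt f0 f0_per 1 f0_zero) * conjHom (Path.Homotopic.Quotient.mk pw)
      (loopAt f2 f2_per 1 f2_zero) * loopAt fX fX_per 1 fX_zero := by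
  rw [cc_w0, fH_conj, map_mul]

end

end Pool.Agent.TH192
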