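import Mathlib

/-!
# Abelian subgroups of finite index and central elements
-/

namespace Pool.Agent.TH192

theorem central_pow_eq_one {G : Type*} [Group G] (A : Subgroup G)
    (hA : ∀ a ∈ A, ∀ b ∈ A, a * b = b * a) (hn : A.index ≠ 0) (z : G) (hz : ∀ g, g * z = z * g)
    (a b d : G) (ha : a ^ 3 = 1) (hb : b ^ 3 = 1) (hd : d ^ 3 = 1) (hzabd : z = a * b * d) :
    z ^ (3 * A.index) = 1 := by
  have : A.FiniteIndex := ⟨hn⟩
  let iA : CommGroup A :=
    { (inferInstance : Group A) with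
      mul_comm := fun x y => Subtype.ext (hA x.1 x.2 y.1 y.2) }
  let T : G →* A := MonoidHom.transfer (MonoidHom.id A)
  have hT : (T z : G) = z ^ A.index := by
    have key : ∀ (k : ℕ) (g₀ : G), g₀⁻¹ * z ^ k * g₀ ∈ A → g₀⁻¹ * z ^ k * g₀ = z ^ k := by
      intro k g₀ _
      have hc : Commute g₀ (z ^ k) := (show Commute g₀ z from hz g₀).pow_right k
      rw [mul_assoc, ← hc.eq, ← mul_assoc, inv_mul_cancel, one_mul]
    have := MonoidHom.transfer_eq_pow (MonoidHom.id A) z key
    change ((MonoidHom.transfer (MonoidHom.id A) z : A) : G) = _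
    rw [this]
    rfl
  have h3 : T z ^ 3 = 1 := by
    rw [hzabd, map_mul, map_mul, mul_pow, mul_pow, ← map_pow, ← map_pow, ← map_pow, ha, hb, hd,
      map_one, one_mul, one_mul]
  rw [mul_comm, pow_mul, ← hT, ← Subgroup.coe_pow, h3, Subgroup.coe_one]

end Pool.Agent.TH192
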