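import Mathlib
import Pool.Agent.TH192.Rel
import Pool.Agent.TH192.Transfer

/-!
# Abelian subgroups of finite index in quotients of the fundamental group of `W`
-/

open unitInterval Topology CategoryTheory

namespace Pool.Agent.TH192

noncomputable section

/-- the class of `t ↦ e(-t) χ(e(t))` for `χ : ℂ → W` -/
theorem inf_class (χ : ℂ → ℂ × ℂ) (hχ : Continuous χ) (hχW : ∀ z, χ z ∈ W) {w : W}
    (γ : Path w w) (hγ : ∀ t : I, (γ t : ℂ × ℂ) = e (-t) • χ (e t)) :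
    loopClass γ = (cc w)⁻¹ := by
  have hw : (w : ℂ × ℂ) = χ 1 := by
    have h := hγ 0
    rw [γ.source] at h
    simpa using h
  have h1 : (cc w)⁻¹ = loopClass
      (((rp (scal w) (scal_per w) 1).cast (scal_zero w).symm (scal_zero w).symm).symm) := rfl
  rw [h1]
  refine loopClass_eq ?_
  refine homotopic_of_lift (E := ℝ × ℂ) (fun p => (⟨e (-p.1) • χ p.2,
    smul_mem_W (e_ne _) (hχW _)⟩ : W)) ?_ _ _ (fun t => ((t : ℝ), e t))
    (fun t => ((t : ℝ), 1)) ?_ ?_ ?_ ?_ ?_ ?_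
  · have := e_continuous
    fun_prop
  · have := e_continuous
    fun_prop
  · fun_prop
  · intro t
    exact Subtype.ext (hγ t)
  · intro t
    refine Subtype.ext ?_
    change e (((1 : ℕ) : ℝ) * (1 - (t : ℝ))) • (w : ℂ × ℂ) = e (-t) • χ 1
    rw [← hw]
    congr 1
    have := e_per (-t)
    rw [← this]
    congr 1
    push_cast
    ring
  · simp
  · simp

/-- elements of the form `r c ^ (m j)` -/
def Nm (m : ℕ) (w : W) : Subgroup (FundamentalGroup W w) where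
  carrier := {x | ∃ r ∈ R w, ∃ j : ℤ, x = r * cc w ^ ((m : ℤ) * j)}
  one_mem' := ⟨1, Subgroup.one_mem _, 0, by simp⟩
  mul_mem' := by
    rintro a b ⟨r, hr, j, rfl⟩ ⟨r', hr', j', rfl⟩
    refine ⟨r * r', Subgroup.mul_mem _ hr hr', j + j', ?_⟩
    have hc : Commute r' (cc w ^ ((m : ℤ) * j)) :=
      (show Commute r' (cc w) from cc_central r').zpow_right _
    rw [mul_add, zpow_add]
    calc r * cc w ^ ((m : ℤ) * j) * (r' * cc w ^ ((m : ℤ) * j'))
        = r * (cc w ^ ((m : ℤ) * j) * r') * cc w ^ ((m : ℤ) * j') := by group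
      _ = r * (r' * cc w ^ ((m : ℤ) * j)) * cc w ^ ((m : ℤ) * j') := by rw [hc.eq]
      _ = _ := by group
  inv_mem' := by
    rintro a ⟨r, hr, j, rfl⟩
    refine ⟨r⁻¹, Subgroup.inv_mem _ hr, -j, ?_⟩
    have hc : Commute r⁻¹ (cc w ^ (-((m : ℤ) * j))) :=
      (show Commute r⁻¹ (cc w) from cc_central r⁻¹).zpow_right _
    rw [mul_inv_rev, ← zpow_neg, mul_neg, hc.eq]

theorem mem_Nm {m : ℕ} {w : W} {x : FundamentalGroup W w} :
    x ∈ Nm m w ↔ ∃ r ∈ R w, ∃ j : ℤ, x = r * cc w ^ ((m : ℤ) * j) := Iff.rfl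

theorem R_conj' {w : W} (g : FundamentalGroup W w) {r : FundamentalGroup W w} (hr : r ∈ R w) :
    g * r * g⁻¹ ∈ R w := by
  have h := R_conj (w := w) (y := w) (g⁻¹ : FundamentalGroup W w) hr
  rw [conjHom_loop, inv_inv] at h
  exact h

instance Nm_normal (m : ℕ) (w : W) : (Nm m w).Normal := by
  refine ⟨?_⟩
  rintro x ⟨r, hr, j, rfl⟩ g
  refine ⟨g * r * g⁻¹, R_conj' g hr, j, ?_⟩
  have hc : Commute g⁻¹ (cc w ^ ((m : ℤ) * j)) :=
    (show Commute g⁻¹ (cc w) from cc_central g⁻¹).zpow_right _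
  calc g * (r * cc w ^ ((m : ℤ) * j)) * g⁻¹
      = g * r * (cc w ^ ((m : ℤ) * j) * g⁻¹) := by group
    _ = g * r * (g⁻¹ * cc w ^ ((m : ℤ) * j)) := by rw [hc.eq]
    _ = _ := by group

theorem cc_pow_mem_Nm {m : ℕ} {w : W} {k : ℕ} (h : cc w ^ k ∈ Nm m w) : m ∣ k := by
  obtain ⟨r, hr, j, hj⟩ := h
  have h1 : cc w ^ ((k : ℤ) - (m : ℤ) * j) ∈ R w := by
    rw [zpow_sub, zpow_natCast, hj, mul_inv_cancel_right]
    exact hr
  have h2 : (k : ℤ) - (m : ℤ) * j = 0 := by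
    rcases lt_trichotomy ((k : ℤ) - (m : ℤ) * j) 0 with h3 | h3 | h3
    · exfalso
      obtain ⟨n, hn⟩ := Int.eq_ofNat_of_zero_le (show 0 ≤ -((k : ℤ) - (m : ℤ) * j) by omega)
      have h4 := Subgroup.inv_mem _ h1
      rw [← zpow_neg, hn, zpow_natCast] at h4
      exact cc_pow_notMem n (by omega) w h4
    · exact h3
    · exfalso
      obtain ⟨n, hn⟩ := Int.eq_ofNat_of_zero_le h3.le
      rw [hn, zpow_natCast] at h1
      exact cc_pow_notMem n (by omega) w h1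
  have h5 : (k : ℤ) = (m : ℤ) * j := by omega
  exact Int.natCast_dvd_natCast.1 ⟨j, h5⟩

/-- the main topological result -/
theorem dvd_index {G : Type*} [Group G] (Φ : G ≃* FundamentalGroup W w0) (S : Set G) (m : ℕ)
    (hS : ∀ g ∈ S, Φ g ∈ R w0 ∨ Φ g = ((cc w0)⁻¹) ^ m)
    (h0 : Φ.symm (conjHom (Path.Homotopic.Quotient.mk pw) (loopAt f0 f0_per 1 f0_zero) ^ 3) ∈ S)
    (h2 : Φ.symm (conjHom (Path.Homotopic.Quotient.mk pw) (loopAt f2 f2_per 1 f2_zero) ^ 3) ∈ S)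
    (hX : Φ.symm (loopAt fX fX_per 1 fX_zero ^ 3) ∈ S)
    (A : Subgroup (G ⧸ Subgroup.normalClosure S)) (hA : ∀ a ∈ A, ∀ b ∈ A, a * b = b * a)
    (hn : A.index ≠ 0) : m ∣ 3 * A.index := by
  set π : G →* G ⧸ Subgroup.normalClosure S := QuotientGroup.mk' _ with hπ
  have hker : ∀ g ∈ S, π g = 1 := by
    intro g hg
    exact (QuotientGroup.eq_one_iff g).2 (Subgroup.subset_normalClosure hg)
  have key := central_pow_eq_one A hA hn (π (Φ.symm (cc w0))) ?_
    (π (Φ.symm (conjHom (Path.Homotopic.Quotient.mk pw) (loopAt f0 f0_per 1 f0_zero))))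
    (π (Φ.symm (conjHom (Path.Homotopic.Quotient.mk pw) (loopAt f2 f2_per 1 f2_zero))))
    (π (Φ.symm (loopAt fX fX_per 1 fX_zero)))
    ?_ ?_ ?_ ?_
  · rw [← map_pow, ← map_pow] at key
    have h3 : Φ.symm (cc w0 ^ (3 * A.index)) ∈ Subgroup.normalClosure S :=
      (QuotientGroup.eq_one_iff _).1 key
    have h4 : Subgroup.normalClosure S ≤ (Nm m w0).comap Φ.toMonoidHom := by
      refine Subgroup.normalClosure_le_normal ?_
      intro g hg
      change Φ g ∈ Nm m w0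
      rcases hS g hg with h | h
      · exact ⟨Φ g, h, 0, by simp⟩
      · rw [h]
        refine ⟨1, Subgroup.one_mem _, -1, ?_⟩
        simp
    have h5 := h4 h3
    have h6 : Φ (Φ.symm (cc w0 ^ (3 * A.index))) ∈ Nm m w0 := h5
    rw [MulEquiv.apply_symm_apply] at h6
    exact cc_pow_mem_Nm h6
  · intro g
    obtain ⟨g, rfl⟩ := QuotientGroup.mk'_surjective _ g
    change π g * _ = _ * π g
    rw [← map_mul, ← map_mul]
    congr 1
    apply Φ.injective
    rw [map_mul, map_mul, MulEquiv.apply_symm_apply]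
    exact cc_central _
  · rw [← map_pow, ← map_pow]
    exact hker _ h0
  · rw [← map_pow, ← map_pow]
    exact hker _ h2
  · rw [← map_pow, ← map_pow]
    exact hker _ hX
  · rw [← map_mul, ← map_mul, ← map_mul, ← map_mul, ← cc_w0_eq]

end

end Pool.Agent.TH192
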