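import Mathlib
import Pool.Agent.TH192.Top

/-!
# Transport along homeomorphisms
-/

open unitInterval Topology CategoryTheory

namespace Pool.Agent.TH192

noncomputable section

variable {Y Z : Type*} [TopologicalSpace Y] [TopologicalSpace Z]

theorem loopClass_conj {y0 y1 : Y} (δ : Path y0 y1) (γ : Path y1 y1) :
    loopClass ((δ.trans γ).trans δ.symm) =
      conjHom (Path.Homotopic.Quotient.mk δ) (loopClass γ) := by
  rw [conjHom_apply]
  unfold loopClass
  rw [Path.Homotopic.Quotient.mk_trans, Path.Homotopic.Quotient.mk_trans,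
    Path.Homotopic.Quotient.mk_symm, Path.Homotopic.Quotient.trans_assoc]

/-- the isomorphism of fundamental groups induced by a homeomorphism -/
def homeoEquiv (h : Y ≃ₜ Z) {y : Y} {z : Z} (hyz : h y = z) :
    FundamentalGroup Y y ≃* FundamentalGroup Z z :=
  MulEquiv.ofBijective (FundamentalGroup.mapOfEq (h : C(Y, Z)) hyz) (by
    subst hyz
    have e1 : ∀ g : FundamentalGroup Y y,
        FundamentalGroup.mapOfEq (h : C(Y, Z)) (rfl : h y = h y) g =
          FundamentalGroup.map (h : C(Y, Z)) y g := mapOfEq_rfl _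
    constructor
    · intro a b hab
      rw [e1, e1] at hab
      have h2 : ∀ g : FundamentalGroup Y y,
          FundamentalGroup.mapOfEq (h.symm : C(Z, Y)) (h.symm_apply_apply y)
            (FundamentalGroup.map (h : C(Y, Z)) y g) = g := by
        intro g
        induction g using Path.Homotopic.Quotient.ind with | mk γ =>
        change FundamentalGroup.mapOfEq (h.symm : C(Z, Y)) (h.symm_apply_apply y)
          (loopClass (γ.map h.continuous)) = loopClass γ
        rw [FundamentalGroup.mapOfEq_apply]
        unfold loopClass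
        rw [← Path.Homotopic.Quotient.mk_map, ← Path.Homotopic.Quotient.mk_cast]
        congr 1
        ext t
        exact h.symm_apply_apply _
      rw [← h2 a, hab, h2 b]
    · intro g
      induction g using Path.Homotopic.Quotient.ind with | mk γ =>
      refine ⟨loopClass ((γ.map h.symm.continuous).cast (h.symm_apply_apply y).symm
        (h.symm_apply_apply y).symm), ?_⟩
      rw [e1]
      change loopClass _ = loopClass γ
      congr 1
      ext t
      exact h.apply_symm_apply _)

theorem homeoEquiv_conj (h : Y ≃ₜ Z) {y0 y1 : Y} {z : Z} (hyz : h y0 = z) (δ : Path y0 y1)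
    (γ : Path y1 y1) : homeoEquiv h hyz (loopClass ((δ.trans γ).trans δ.symm)) =
      conjHom (Path.Homotopic.Quotient.mk ((δ.map h.continuous).cast hyz.symm rfl))
        (loopClass (γ.map h.continuous)) := by
  subst hyz
  rw [← loopClass_conj]
  have e1 : ∀ g : FundamentalGroup Y y0,
      homeoEquiv h (rfl : h y0 = h y0) g = FundamentalGroup.map (h : C(Y, Z)) y0 g := by
    intro g
    exact mapOfEq_rfl (h : C(Y, Z)) g
  rw [e1]
  change loopClass (((δ.trans γ).trans δ.symm).map h.continuous) = _
  congr 1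
  rw [Path.map_trans, Path.map_trans]
  rfl

theorem homeoEquiv_symm_conj (h : Y ≃ₜ Z) {y0 : Y} {z z1 : Z} (hyz : h y0 = z) (δ : Path z z1)
    (γ : Path z1 z1) (n : ℕ) : (homeoEquiv h hyz).symm
      (conjHom (Path.Homotopic.Quotient.mk δ) (loopClass γ) ^ n) =
      loopClass ((((δ.map h.symm.continuous).cast (show y0 = h.symm z by
        rw [← hyz, h.symm_apply_apply]) rfl).trans (γ.map h.symm.continuous)).trans
        ((δ.map h.symm.continuous).cast (show y0 = h.symm z by
        rw [← hyz, h.symm_apply_apply]) rfl).symm) ^ n := by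
  apply (homeoEquiv h hyz).injective
  rw [MulEquiv.apply_symm_apply, map_pow]
  congr 1
  rw [homeoEquiv_conj]
  have h1 : ∀ (z1' : Z) (hz : z1' = z1) (δ' : Path z z1') (γ' : Path z1' z1'),
      (∀ t, δ' t = δ t) → (∀ t, γ' t = γ t) →
      conjHom (Path.Homotopic.Quotient.mk δ) (loopClass γ) =
        conjHom (Path.Homotopic.Quotient.mk δ') (loopClass γ') := by
    rintro z1' rfl δ' γ' hδ hγ
    have e1 : δ' = δ := by ext t; exact hδ t
    have e2 : γ' = γ := by ext t; exact hγ t
    rw [e1, e2]
  refine h1 _ (h.apply_symm_apply z1) _ _ ?_ ?_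
  · intro t
    exact h.apply_symm_apply _
  · intro t
    exact h.apply_symm_apply _

/-- the cube of the boundary loop of a disc -/
theorem boundary_cube_mem_R {w w' : W} (φ : ℂ → ℂ × ℂ) (hφ : IsDisc φ) (γ : Path w w)
    (hγ : ∀ t : I, (γ t : ℂ × ℂ) = φ (e t)) (δ : Path.Homotopic.Quotient w' w) :
    conjHom δ (loopClass γ) ^ 3 ∈ R w' := by
  rw [← map_pow]
  refine R_conj δ ?_
  have hw : bdry φ hφ 0 = w := by
    refine Subtype.ext ?_
    have h := hγ 0
    rw [γ.source] at h
    rw [h]
    change φ (e 0) = φ (e ((0 : I) : ℝ))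
    simp
  have h1 := cube_mem_R φ hφ (bdry φ hφ) (bdry_per φ hφ) (fun t => rfl)
  have h2 : ∀ (w : W) (hw : bdry φ hφ 0 = w) (γ : Path w w),
      (∀ t : I, (γ t : ℂ × ℂ) = φ (e t)) → loopClass γ ^ 3 ∈ R w := by
    rintro w rfl γ hγ
    have e1 : γ = rp (bdry φ hφ) (bdry_per φ hφ) 1 := by
      ext1
      funext t
      refine Subtype.ext ?_
      rw [hγ t, rp_apply]
      change φ (e t) = φ (e (((1 : ℕ) : ℝ) * t))
      simp
    rw [e1]
    exact h1
  exact h2 w hw γ hγ

end

end Pool.Agent.TH192
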