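import Mathlib
import Pool.Agent.TH192.Stk
import Pool.Agent.TH192.Defs

/-!
# Complex points of projective space
-/

open AlgebraicGeometry CategoryTheory ClusterLift

namespace Pool.Agent.TH192.PP

open Pool.Agent.TH192.Orb

attribute [local instance] MvPolynomial.gradedAlgebra

noncomputable section

section Gen

variable {X : Scheme.{0}} {s : X ⟶ Spec (CommRingCat.of ℂ)}

/-- evaluation at a complex point -/
def evc (x : CPoint s) : X.presheaf.stalk x.pt →+* ℂ := x.value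

theorem eval_eq (x : CPoint s) {U : X.Opens} (f : Γ(X, U)) (h : x.pt ∈ U) :
    x.eval f = evc x (X.presheaf.germ U x.pt h f) := by
  unfold CPoint.eval
  rw [dif_pos h]
  rfl

theorem evc_isUnit (x : CPoint s) (a : X.presheaf.stalk x.pt) : IsUnit a ↔ evc x a ≠ 0 := by
  rw [← isUnit_iff_ne_zero]
  constructor
  · intro h
    exact h.map _
  · intro h
    exact (Scheme.isLocalHom_stalkClosedPointTo' (R := ℂ) x.1).map_nonunit a h

theorem spec_evc (x : CPoint s) :
    Spec.map (CommRingCat.ofHom (evc x)) ≫ X.fromSpecStalk x.pt = x.1 :=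
  Scheme.Spec_stalkClosedPointTo_fromSpecStalk x.1

theorem mor_ext {x y : Spec (CommRingCat.of ℂ) ⟶ X}
    (hpt : x (IsLocalRing.closedPoint (CommRingCat.of ℂ)) =
      y (IsLocalRing.closedPoint (CommRingCat.of ℂ)))
    (h : ∀ (U : X.Opens) (hx : x (IsLocalRing.closedPoint (CommRingCat.of ℂ)) ∈ U)
      (hy : y (IsLocalRing.closedPoint (CommRingCat.of ℂ)) ∈ U),
      X.presheaf.germ U _ hx ≫ Scheme.stalkClosedPointTo x =
        X.presheaf.germ U _ hy ≫ Scheme.stalkClosedPointTo y) : x = y := by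
  apply (SpecToEquivOfLocalRing X (CommRingCat.of ℂ)).injective
  rw [SpecToEquivOfLocalRing_eq_iff]
  refine ⟨hpt, ?_⟩
  refine TopCat.Presheaf.stalk_hom_ext _ fun U hxU => ?_
  have hy : y (IsLocalRing.closedPoint (CommRingCat.of ℂ)) ∈ U := hpt ▸ hxU
  have e := TopCat.Presheaf.germ_stalkSpecializes_assoc X.presheaf (U := U) hxU
    (specializes_of_eq hpt.symm) (Scheme.stalkClosedPointTo y)
  exact (h U hxU hy).trans e.symm

theorem cpoint_ext {x y : CPoint s} (hpt : x.pt = y.pt)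
    (h : ∀ (U : X.Opens) (f : Γ(X, U)), x.pt ∈ U → x.eval f = y.eval f) : x = y := by
  apply Subtype.ext
  refine mor_ext hpt ?_
  intro U hx hy
  ext f
  have h1 := h U f hx
  rw [eval_eq x f hx, eval_eq y f hy] at h1
  exact h1

/-- the set of the complex points in an open set is open -/
theorem isOpen_pt (U : X.Opens) : IsOpen {x : CPoint s | x.pt ∈ U} := by
  have h : {x : CPoint s | x.pt ∈ U} =
      {x : CPoint s | x.pt ∈ U ∧ x.eval (0 : Γ(X, U)) ∈ (Set.univ : Set ℂ)} := by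
    ext x
    simp
  rw [h]
  exact TopologicalSpace.isOpen_generateFrom_of_mem ⟨U, 0, Set.univ, isOpen_univ, rfl⟩

theorem continuousAt_eval (U : X.Opens) (f : Γ(X, U)) (x : CPoint s) (hx : x.pt ∈ U) :
    ContinuousAt (fun y : CPoint s => y.eval f) x := by
  rw [ContinuousAt, tendsto_nhds]
  intro V hV hxV
  refine Filter.mem_of_superset (IsOpen.mem_nhds
    (TopologicalSpace.isOpen_generateFrom_of_mem ⟨U, f, V, hV, rfl⟩) ⟨hx, hxV⟩) ?_
  rintro y ⟨-, hy⟩
  exact hy

theorem continuousAt_of {T : Type*} [TopologicalSpace T] (F : T → CPoint s) (t : T)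
    (h : ∀ (U : X.Opens) (f : Γ(X, U)), (F t).pt ∈ U →
      (∀ᶠ u in nhds t, (F u).pt ∈ U) ∧ ContinuousAt (fun u => (F u).eval f) t) :
    ContinuousAt F t := by
  rw [ContinuousAt, TopologicalSpace.nhds_generateFrom]
  simp only [Filter.tendsto_iInf, Filter.tendsto_principal]
  rintro S ⟨hS, U, f, V, hV, rfl⟩
  obtain ⟨h1, h2⟩ := h U f hS.1
  filter_upwards [h1, h2.eventually (hV.mem_nhds hS.2)] with u hu1 hu2
  exact ⟨hu1, hu2⟩

end Gen

variable {n : ℕ}

theorem kst_evc (x : CPoint (PSpace.toSpec n ℂ)) (c : ℂ) : evc x (kst x.pt c) = c := by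
  have h1 : Spec.map (CommRingCat.ofHom (evc x)) ≫ (PSpace n ℂ).fromSpecStalk x.pt ≫
      PSpace.toSpec n ℂ = 𝟙 _ := by
    rw [← Category.assoc, spec_evc]
    exact x.2
  rw [fromSpecStalk_toSpec, ← Spec.map_comp, ← Spec.map_id] at h1
  have h2 := Spec.map_injective h1
  exact congrArg (fun f => f.hom c) h2

/-- the open set `X_i ≠ 0` -/
def bo (i : Fin (n + 1)) : (PSpace n ℂ).Opens := Proj.basicOpen (grading n ℂ) (MvPolynomial.X i)

/-- the section `X_j / X_i` -/
def sec (i j : Fin (n + 1)) : Γ(PSpace n ℂ, bo i) :=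
  (Proj.awayToSection (grading n ℂ) (MvPolynomial.X i)).hom
    (HomogeneousLocalization.mk ⟨1, ⟨MvPolynomial.X j, X_hom j⟩, ⟨MvPolynomial.X i, X_hom i⟩,
      Submonoid.mem_powers _⟩)

theorem mem_bo (E : PSpace n ℂ) (i : Fin (n + 1)) : E ∈ bo i ↔ MvPolynomial.X i ∉ hi E := Iff.rfl

theorem germ_sec (i j : Fin (n + 1)) (E : PSpace n ℂ) (hE : MvPolynomial.X i ∉ hi E) :
    (PSpace n ℂ).presheaf.germ (bo i) E hE (sec i j) =
      psi E i hE (MvPolynomial.X j) := by
  have h2 : psi E i hE (MvPolynomial.X j) =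
      fr E 1 (MvPolynomial.X j) (MvPolynomial.X i) (X_hom j) (X_hom i) hE := by
    unfold psi
    rw [MvPolynomial.coe_eval₂Hom, MvPolynomial.eval₂_X]
  rw [h2]
  have e1 := ProjectiveSpectrum.Proj.awayToSection_germ (grading n ℂ)
    (MvPolynomial.X i : MvPolynomial (Fin (n + 1)) ℂ) E hE
  exact congrArg (fun f => f.hom (HomogeneousLocalization.mk ⟨1, ⟨MvPolynomial.X j, X_hom j⟩,
    ⟨MvPolynomial.X i, X_hom i⟩, Submonoid.mem_powers _⟩)) e1

/-- the coordinates in the chart `X_i ≠ 0` -/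
def cd (i : Fin (n + 1)) (x : CPoint (PSpace.toSpec n ℂ)) : Fin (n + 1) → ℂ :=
  fun j => x.eval (sec i j)

theorem cd_apply (i j : Fin (n + 1)) (x : CPoint (PSpace.toSpec n ℂ))
    (hx : MvPolynomial.X i ∉ hi x.pt) : cd i x j = evc x (psi x.pt i hx (MvPolynomial.X j)) := by
  unfold cd
  rw [eval_eq x _ hx, germ_sec]

theorem evc_psi (i : Fin (n + 1)) (x : CPoint (PSpace.toSpec n ℂ))
    (hx : MvPolynomial.X i ∉ hi x.pt) (f : MvPolynomial (Fin (n + 1)) ℂ) :
    evc x (psi x.pt i hx f) = MvPolynomial.eval (cd i x) f := by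
  have h : (evc x).comp (psi x.pt i hx) = MvPolynomial.eval (cd i x) := by
    apply MvPolynomial.ringHom_ext
    · intro c
      have h1 : psi x.pt i hx (MvPolynomial.C c) = kst x.pt c := by
        rw [psi, MvPolynomial.coe_eval₂Hom, MvPolynomial.eval₂_C]
      rw [RingHom.comp_apply, h1, kst_evc, MvPolynomial.eval_C]
    · intro j
      rw [RingHom.comp_apply, MvPolynomial.eval_X, cd_apply]
  exact congrArg (fun g => g f) h

theorem mem_pt_iff {i : Fin (n + 1)} {x : CPoint (PSpace.toSpec n ℂ)}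
    (hx : MvPolynomial.X i ∉ hi x.pt) {d : ℕ} {f : MvPolynomial (Fin (n + 1)) ℂ}
    (hf : f.IsHomogeneous d) : f ∈ hi x.pt ↔ MvPolynomial.eval (cd i x) f = 0 := by
  have h1 := isUnit_psi x.pt i hx d f hf
  rw [evc_isUnit, evc_psi] at h1
  tauto

theorem evc_fr {i : Fin (n + 1)} {x : CPoint (PSpace.toSpec n ℂ)}
    (hx : MvPolynomial.X i ∉ hi x.pt) (d : ℕ) (f g : MvPolynomial (Fin (n + 1)) ℂ)
    (hf : f.IsHomogeneous d) (hg : g.IsHomogeneous d) (hgE : g ∉ hi x.pt) :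
    evc x (fr x.pt d f g hf hg hgE) =
      MvPolynomial.eval (cd i x) f / MvPolynomial.eval (cd i x) g := by
  have h1 := congrArg (evc x) (fr_mul_psi x.pt i hx d f g hf hg hgE)
  rw [map_mul, evc_psi, evc_psi] at h1
  have h2 : MvPolynomial.eval (cd i x) g ≠ 0 := fun h => hgE ((mem_pt_iff hx hg).2 h)
  rw [← h1, mul_div_cancel_right₀ _ h2]

/-- sections are locally fractions -/
theorem locally_frac (U : (PSpace n ℂ).Opens) (f : Γ(PSpace n ℂ, U)) (E0 : PSpace n ℂ)
    (hE0 : E0 ∈ U) : ∃ (d e : ℕ) (a b g : MvPolynomial (Fin (n + 1)) ℂ) (ha : a.IsHomogeneous d)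
      (hb : b.IsHomogeneous d) (_ : g.IsHomogeneous e), g ∉ hi E0 ∧
      ∀ E : PSpace n ℂ, g ∉ hi E → ∃ (hU : E ∈ U) (hbE : b ∉ hi E),
        (PSpace n ℂ).presheaf.germ U E hU f = fr E d a b ha hb hbE := by
  obtain ⟨V, hxV, i, m, a, b, hb, e⟩ := f.2 ⟨E0, hE0⟩
  obtain ⟨B, ⟨g0, rfl⟩, hxB, hBV⟩ :=
    (ProjectiveSpectrum.isTopologicalBasis_basic_opens (grading n ℂ)).exists_subset_of_mem_open
      hxV V.isOpen
  have hg0 : g0 ∉ hi E0 := hxB
  obtain ⟨e', he'⟩ : ∃ e', ((DirectSum.decompose (grading n ℂ) g0 e' : grading n ℂ e') :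
      MvPolynomial (Fin (n + 1)) ℂ) ∉ hi E0 := by
    by_contra hcon
    push Not at hcon
    apply hg0
    classical
    rw [← DirectSum.sum_support_decompose (grading n ℂ) g0]
    exact Ideal.sum_mem _ fun e _ => hcon e
  refine ⟨m, e', a, b, _, a.2, b.2, (DirectSum.decompose (grading n ℂ) g0 e').2, he', ?_⟩
  intro E hE
  have hE1 : g0 ∉ hi E := fun h => hE ((hi E).isHomogeneous e' h)
  have hEV : E ∈ V := hBV hE1
  refine ⟨i.le hEV, hb ⟨E, hEV⟩, ?_⟩
  apply (Proj.stalkIso' (grading n ℂ) E).injective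
  refine (Proj.stalkIso'_germ (grading n ℂ) U E (i.le hEV) f).trans ?_
  refine Eq.trans ?_ ((Proj.stalkIso' (grading n ℂ) E).apply_symm_apply _).symm
  exact e ⟨E, hEV⟩

end

end Pool.Agent.TH192.PP
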