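import Mathlib
import Pool.Agent.TH192.Pts

/-!
# Points with given coordinates, continuity
-/

open AlgebraicGeometry CategoryTheory ClusterLift

namespace Pool.Agent.TH192.PP

open Pool.Agent.TH192.Orb

attribute [local instance] MvPolynomial.gradedAlgebra

noncomputable section

variable {n : ℕ}

/-- the point of projective space with homogeneous coordinates `v` -/
def ptv (v : Fin (n + 1) → ℂ) (i : Fin (n + 1)) (hv : v i = 1) : PSpace n ℂ :=
  (⟨Ideal.homogeneousCore (grading n ℂ) (RingHom.ker (MvPolynomial.eval v)), by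
      exact Ideal.IsPrime.homogeneousCore (RingHom.ker_isPrime _), by
      intro h
      have h1 : (MvPolynomial.X i : MvPolynomial (Fin (n + 1)) ℂ) ∈
          HomogeneousIdeal.irrelevant (grading n ℂ) :=
        HomogeneousIdeal.mem_irrelevant_of_mem _ one_pos (MvPolynomial.isHomogeneous_X _ _)
      have h2 : (MvPolynomial.X i : MvPolynomial (Fin (n + 1)) ℂ) ∈
          RingHom.ker (MvPolynomial.eval v) := Ideal.toIdeal_homogeneousCore_le _ _ (h h1)
      rw [RingHom.mem_ker, MvPolynomial.eval_X, hv] at h2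
      exact one_ne_zero h2⟩ : ProjectiveSpectrum (grading n ℂ))

theorem mem_ptv {v : Fin (n + 1) → ℂ} {i : Fin (n + 1)} {hv : v i = 1} {d : ℕ}
    {f : MvPolynomial (Fin (n + 1)) ℂ} (hf : f.IsHomogeneous d) :
    f ∈ hi (ptv v i hv) ↔ MvPolynomial.eval v f = 0 := by
  constructor
  · intro h
    exact Ideal.toIdeal_homogeneousCore_le _ _ h
  · intro h
    exact Ideal.mem_homogeneousCore_of_homogeneous_of_mem ⟨d, hf⟩ h

theorem X_notMem_ptv {v : Fin (n + 1) → ℂ} {i : Fin (n + 1)} {hv : v i = 1} :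
    MvPolynomial.X i ∉ hi (ptv v i hv) := by
  rw [mem_ptv (X_hom i), MvPolynomial.eval_X, hv]
  exact one_ne_zero

theorem eval_dehom (v : Fin (n + 1) → ℂ) (i : Fin (n + 1)) (hv : v i = 1)
    (Q : MvPolynomial (Fin (n + 1)) ℂ) :
    MvPolynomial.eval (fun l => v (i.succAbove l)) (PSdehom n ℂ i Q) = MvPolynomial.eval v Q := by
  have h : (MvPolynomial.eval (fun l => v (i.succAbove l))).comp
      (PSdehom n ℂ i : MvPolynomial (Fin (n + 1)) ℂ →+* MvPolynomial (Fin n) ℂ) =
      MvPolynomial.eval v := by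
    apply MvPolynomial.ringHom_ext
    · intro c
      have h1 : PSdehom n ℂ i (MvPolynomial.C c) = MvPolynomial.C c := by
        have h := (PSdehom n ℂ i).commutes c
        rw [MvPolynomial.algebraMap_eq, MvPolynomial.algebraMap_eq] at h
        exact h
      rw [RingHom.comp_apply, RingHom.coe_coe, h1, MvPolynomial.eval_C, MvPolynomial.eval_C]
    · intro j
      rw [RingHom.comp_apply, RingHom.coe_coe]
      by_cases hj : j = i
      · rw [hj, PSdehom_self, map_one, MvPolynomial.eval_X, hv]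
      · obtain ⟨l, rfl⟩ := Fin.exists_succAbove_eq hj
        rw [PSdehom_succAbove, MvPolynomial.eval_X, MvPolynomial.eval_X]
  exact congrArg (fun g => g Q) h

/-- the evaluation homomorphism of the point -/
theorem exists_thv (v : Fin (n + 1) → ℂ) (i : Fin (n + 1)) (hv : v i = 1) :
    ∃ θ : (PSpace n ℂ).presheaf.stalk (ptv v i hv) →+* ℂ, ∀ f : MvPolynomial (Fin (n + 1)) ℂ,
      θ (psi (ptv v i hv) i X_notMem_ptv f) = MvPolynomial.eval v f := by
  let := (chi (ptv v i hv) i X_notMem_ptv).toAlgebra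
  have hloc := isLocalization_chi (ptv v i hv) i X_notMem_ptv
  have hunit : ∀ y : (pr (ptv v i hv) i X_notMem_ptv).primeCompl,
      IsUnit ((MvPolynomial.eval (fun l => v (i.succAbove l))) (y : MvPolynomial (Fin n) ℂ)) := by
    rintro ⟨y, hy⟩
    have hy' : y ∉ pr (ptv v i hv) i X_notMem_ptv := hy
    rw [mem_pr, not_not] at hy'
    obtain ⟨N, Q, hQ, rfl⟩ := PS_hom n ℂ i y
    rw [← psi_eq_chi, isUnit_psi _ _ _ N Q hQ, mem_ptv hQ] at hy'
    rw [isUnit_iff_ne_zero, eval_dehom v i hv]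
    exact hy'
  refine ⟨IsLocalization.lift (M := (pr (ptv v i hv) i X_notMem_ptv).primeCompl) hunit, ?_⟩
  intro f
  rw [psi_eq_chi, ← eval_dehom v i hv]
  exact IsLocalization.lift_eq hunit (PSdehom n ℂ i f)

def thv (v : Fin (n + 1) → ℂ) (i : Fin (n + 1)) (hv : v i = 1) :
    (PSpace n ℂ).presheaf.stalk (ptv v i hv) →+* ℂ := (exists_thv v i hv).choose

theorem thv_psi (v : Fin (n + 1) → ℂ) (i : Fin (n + 1)) (hv : v i = 1)
    (f : MvPolynomial (Fin (n + 1)) ℂ) :
    thv v i hv (psi (ptv v i hv) i X_notMem_ptv f) = MvPolynomial.eval v f :=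
  (exists_thv v i hv).choose_spec f

theorem thv_kst (v : Fin (n + 1) → ℂ) (i : Fin (n + 1)) (hv : v i = 1) (c : ℂ) :
    thv v i hv (kst (ptv v i hv) c) = c := by
  have h1 : psi (ptv v i hv) i X_notMem_ptv (MvPolynomial.C c) = kst (ptv v i hv) c := by
    rw [psi, MvPolynomial.coe_eval₂Hom, MvPolynomial.eval₂_C]
  rw [← h1, thv_psi, MvPolynomial.eval_C]

theorem thv_local (v : Fin (n + 1) → ℂ) (i : Fin (n + 1)) (hv : v i = 1) :
    IsLocalHom (thv v i hv) := by
  refine ⟨fun r hr => ?_⟩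
  obtain ⟨d, f, g, hf, hg, hgE, rfl⟩ := exists_fr r
  rw [isUnit_fr]
  intro hfE
  have h1 := congrArg (thv v i hv) (fr_mul_psi (ptv v i hv) i X_notMem_ptv d f g hf hg hgE)
  rw [map_mul, thv_psi, thv_psi, (mem_ptv hf).1 hfE] at h1
  rcases mul_eq_zero.1 h1 with h2 | h2
  · exact hr.ne_zero h2
  · exact hgE ((mem_ptv hg).2 h2)

/-- the complex point with homogeneous coordinates `v` -/
def xv (v : Fin (n + 1) → ℂ) (i : Fin (n + 1)) (hv : v i = 1) : CPoint (PSpace.toSpec n ℂ) :=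
  ⟨Spec.map (CommRingCat.ofHom (thv v i hv)) ≫ (PSpace n ℂ).fromSpecStalk (ptv v i hv), by
    rw [Category.assoc, fromSpecStalk_toSpec, ← Spec.map_comp, ← CommRingCat.ofHom_comp]
    have h : (thv v i hv).comp (kst (ptv v i hv)) = RingHom.id ℂ := by
      ext1 c
      exact thv_kst v i hv c
    rw [h]
    exact Spec.map_id _⟩

theorem pt_xv (v : Fin (n + 1) → ℂ) (i : Fin (n + 1)) (hv : v i = 1) :
    (xv v i hv).pt = ptv v i hv := by
  have hloc' : IsLocalHom (CommRingCat.ofHom (thv v i hv)).hom := thv_local v i hv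
  have h1 : (Spec.map (CommRingCat.ofHom (thv v i hv)))
      (IsLocalRing.closedPoint (CommRingCat.of ℂ)) =
    IsLocalRing.closedPoint ((PSpace n ℂ).presheaf.stalk (ptv v i hv)) :=
    Spec_closedPoint
  have h2 : (xv v i hv).pt = (PSpace n ℂ).fromSpecStalk (ptv v i hv)
      ((Spec.map (CommRingCat.ofHom (thv v i hv)))
      (IsLocalRing.closedPoint (CommRingCat.of ℂ))) := rfl
  rw [h2, h1]
  exact Scheme.fromSpecStalk_closedPoint

theorem eval_xv (v : Fin (n + 1) → ℂ) (i : Fin (n + 1)) (hv : v i = 1)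
    (U : (PSpace n ℂ).Opens) (f : Γ(PSpace n ℂ, U)) (h : ptv v i hv ∈ U) :
    (xv v i hv).eval f = thv v i hv ((PSpace n ℂ).presheaf.germ U (ptv v i hv) h f) := by
  have hloc := thv_local v i hv
  have h' : (xv v i hv).pt ∈ U := by rw [pt_xv]; exact h
  rw [eval_eq _ _ h']
  have hloc' : IsLocalHom (CommRingCat.ofHom (thv v i hv)).hom := hloc
  have e := Scheme.germ_stalkClosedPointTo_Spec_fromSpecStalk
    (CommRingCat.ofHom (thv v i hv)) U h'
  exact congrArg (fun g => g.hom f) e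

theorem cd_xv (v : Fin (n + 1) → ℂ) (i : Fin (n + 1)) (hv : v i = 1) :
    cd i (xv v i hv) = v := by
  funext j
  unfold cd
  rw [eval_xv v i hv (bo i) _ X_notMem_ptv, germ_sec, thv_psi, MvPolynomial.eval_X]

theorem X_notMem_xv (v : Fin (n + 1) → ℂ) (i : Fin (n + 1)) (hv : v i = 1) :
    MvPolynomial.X i ∉ hi (xv v i hv).pt := by
  rw [pt_xv]
  exact X_notMem_ptv

theorem cd_self (i : Fin (n + 1)) {x : CPoint (PSpace.toSpec n ℂ)}
    (hx : MvPolynomial.X i ∉ hi x.pt) : cd i x i = 1 := by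
  rw [cd_apply i i x hx]
  have h : psi x.pt i hx (MvPolynomial.X i) = 1 := by
    apply evS_injective
    rw [psi_hom x.pt i hx 1 _ (X_hom i), evS_fr, map_one, pow_one,
      div_self (toFr_ne (MvPolynomial.X_ne_zero i))]
  rw [h, map_one]

theorem eval_formula {i : Fin (n + 1)} {x : CPoint (PSpace.toSpec n ℂ)}
    (hx : MvPolynomial.X i ∉ hi x.pt) {U : (PSpace n ℂ).Opens} {f : Γ(PSpace n ℂ, U)}
    (hU : x.pt ∈ U) {d : ℕ} {a b : MvPolynomial (Fin (n + 1)) ℂ} {ha : a.IsHomogeneous d}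
    {hb : b.IsHomogeneous d} {hbE : b ∉ hi x.pt}
    (h : (PSpace n ℂ).presheaf.germ U x.pt hU f = fr x.pt d a b ha hb hbE) :
    x.eval f = MvPolynomial.eval (cd i x) a / MvPolynomial.eval (cd i x) b := by
  rw [eval_eq x f hU, h, evc_fr hx]

/-- a point is determined by its coordinates -/
theorem eq_of_cd {i : Fin (n + 1)} {x y : CPoint (PSpace.toSpec n ℂ)}
    (hx : MvPolynomial.X i ∉ hi x.pt) (hy : MvPolynomial.X i ∉ hi y.pt)
    (h : cd i x = cd i y) : x = y := by
  classical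
  have hle : ∀ {x y : CPoint (PSpace.toSpec n ℂ)}, MvPolynomial.X i ∉ hi x.pt →
      MvPolynomial.X i ∉ hi y.pt → cd i x = cd i y → ∀ f, f ∈ hi x.pt → f ∈ hi y.pt := by
    intro x y hx hy h f hf
    rw [← DirectSum.sum_support_decompose (grading n ℂ) f]
    refine Ideal.sum_mem _ fun e _ => ?_
    have h3 : ((DirectSum.decompose (grading n ℂ) f e : grading n ℂ e) :
        MvPolynomial (Fin (n + 1)) ℂ).IsHomogeneous e := (DirectSum.decompose (grading n ℂ) f e).2
    have h4 : ((DirectSum.decompose (grading n ℂ) f e : grading n ℂ e) :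
        MvPolynomial (Fin (n + 1)) ℂ) ∈ hi x.pt := (hi x.pt).isHomogeneous e hf
    rw [mem_pt_iff hx h3, h] at h4
    exact (mem_pt_iff hy h3).2 h4
  have hpt : x.pt = y.pt := by
    apply ProjectiveSpectrum.ext
    apply HomogeneousIdeal.ext
    apply le_antisymm
    · intro f hf
      exact hle hx hy h f hf
    · intro f hf
      exact hle hy hx h.symm f hf
  refine cpoint_ext hpt ?_
  intro U f hU
  obtain ⟨d, e, a, b, g, ha, hb, hg, hgx, hloc⟩ := locally_frac U f x.pt hU
  obtain ⟨hU1, hb1, h1⟩ := hloc x.pt hgx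
  obtain ⟨hU2, hb2, h2⟩ := hloc y.pt (hpt ▸ hgx)
  rw [eval_formula hx hU1 h1, eval_formula hy hU2 h2, h]

/-! ### continuity and analyticity of maps to projective space -/

section Cont

variable {T : Type*} [TopologicalSpace T] (F : T → CPoint (PSpace.toSpec n ℂ)) (t : T)
  (i : Fin (n + 1))

theorem near (ht : ∀ᶠ u in nhds t, MvPolynomial.X i ∉ hi (F u).pt)
    (hc : ContinuousAt (fun u => cd i (F u)) t) (U : (PSpace n ℂ).Opens)
    (f : Γ(PSpace n ℂ, U)) (hU : (F t).pt ∈ U) :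
    ∃ a b : MvPolynomial (Fin (n + 1)) ℂ, MvPolynomial.eval (cd i (F t)) b ≠ 0 ∧
      ∀ᶠ u in nhds t, (F u).pt ∈ U ∧
        (F u).eval f = MvPolynomial.eval (cd i (F u)) a / MvPolynomial.eval (cd i (F u)) b := by
  obtain ⟨d, e, a, b, g, ha, hb, hg, hgx, hloc⟩ := locally_frac U f (F t).pt hU
  have ht0 := ht.self_of_nhds
  obtain ⟨hU0, hb0, -⟩ := hloc (F t).pt hgx
  refine ⟨a, b, fun h => hb0 ((mem_pt_iff ht0 hb).2 h), ?_⟩
  have hcg : ContinuousAt (fun u => MvPolynomial.eval (cd i (F u)) g) t :=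
    (MvPolynomial.continuous_eval g).continuousAt.comp hc
  have hg0 : MvPolynomial.eval (cd i (F t)) g ≠ 0 := fun h => hgx ((mem_pt_iff ht0 hg).2 h)
  filter_upwards [ht, hcg.eventually_ne hg0] with u hu1 hu2
  have hgu : g ∉ hi (F u).pt := fun h => hu2 ((mem_pt_iff hu1 hg).1 h)
  obtain ⟨hU1, hb1, h1⟩ := hloc (F u).pt hgu
  exact ⟨hU1, eval_formula hu1 hU1 h1⟩

theorem continuousAt_chart (ht : ∀ᶠ u in nhds t, MvPolynomial.X i ∉ hi (F u).pt)
    (hc : ContinuousAt (fun u => cd i (F u)) t) : ContinuousAt F t := by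
  refine continuousAt_of F t ?_
  intro U f hU
  obtain ⟨a, b, hb, h⟩ := near F t i ht hc U f hU
  refine ⟨h.mono fun u hu => hu.1, ?_⟩
  have h1 : ContinuousAt (fun u => MvPolynomial.eval (cd i (F u)) a /
      MvPolynomial.eval (cd i (F u)) b) t :=
    ((MvPolynomial.continuous_eval a).continuousAt.comp hc).div
      ((MvPolynomial.continuous_eval b).continuousAt.comp hc) hb
  exact h1.congr (h.mono fun u hu => hu.2.symm)

end Cont

theorem analyticAt_eval (v : ℂ → Fin (n + 1) → ℂ) (z : ℂ) (hv : ∀ j, AnalyticAt ℂ (fun w => v w j) z)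
    (a : MvPolynomial (Fin (n + 1)) ℂ) :
    AnalyticAt ℂ (fun w => MvPolynomial.eval (v w) a) z := by
  induction a using MvPolynomial.induction_on with
  | C c => simpa using analyticAt_const
  | add p q hp hq =>
    simp only [map_add]
    exact hp.fun_add hq
  | mul_X p j hp =>
    simp only [map_mul, MvPolynomial.eval_X]
    exact hp.fun_mul (hv j)

theorem analyticAt_chart (F : ℂ → CPoint (PSpace.toSpec n ℂ)) (z : ℂ) (i : Fin (n + 1))
    (ht : ∀ᶠ u in nhds z, MvPolynomial.X i ∉ hi (F u).pt)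
    (hv : ∀ j, AnalyticAt ℂ (fun w => cd i (F w) j) z) (U : (PSpace n ℂ).Opens)
    (f : Γ(PSpace n ℂ, U)) (hU : (F z).pt ∈ U) : AnalyticAt ℂ (fun w => (F w).eval f) z := by
  have hc : ContinuousAt (fun u => cd i (F u)) z :=
    continuousAt_pi.2 fun j => (hv j).continuousAt
  obtain ⟨a, b, hb, h⟩ := near F z i ht hc U f hU
  have h1 : AnalyticAt ℂ (fun u => MvPolynomial.eval (cd i (F u)) a /
      MvPolynomial.eval (cd i (F u)) b) z :=
    (analyticAt_eval _ z hv a).div (analyticAt_eval _ z hv b) hb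
  exact h1.congr (h.mono fun u hu => hu.2.symm)

end

end Pool.Agent.TH192.PP
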