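import Mathlib
import Pool.Agent.TH192.Pts2
import Pool.Agent.TH192.Fano
import Pool.Agent.TH192.Homeo

/-!
# The complement of the four lines in the projective plane
-/

open AlgebraicGeometry CategoryTheory ClusterLift

namespace Pool.Agent.TH192.PP

open Pool.Agent.TH192.Orb

attribute [local instance] MvPolynomial.gradedAlgebra

noncomputable section

/-- the structure morphism of the plane -/
abbrev sP : PSpace 2 ℂ ⟶ Spec (CommRingCat.of ℂ) := PSpace.toSpec 2 ℂ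

theorem cf_ge {m : ℕ} (hm : 2 ≤ m) (a : Fin 4) : 1 / 2 ≤ cf m a := by
  have h1 : (2 : ℝ) ≤ m := by exact_mod_cast hm
  have h2 : 1 / (m : ℝ) ≤ 1 / 2 := one_div_le_one_div_of_le (by norm_num) h1
  fin_cases a
  · change 1 / 2 ≤ 1 - 1 / (m : ℝ)
    linarith
  · change (1 / 2 : ℝ) ≤ 2 / 3
    norm_num
  · change (1 / 2 : ℝ) ≤ 2 / 3
    norm_num
  · change (1 / 2 : ℝ) ≤ 2 / 3
    norm_num

theorem isSt_iff {m : ℕ} (hm : 2 ≤ m) (E : PSpace 2 ℂ) :
    IsStComponent (DD m) E ↔ ∃ a, E = HH a := by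
  constructor
  · rintro ⟨hE, h⟩
    rcases DD_cases m hE with ⟨a, ha, -⟩ | ⟨-, h0⟩
    · exact ⟨a, ha⟩
    · rw [h0] at h
      norm_num at h
  · rintro ⟨a, rfl⟩
    refine ⟨HH_prime a, ?_⟩
    rw [DD_HH]
    exact cf_ge hm a

theorem mem_orb {m : ℕ} (hm : 2 ≤ m) (x : CPoint sP) :
    x ∈ OrbSpace sP (DD m) ↔ ∀ a, lf a ∉ hi x.pt := by
  constructor
  · rintro ⟨-, h⟩ a ha
    exact h (HH a) ((isSt_iff hm _).2 ⟨a, rfl⟩) ((HH_specializes a _).2 ha)
  · intro h
    refine ⟨regular_stalk _, ?_⟩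
    intro E hE hEx
    obtain ⟨a, rfl⟩ := (isSt_iff hm E).1 hE
    exact h a ((HH_specializes a _).1 hEx)

theorem HH_injective : Function.Injective HH := by
  intro a b h
  have h1 : lf a ∈ hi (HH b) := by rw [← h]; exact (mem_HH a a).2 rfl
  exact ((mem_HH b a).1 h1).symm

/-! ### indices -/

theorem index_three {m : ℕ} {a : Fin 4} (ha : a ≠ 0) : HasIndex (DD m) (HH a) 3 := by
  have h : DD m (HH a) = 2 / 3 := by
    rw [DD_HH]
    fin_cases a
    · exact absurd rfl ha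
    · rfl
    · rfl
    · rfl
  unfold HasIndex
  rw [h]
  constructor
  · refine ⟨by norm_num, by norm_num⟩
  · rintro k ⟨hk, hk2⟩
    by_contra hlt
    push Not at hlt
    have h1 : (4 : ℝ) ≤ k := by exact_mod_cast hlt
    have h2 : 1 / (k : ℝ) ≤ 1 / 4 := one_div_le_one_div_of_le (by norm_num) h1
    linarith

theorem index_m {m : ℕ} (hm : 0 < m) : HasIndex (DD m) (HH 0) m := by
  have h : DD m (HH 0) = 1 - 1 / m := by
    rw [DD_HH]
    rfl
  unfold HasIndex
  rw [h]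
  constructor
  · exact ⟨hm, le_rfl⟩
  · rintro k ⟨hk, hk2⟩
    by_contra hlt
    push Not at hlt
    have h1 : (m : ℝ) < k := by exact_mod_cast hlt
    have h0 : (0 : ℝ) < m := by exact_mod_cast hm
    have h2 : 1 / (k : ℝ) < 1 / m := one_div_lt_one_div_of_lt h0 h1
    linarith

/-! ### the homeomorphism -/

theorem X0_notMem {m : ℕ} (hm : 2 ≤ m) {x : CPoint sP} (hx : x ∈ OrbSpace sP (DD m)) :
    MvPolynomial.X 0 ∉ hi x.pt := (mem_orb hm x).1 hx 0

theorem lf_mem_iff {i : Fin 3} {x : CPoint sP} (hx : MvPolynomial.X i ∉ hi x.pt) (a : Fin 4) :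
    lf a ∈ hi x.pt ↔ MvPolynomial.eval (cd i x) (lf a) = 0 := mem_pt_iff hx (lf_hom a)

theorem eval_lf0 (v : Fin 3 → ℂ) : MvPolynomial.eval v (lf 0) = v 0 := MvPolynomial.eval_X _
theorem eval_lf1 (v : Fin 3 → ℂ) : MvPolynomial.eval v (lf 1) = v 1 := MvPolynomial.eval_X _
theorem eval_lf2 (v : Fin 3 → ℂ) : MvPolynomial.eval v (lf 2) = v 2 := MvPolynomial.eval_X _
theorem eval_lf3 (v : Fin 3 → ℂ) : MvPolynomial.eval v (lf 3) = v 1 - v 2 := by
  change MvPolynomial.eval v (MvPolynomial.X 1 - MvPolynomial.X 2) = _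
  rw [map_sub, MvPolynomial.eval_X, MvPolynomial.eval_X]

theorem coords_mem_W {m : ℕ} (hm : 2 ≤ m) {x : CPoint sP} (hx : x ∈ OrbSpace sP (DD m)) :
    (cd 0 x 1, cd 0 x 2) ∈ W := by
  have h := (mem_orb hm x).1 hx
  have h0 := X0_notMem hm hx
  rw [mem_W']
  refine ⟨?_, ?_, ?_⟩
  · intro h1
    refine h 1 ((lf_mem_iff h0 1).2 ?_)
    rw [eval_lf1]
    exact h1
  · intro h1
    refine h 2 ((lf_mem_iff h0 2).2 ?_)
    rw [eval_lf2]
    exact h1
  · intro h1
    refine h 3 ((lf_mem_iff h0 3).2 ?_)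
    rw [eval_lf3, sub_eq_zero]
    exact h1

/-- the affine point `(X, Y)` of the plane -/
def ap (p : ℂ × ℂ) : CPoint sP := xv ![1, p.1, p.2] 0 rfl

theorem cd_ap (p : ℂ × ℂ) : cd 0 (ap p) = ![1, p.1, p.2] := cd_xv _ _ _

theorem X0_ap (p : ℂ × ℂ) : MvPolynomial.X 0 ∉ hi (ap p).pt := X_notMem_xv _ _ _

theorem lf_ap (p : ℂ × ℂ) (a : Fin 4) : lf a ∈ hi (ap p).pt ↔
    (![1, p.1, p.2, p.1 - p.2] : Fin 4 → ℂ) a = 0 := by
  rw [lf_mem_iff (X0_ap p), cd_ap]
  fin_cases a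
  · exact (eval_lf0 _).symm ▸ Iff.rfl
  · exact (eval_lf1 _).symm ▸ Iff.rfl
  · exact (eval_lf2 _).symm ▸ Iff.rfl
  · exact (eval_lf3 _).symm ▸ Iff.rfl

theorem ap_mem {m : ℕ} (hm : 2 ≤ m) {p : ℂ × ℂ} (hp : p ∈ W) : ap p ∈ OrbSpace sP (DD m) := by
  rw [mem_orb hm]
  rw [mem_W'] at hp
  intro a ha
  rw [lf_ap] at ha
  fin_cases a
  · exact one_ne_zero ha
  · exact hp.1 ha
  · exact hp.2.1 ha
  · exact hp.2.2 (sub_eq_zero.1 ha)

theorem continuousAt_ap {T : Type*} [TopologicalSpace T] (f : T → ℂ × ℂ) (t : T)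
    (hf : ContinuousAt f t) : ContinuousAt (fun u => ap (f u)) t := by
  refine continuousAt_chart (fun u => ap (f u)) t 0 (Filter.Eventually.of_forall fun u =>
    X0_ap _) ?_
  simp only [cd_ap]
  refine continuousAt_pi.2 fun j => ?_
  fin_cases j
  · exact continuousAt_const
  · exact hf.fst
  · exact hf.snd

/-- the homeomorphism of the complement of the four lines with `W` -/
def hWW {m : ℕ} (hm : 2 ≤ m) : OrbSpace sP (DD m) ≃ₜ W where
  toFun x := ⟨(cd 0 x.1 1, cd 0 x.1 2), coords_mem_W hm x.2⟩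
  invFun w := ⟨ap w.1, ap_mem hm w.2⟩
  left_inv x := by
    refine Subtype.ext ?_
    refine eq_of_cd (i := 0) (X0_ap _) (X0_notMem hm x.2) ?_
    rw [cd_ap]
    funext j
    fin_cases j
    · exact (cd_self 0 (X0_notMem hm x.2)).symm
    · rfl
    · rfl
  right_inv w := by
    refine Subtype.ext ?_
    change (cd 0 (ap w.1) 1, cd 0 (ap w.1) 2) = w.1
    rw [cd_ap]
    rfl
  continuous_toFun := by
    refine Continuous.subtype_mk (Continuous.prodMk ?_ ?_) _
    · rw [continuous_iff_continuousAt]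
      intro x
      exact (continuousAt_eval (bo 0) (sec 0 1) x.1 (X0_notMem hm x.2)).comp
        continuous_subtype_val.continuousAt
    · rw [continuous_iff_continuousAt]
      intro x
      exact (continuousAt_eval (bo 0) (sec 0 2) x.1 (X0_notMem hm x.2)).comp
        continuous_subtype_val.continuousAt
  continuous_invFun := by
    refine Continuous.subtype_mk ?_ _
    rw [continuous_iff_continuousAt]
    intro w
    exact continuousAt_ap _ w continuous_subtype_val.continuousAt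

theorem hWW_coe {m : ℕ} (hm : 2 ≤ m) (x : OrbSpace sP (DD m)) :
    (hWW hm x : ℂ × ℂ) = (cd 0 x.1 1, cd 0 x.1 2) := rfl

theorem hWW_symm_coe {m : ℕ} (hm : 2 ≤ m) (w : W) :
    ((hWW hm).symm w : CPoint sP) = ap w.1 := rfl

end

end Pool.Agent.TH192.PP
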