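import Mathlib
import Pool.Agent.TH192.Plane

/-!
# Meridian discs in the projective plane
-/

open AlgebraicGeometry CategoryTheory ClusterLift unitInterval

namespace Pool.Agent.TH192.PP

open Pool.Agent.TH192.Orb

attribute [local instance] MvPolynomial.gradedAlgebra

noncomputable section

theorem e_def (t : ℝ) : e t = Complex.exp (2 * Real.pi * t * Complex.I) := rfl

section Mer

variable {m : ℕ} (hm : 2 ≤ m) {a : Fin 4} {φ : ℂ → CPoint sP} {r : ℝ} (hr : 1 < r)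
  (hφ : IsHolomorphicDisc r φ) (hφ0 : ∀ z : ℂ, z ≠ 0 → ‖z‖ < r → φ z ∈ OrbSpace sP (DD m))
  (hE : ∀ E' : PSpace 2 ℂ, IsStComponent (DD m) E' → (E' ⤳ (φ 0).pt ↔ E' = HH a))

include hm hE in
theorem lf_zero_iff (b : Fin 4) : lf b ∈ hi (φ 0).pt ↔ b = a := by
  rw [← HH_specializes, hE (HH b) ((isSt_iff hm _).2 ⟨b, rfl⟩)]
  exact ⟨fun h => HH_injective h, fun h => by rw [h]⟩

include hm hφ0 in
theorem lf_notMem {z : ℂ} (hz : z ≠ 0) (hzr : ‖z‖ < r) (b : Fin 4) : lf b ∉ hi (φ z).pt :=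
  (mem_orb hm _).1 (hφ0 z hz hzr) b

include hm hφ0 hE in
theorem X_notMem (i : Fin 3) (hi' : lf (i.castSucc) = MvPolynomial.X i) (hia : i.castSucc ≠ a)
    {z : ℂ} (hzr : ‖z‖ < r) : MvPolynomial.X i ∉ hi (φ z).pt := by
  rw [← hi']
  by_cases hz : z = 0
  · subst hz
    rw [lf_zero_iff hm hE]
    exact hia
  · exact lf_notMem hm hφ0 hz hzr _

include hφ in
theorem analytic_cd (i : Fin 3) {z : ℂ} (hzr : ‖z‖ < r) (hi : MvPolynomial.X i ∉ hi (φ z).pt)
    (j : Fin 3) : AnalyticAt ℂ (fun w => cd i (φ w) j) z :=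
  (hφ z hzr).2 (bo i) (sec i j) hi

include hφ in
/-- transversality in terms of the equation of the line -/
theorem deriv_ne {i : Fin 3} (hr0 : 0 < r) (hi0 : MvPolynomial.X i ∉ hi (φ 0).pt)
    (ha : lf a ∈ hi (φ 0).pt)
    {U : (PSpace 2 ℂ).Opens} {f : Γ(PSpace 2 ℂ, U)} (hEU : HH a ∈ U) (hU : (φ 0).pt ∈ U)
    (hf : ¬ IsUnit ((PSpace 2 ℂ).presheaf.germ U (HH a) hEU f))
    (hd : deriv (fun w => (φ w).eval f) 0 ≠ 0) :
    deriv (fun w => MvPolynomial.eval (cd i (φ w)) (lf a)) 0 ≠ 0 := by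
  obtain ⟨d, e, A, B, g, hA, hB, hg, hgx, hloc⟩ := locally_frac U f (φ 0).pt hU
  have hsp : HH a ⤳ (φ 0).pt := (HH_specializes a _).2 ha
  have hgE : g ∉ hi (HH a) := fun h => hgx (specializes_iff.1 hsp _ h)
  obtain ⟨hEU', hBE, hgerm⟩ := hloc (HH a) hgE
  rw [hgerm, isUnit_fr, not_not] at hf
  obtain ⟨q, hq⟩ : lf a ∣ A := (mem_Hpt A).1 hf
  have hcont : ContinuousAt φ 0 := (hφ 0 (by simpa using hr0)).1
  have hev : ∀ᶠ w in nhds (0 : ℂ), MvPolynomial.X i ∉ hi (φ w).pt :=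
    hcont.eventually ((isOpen_pt (s := sP) (bo i)).mem_nhds hi0)
  have hcd : ∀ j, AnalyticAt ℂ (fun w => cd i (φ w) j) 0 :=
    fun j => analytic_cd hφ i (by simpa using hr0) hi0 j
  have hc : ContinuousAt (fun u => cd i (φ u)) 0 :=
    continuousAt_pi.2 fun j => (hcd j).continuousAt
  have hcg : ContinuousAt (fun u => MvPolynomial.eval (cd i (φ u)) g) 0 :=
    (MvPolynomial.continuous_eval g).continuousAt.comp hc
  have hg0 : MvPolynomial.eval (cd i (φ 0)) g ≠ 0 := fun h => hgx ((mem_pt_iff hi0 hg).2 h)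
  obtain ⟨hU0, hB0, -⟩ := hloc (φ 0).pt hgx
  have hB0' : MvPolynomial.eval (cd i (φ 0)) B ≠ 0 := fun h => hB0 ((mem_pt_iff hi0 hB).2 h)
  have hform : (fun w => (φ w).eval f) =ᶠ[nhds 0] fun w =>
      MvPolynomial.eval (cd i (φ w)) (lf a) * (MvPolynomial.eval (cd i (φ w)) q /
        MvPolynomial.eval (cd i (φ w)) B) := by
    filter_upwards [hev, hcg.eventually_ne hg0] with w hw1 hw2
    have hgw : g ∉ hi (φ w).pt := fun h => hw2 ((mem_pt_iff hw1 hg).1 h)
    obtain ⟨hU1, hB1, h1⟩ := hloc (φ w).pt hgw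
    rw [eval_formula hw1 hU1 h1, hq, map_mul, mul_div_assoc]
  intro hcon
  apply hd
  rw [hform.deriv_eq]
  have e1 : DifferentiableAt ℂ (fun w => MvPolynomial.eval (cd i (φ w)) (lf a)) 0 :=
    (analyticAt_eval _ 0 hcd _).differentiableAt
  have e2 : DifferentiableAt ℂ (fun w => MvPolynomial.eval (cd i (φ w)) q /
        MvPolynomial.eval (cd i (φ w)) B) 0 :=
    ((analyticAt_eval _ 0 hcd _).div (analyticAt_eval _ 0 hcd _) hB0').differentiableAt
  have e3 := deriv_fun_mul e1 e2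
  rw [e3, hcon, (lf_mem_iff hi0 a).1 ha]
  ring

include hm hr hφ hφ0 hE in
/-- meridian discs of the three affine lines -/
theorem isDisc_of_meridian (ha0 : a ≠ 0) (hd : ∃ (U : (PSpace 2 ℂ).Opens) (f : Γ(PSpace 2 ℂ, U))
      (hEU : HH a ∈ U), (φ 0).pt ∈ U ∧
      ¬ IsUnit ((PSpace 2 ℂ).presheaf.germ U (HH a) hEU f) ∧
      deriv (fun w => (φ w).eval f) 0 ≠ 0) :
    IsDisc (fun z => (cd 0 (φ (ret z)) 1, cd 0 (φ (ret z)) 2)) := by
  have hX : ∀ {z : ℂ}, ‖z‖ < r → MvPolynomial.X (0 : Fin 3) ∉ hi (φ z).pt := fun hzr =>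
    X_notMem hm hφ0 hE 0 rfl (fun h => ha0 h.symm) hzr
  have hr0 : (0 : ℝ) < r := by linarith
  have h00 : ‖(0 : ℂ)‖ < r := by simpa using hr0
  obtain ⟨U, f, hEU, hU, hf, hd⟩ := hd
  have hmem := (lf_zero_iff hm hE a).2 rfl
  have hder := deriv_ne (i := 0) hφ hr0 (hX h00) hmem hEU hU hf hd
  set c1 : ℂ → ℂ := fun z => cd 0 (φ z) 1 with hc1
  set c2 : ℂ → ℂ := fun z => cd 0 (φ z) 2 with hc2
  have a1 : ∀ {z : ℂ}, ‖z‖ < r → AnalyticAt ℂ c1 z := fun hz => analytic_cd hφ 0 hz (hX hz) 1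
  have a2 : ∀ {z : ℂ}, ‖z‖ < r → AnalyticAt ℂ c2 z := fun hz => analytic_cd hφ 0 hz (hX hz) 2
  -- nonvanishing
  have n1 : ∀ {z : ℂ}, ‖z‖ < r → (c1 z = 0 ↔ lf 1 ∈ hi (φ z).pt) := by
    intro z hz
    rw [lf_mem_iff (hX hz), eval_lf1]
  have n2 : ∀ {z : ℂ}, ‖z‖ < r → (c2 z = 0 ↔ lf 2 ∈ hi (φ z).pt) := by
    intro z hz
    rw [lf_mem_iff (hX hz), eval_lf2]
  have n3 : ∀ {z : ℂ}, ‖z‖ < r → (c1 z - c2 z = 0 ↔ lf 3 ∈ hi (φ z).pt) := by
    intro z hz
    rw [lf_mem_iff (hX hz), eval_lf3]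
  set Q : ℂ → ℂ := fun z => c1 z * c2 z * (c1 z - c2 z) with hQ
  have hQan : ∀ {z : ℂ}, ‖z‖ < r → AnalyticAt ℂ Q z := fun hz =>
    ((a1 hz).mul (a2 hz)).mul ((a1 hz).sub (a2 hz))
  have hQ0 : ∀ {z : ℂ}, ‖z‖ < r → z ≠ 0 → Q z ≠ 0 := by
    intro z hz hz0
    refine mul_ne_zero (mul_ne_zero ?_ ?_) ?_
    · exact fun h => lf_notMem hm hφ0 hz0 hz 1 ((n1 hz).1 h)
    · exact fun h => lf_notMem hm hφ0 hz0 hz 2 ((n2 hz).1 h)
    · exact fun h => lf_notMem hm hφ0 hz0 hz 3 ((n3 hz).1 h)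
  have d1 := (a1 h00).differentiableAt
  have d2 := (a2 h00).differentiableAt
  have hdQ : deriv Q 0 = (deriv c1 0 * c2 0 + c1 0 * deriv c2 0) * (c1 0 - c2 0) +
      c1 0 * c2 0 * (deriv c1 0 - deriv c2 0) := by
    have e1 : deriv (fun z => c1 z * c2 z) 0 = deriv c1 0 * c2 0 + c1 0 * deriv c2 0 :=
      deriv_fun_mul d1 d2
    have e2 : deriv (fun z => c1 z - c2 z) 0 = deriv c1 0 - deriv c2 0 := deriv_fun_sub d1 d2
    have e3 := deriv_fun_mul (d1.fun_mul d2) (d1.fun_sub d2)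
    rw [e1, e2] at e3
    exact e3
  have z1 := n1 h00
  have z2 := n2 h00
  have z3 := n3 h00
  rw [lf_zero_iff hm hE] at z1 z2 z3
  have hQ00 : Q 0 = 0 ∧ deriv Q 0 ≠ 0 ∧ (c1 0, c2 0) ≠ (0 : ℂ × ℂ) := by
    have hcase : a = 1 ∨ a = 2 ∨ a = 3 := by
      fin_cases a
      · exact absurd rfl ha0
      · exact Or.inl rfl
      · exact Or.inr (Or.inl rfl)
      · exact Or.inr (Or.inr rfl)
    rcases hcase with rfl | rfl | rfl
    · have y1 : c1 0 = 0 := z1.2 rfl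
      have y2 : c2 0 ≠ 0 := fun h => absurd (z2.1 h) (by decide)
      have hder' : deriv c1 0 ≠ 0 := by
        have e : (fun w => MvPolynomial.eval (cd 0 (φ w)) (lf 1)) = c1 := by
          funext w
          exact eval_lf1 _
        rw [e] at hder
        exact hder
      refine ⟨by simp only [hQ, y1]; ring, ?_, ?_⟩
      · rw [hdQ, y1]
        have : (deriv c1 0 * c2 0 + 0 * deriv c2 0) * (0 - c2 0) +
          0 * c2 0 * (deriv c1 0 - deriv c2 0) = - (deriv c1 0 * c2 0 * c2 0) := by ring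
        rw [this]
        exact neg_ne_zero.2 (mul_ne_zero (mul_ne_zero hder' y2) y2)
      · intro h
        exact y2 (congrArg Prod.snd h)
    · have y2 : c2 0 = 0 := z2.2 rfl
      have y1 : c1 0 ≠ 0 := fun h => absurd (z1.1 h) (by decide)
      have hder' : deriv c2 0 ≠ 0 := by
        have e : (fun w => MvPolynomial.eval (cd 0 (φ w)) (lf 2)) = c2 := by
          funext w
          exact eval_lf2 _
        rw [e] at hder
        exact hder
      refine ⟨by simp only [hQ, y2]; ring, ?_, ?_⟩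
      · rw [hdQ, y2]
        have : (deriv c1 0 * 0 + c1 0 * deriv c2 0) * (c1 0 - 0) +
          c1 0 * 0 * (deriv c1 0 - deriv c2 0) = c1 0 * deriv c2 0 * c1 0 := by ring
        rw [this]
        exact mul_ne_zero (mul_ne_zero y1 hder') y1
      · intro h
        exact y1 (congrArg Prod.fst h)
    · have y3 : c1 0 - c2 0 = 0 := z3.2 rfl
      have y1 : c1 0 ≠ 0 := fun h => absurd (z1.1 h) (by decide)
      have y2 : c2 0 ≠ 0 := fun h => absurd (z2.1 h) (by decide)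
      have hder' : deriv c1 0 - deriv c2 0 ≠ 0 := by
        have e : (fun w => MvPolynomial.eval (cd 0 (φ w)) (lf 3)) = fun z => c1 z - c2 z := by
          funext w
          exact eval_lf3 _
        rw [e] at hder
        have e2 : deriv (fun z => c1 z - c2 z) 0 = deriv c1 0 - deriv c2 0 :=
          deriv_fun_sub d1 d2
        rw [← e2]
        exact hder
      refine ⟨by simp only [hQ, y3]; ring, ?_, ?_⟩
      · rw [hdQ, y3, mul_zero, zero_add]
        exact mul_ne_zero (mul_ne_zero y1 y2) hder'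
      · intro h
        exact y1 (congrArg Prod.fst h)
  obtain ⟨q0, q1, q2⟩ := hQ00
  have hnhds : Metric.closedBall (0 : ℂ) 1 ∈ nhds (0 : ℂ) :=
    Metric.closedBall_mem_nhds _ one_pos
  have hlt : ∀ {z : ℂ}, z ∈ Metric.closedBall (0 : ℂ) 1 → ‖z‖ < r := by
    intro z hz
    rw [mem_closedBall_zero_iff] at hz
    linarith
  refine isDisc_ret (fun z => (c1 z, c2 z)) (dslope Q 0) ?_ ?_ ?_ ?_ ?_
  · intro z hz
    exact ((a1 (hlt hz)).continuousAt.prodMk (a2 (hlt hz)).continuousAt).continuousWithinAt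
  · rw [continuousOn_dslope hnhds]
    exact ⟨fun z hz => (hQan (hlt hz)).continuousAt.continuousWithinAt,
      (hQan h00).differentiableAt⟩
  · intro z hz
    by_cases hz0 : z = 0
    · rw [hz0]
      exact q2
    · intro h
      have hz' : ‖z‖ < r := by linarith
      apply hQ0 hz' hz0
      have h1 : c1 z = 0 := congrArg Prod.fst h
      simp only [hQ, h1]
      ring
  · intro z hz
    by_cases hz0 : z = 0
    · rw [hz0, dslope_same]
      exact q1
    · have hz' : ‖z‖ < r := by linarith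
      rw [dslope_of_ne _ hz0, slope_def_field, q0, sub_zero, sub_zero]
      exact div_ne_zero (hQ0 hz' hz0) hz0
  · intro z hz
    have h := sub_smul_dslope Q 0 z
    rw [q0, sub_zero, sub_zero, smul_eq_mul] at h
    exact h.symm

end Mer

end

end Pool.Agent.TH192.PP
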