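import Mathlib
import Pool.Agent.TH192.Mer

/-!
# The orbifold fundamental group of the pair
-/

open AlgebraicGeometry CategoryTheory ClusterLift unitInterval

namespace Pool.Agent.TH192.PP

open Pool.Agent.TH192.Orb

attribute [local instance] MvPolynomial.gradedAlgebra

noncomputable section

theorem cd_change (i i' : Fin 3) {x : CPoint sP} (h : MvPolynomial.X i ∉ hi x.pt)
    (h' : MvPolynomial.X i' ∉ hi x.pt) (j : Fin 3) : cd i x j = cd i' x j / cd i' x i := by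
  rw [cd_apply i j x h, psi_hom x.pt i h 1 _ (X_hom j), evc_fr h', map_pow, pow_one,
    MvPolynomial.eval_X, MvPolynomial.eval_X]

theorem e_neg_mul (t : ℝ) : e (-t) * e t = 1 := by
  rw [← e_add]
  simp

section Inf

variable {m : ℕ} (hm : 2 ≤ m) {φ : ℂ → CPoint sP} {r : ℝ} (hr : 1 < r)
  (hφ : IsHolomorphicDisc r φ) (hφ0 : ∀ z : ℂ, z ≠ 0 → ‖z‖ < r → φ z ∈ OrbSpace sP (DD m))
  (hE : ∀ E' : PSpace 2 ℂ, IsStComponent (DD m) E' → (E' ⤳ (φ 0).pt ↔ E' = HH 0))

include hm hr hφ hφ0 hE in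
/-- meridian discs of the line at infinity -/
theorem inf_of_meridian (hd : ∃ (U : (PSpace 2 ℂ).Opens) (f : Γ(PSpace 2 ℂ, U))
      (hEU : HH 0 ∈ U), (φ 0).pt ∈ U ∧
      ¬ IsUnit ((PSpace 2 ℂ).presheaf.germ U (HH 0) hEU f) ∧
      deriv (fun w => (φ w).eval f) 0 ≠ 0) :
    ∃ χ : ℂ → ℂ × ℂ, Continuous χ ∧ (∀ z, χ z ∈ W) ∧
      ∀ t : ℝ, (cd 0 (φ (e t)) 1, cd 0 (φ (e t)) 2) = e (-t) • χ (e t) := by
  have hX : ∀ {z : ℂ}, ‖z‖ < r → MvPolynomial.X (1 : Fin 3) ∉ hi (φ z).pt := fun hzr =>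
    X_notMem hm hφ0 hE 1 rfl (by decide) hzr
  have hr0 : (0 : ℝ) < r := by linarith
  have h00 : ‖(0 : ℂ)‖ < r := by simpa using hr0
  obtain ⟨U, f, hEU, hU, hf, hd⟩ := hd
  have hmem := (lf_zero_iff hm hE 0).2 rfl
  have hder := deriv_ne (i := 1) hφ hr0 (hX h00) hmem hEU hU hf hd
  set u : ℂ → ℂ := fun z => cd 1 (φ z) 0 with hu
  set v : ℂ → ℂ := fun z => cd 1 (φ z) 2 with hv
  have a1 : ∀ {z : ℂ}, ‖z‖ < r → AnalyticAt ℂ u z := fun hz => analytic_cd hφ 1 hz (hX hz) 0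
  have a2 : ∀ {z : ℂ}, ‖z‖ < r → AnalyticAt ℂ v z := fun hz => analytic_cd hφ 1 hz (hX hz) 2
  have n0 : ∀ {z : ℂ}, ‖z‖ < r → (u z = 0 ↔ lf 0 ∈ hi (φ z).pt) := by
    intro z hz
    rw [lf_mem_iff (hX hz), eval_lf0]
  have n2 : ∀ {z : ℂ}, ‖z‖ < r → (v z = 0 ↔ lf 2 ∈ hi (φ z).pt) := by
    intro z hz
    rw [lf_mem_iff (hX hz), eval_lf2]
  have n3 : ∀ {z : ℂ}, ‖z‖ < r → (1 - v z = 0 ↔ lf 3 ∈ hi (φ z).pt) := by
    intro z hz
    rw [lf_mem_iff (hX hz), eval_lf3, cd_self 1 (hX hz)]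
  have hne : ∀ (b : Fin 4) (_ : b ≠ 0) {z : ℂ}, ‖z‖ < r → lf b ∉ hi (φ z).pt := by
    intro b hb z hz
    by_cases hz0 : z = 0
    · rw [hz0, lf_zero_iff hm hE]
      exact hb
    · exact lf_notMem hm hφ0 hz0 hz b
  have u0 : u 0 = 0 := (n0 h00).2 hmem
  have u1 : ∀ {z : ℂ}, ‖z‖ < r → z ≠ 0 → u z ≠ 0 := fun hz hz0 h =>
    lf_notMem hm hφ0 hz0 hz 0 ((n0 hz).1 h)
  have v1 : ∀ {z : ℂ}, ‖z‖ < r → v z ≠ 0 := fun hz h => hne 2 (by decide) hz ((n2 hz).1 h)
  have v2 : ∀ {z : ℂ}, ‖z‖ < r → 1 - v z ≠ 0 := fun hz h => hne 3 (by decide) hz ((n3 hz).1 h)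
  have hder' : deriv u 0 ≠ 0 := by
    have e : (fun w => MvPolynomial.eval (cd 1 (φ w)) (lf 0)) = u := by
      funext w
      exact eval_lf0 _
    rw [e] at hder
    exact hder
  have hnhds : Metric.closedBall (0 : ℂ) 1 ∈ nhds (0 : ℂ) :=
    Metric.closedBall_mem_nhds _ one_pos
  have hlt : ∀ {z : ℂ}, z ∈ Metric.closedBall (0 : ℂ) 1 → ‖z‖ < r := by
    intro z hz
    rw [mem_closedBall_zero_iff] at hz
    linarith
  have hret : ∀ z : ℂ, ret z ∈ Metric.closedBall (0 : ℂ) 1 := by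
    intro z
    rw [mem_closedBall_zero_iff]
    exact norm_ret z
  set κ : ℂ → ℂ := dslope u 0 with hκ
  have hκc : ContinuousOn κ (Metric.closedBall 0 1) := by
    rw [hκ, continuousOn_dslope hnhds]
    exact ⟨fun z hz => (a1 (hlt hz)).continuousAt.continuousWithinAt,
      (a1 h00).differentiableAt⟩
  have hκ0 : ∀ {z : ℂ}, ‖z‖ < r → κ z ≠ 0 := by
    intro z hz
    by_cases hz0 : z = 0
    · rw [hκ, hz0, dslope_same]
      exact hder'
    · rw [hκ, dslope_of_ne _ hz0, slope_def_field, u0, sub_zero, sub_zero]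
      exact div_ne_zero (u1 hz hz0) hz0
  have hκu : ∀ z, z * κ z = u z := by
    intro z
    have h := sub_smul_dslope u 0 z
    rw [u0, sub_zero, sub_zero, smul_eq_mul] at h
    exact h
  have hvc : ContinuousOn v (Metric.closedBall 0 1) := fun z hz =>
    (a2 (hlt hz)).continuousAt.continuousWithinAt
  have hκr : Continuous fun z => κ (ret z) := hκc.comp_continuous ret_continuous hret
  have hvr : Continuous fun z => v (ret z) := hvc.comp_continuous ret_continuous hret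
  refine ⟨fun z => (1 / κ (ret z), v (ret z) / κ (ret z)), ?_, ?_, ?_⟩
  · exact (continuous_const.div hκr fun z => hκ0 (hlt (hret z))).prodMk
      (hvr.div hκr fun z => hκ0 (hlt (hret z)))
  · intro z
    have h1 := hκ0 (hlt (hret z))
    have h2 := v1 (hlt (hret z))
    have h3 := v2 (hlt (hret z))
    rw [mem_W']
    refine ⟨div_ne_zero one_ne_zero h1, div_ne_zero h2 h1, ?_⟩
    intro h
    apply h3
    have h4 := (div_left_inj' h1).1 h
    rw [← h4, sub_self]
  · intro t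
    have ht : ‖e t‖ < r := by rw [norm_e]; exact hr
    have hx0 : MvPolynomial.X (0 : Fin 3) ∉ hi (φ (e t)).pt :=
      lf_notMem hm hφ0 (e_ne t) ht 0
    have hx1 := hX ht
    rw [cd_change 0 1 hx0 hx1 1, cd_change 0 1 hx0 hx1 2, cd_self 1 hx1]
    change (1 / u (e t), v (e t) / u (e t)) =
      e (-t) • ((1 / κ (ret (e t)), v (ret (e t)) / κ (ret (e t))) : ℂ × ℂ)
    rw [ret_e, ← hκu (e t)]
    have h1 := hκ0 ht
    have h2 := e_ne t
    have h3 : e (-t) = (e t)⁻¹ := eq_inv_of_mul_eq_one_left (e_neg_mul t)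
    rw [h3]
    ext
    · simp only [Prod.smul_mk, smul_eq_mul]
      field_simp
    · simp only [Prod.smul_mk, smul_eq_mul]
      field_simp

end Inf

/-! ### explicit discs -/

theorem isMeridian_ap {m : ℕ} (hm : 2 ≤ m) {a : Fin 4} (ha : a ≠ 0) (α β : ℂ → ℂ)
    (hα : Differentiable ℂ α) (hβ : Differentiable ℂ β) {r : ℝ} (hr : 1 < r)
    (hW : ∀ z : ℂ, z ≠ 0 → ‖z‖ < r → (α z, β z) ∈ W)
    (h0 : ∀ b : Fin 4, (![1, α 0, β 0, α 0 - β 0] : Fin 4 → ℂ) b = 0 ↔ b = a)
    (c : Fin 4 → ℂ) (hc : c = ![0, deriv α 0, deriv β 0, deriv α 0 - deriv β 0])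
    (hca : c a ≠ 0) :
    IsMeridianDisc (DD m) (HH a) (fun z => ap (α z, β z)) := by
  have hcoord : ∀ z, cd 0 (ap (α z, β z)) = ![1, α z, β z] := fun z => cd_ap _
  refine ⟨⟨r, hr, ?_, ?_⟩, regular_stalk _, ?_, ?_⟩
  · intro z _
    refine ⟨continuousAt_ap _ z (hα.continuous.continuousAt.prodMk hβ.continuous.continuousAt),
      ?_⟩
    intro U f hU
    refine analyticAt_chart (fun z => ap (α z, β z)) z 0
      (Filter.Eventually.of_forall fun u => X0_ap _) ?_ U f hU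
    intro j
    simp only [hcoord]
    fin_cases j
    · exact analyticAt_const
    · exact hα.analyticAt z
    · exact hβ.analyticAt z
  · intro z hz hzr
    exact ap_mem hm (hW z hz hzr)
  · intro E' hE'
    obtain ⟨b, rfl⟩ := (isSt_iff hm E').1 hE'
    rw [HH_specializes, lf_ap, h0 b]
    exact ⟨fun h => by rw [h], fun h => HH_injective h⟩
  · have hX : MvPolynomial.X (0 : Fin 3) ∉ hi (HH a) := by
      intro h
      exact ha ((mem_HH a 0).1 h)
    have hnu : ∀ f, f = lf a → ¬ IsUnit (psi (HH a) 0 hX f) := by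
      rintro f rfl
      rw [isUnit_psi (HH a) 0 hX 1 _ (lf_hom a), not_not]
      exact (mem_HH a a).2 rfl
    have hcase : a = 1 ∨ a = 2 ∨ a = 3 := by
      fin_cases a
      · exact absurd rfl ha
      · exact Or.inl rfl
      · exact Or.inr (Or.inl rfl)
      · exact Or.inr (Or.inr rfl)
    subst hc
    rcases hcase with rfl | rfl | rfl
    · refine ⟨bo 0, sec 0 1, hX, X0_ap _, ?_, ?_⟩
      · rw [germ_sec]
        exact hnu _ rfl
      · have e : (fun w => (ap (α w, β w)).eval (sec 0 1)) = α := by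
          funext w
          exact congrFun (hcoord w) 1
        rw [e]
        exact hca
    · refine ⟨bo 0, sec 0 2, hX, X0_ap _, ?_, ?_⟩
      · rw [germ_sec]
        exact hnu _ rfl
      · have e : (fun w => (ap (α w, β w)).eval (sec 0 2)) = β := by
          funext w
          exact congrFun (hcoord w) 2
        rw [e]
        exact hca
    · refine ⟨bo 0, sec 0 1 - sec 0 2, hX, X0_ap _, ?_, ?_⟩
      · rw [map_sub, germ_sec, germ_sec, ← map_sub]
        exact hnu _ rfl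
      · have e : (fun w => (ap (α w, β w)).eval (sec 0 1 - sec 0 2)) =
            fun w => α w - β w := by
          funext w
          have h1 : (ap (α w, β w)).pt ∈ bo (n := 2) 0 := X0_ap _
          have h2 := congrFun (hcoord w) 1
          have h3 := congrFun (hcoord w) 2
          unfold cd at h2 h3
          rw [eval_eq _ _ h1] at h2 h3 ⊢
          rw [map_sub, map_sub, h2, h3]
          rfl
        rw [e, deriv_fun_sub hα.differentiableAt hβ.differentiableAt]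
        exact hca

end

end Pool.Agent.TH192.PP
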