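import Mathlib
import Pool.Agent.TH192.Main

/-!
# Abelian subgroups of the orbifold fundamental group
-/

open AlgebraicGeometry CategoryTheory ClusterLift unitInterval

namespace Pool.Agent.TH192.PP

open Pool.Agent.TH192.Orb

attribute [local instance] MvPolynomial.gradedAlgebra

noncomputable section

/-- the base point -/
def x0 {m : ℕ} (hm : 2 ≤ m) : OrbSpace sP (DD m) := (hWW hm).symm w0

/-- the isomorphism of fundamental groups -/
def PhiG {m : ℕ} (hm : 2 ≤ m) :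
    FundamentalGroup (OrbSpace sP (DD m)) (x0 hm) ≃* FundamentalGroup W w0 :=
  homeoEquiv (hWW hm) ((hWW hm).apply_symm_apply w0)

theorem rel_image {m : ℕ} (hm : 2 ≤ m)
    (g : FundamentalGroup (OrbSpace sP (DD m)) (x0 hm))
    (hg : g ∈ orbRelations sP (DD m) (x0 hm)) :
    PhiG hm g ∈ R w0 ∨ PhiG hm g = ((cc w0)⁻¹) ^ m := by
  obtain ⟨E, k, φ, x₁, γ, δ, hE, hk, ⟨⟨r, hr, hφ, hφ0⟩, -, hE', hd⟩, hbd, rfl⟩ := hg
  obtain ⟨a, rfl⟩ := (isSt_iff hm E).1 hE
  have h1 : PhiG hm (FundamentalGroup.fromPath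
      (Path.Homotopic.Quotient.mk ((δ.trans γ).trans δ.symm)) ^ k) =
      conjHom (Path.Homotopic.Quotient.mk ((δ.map (hWW hm).continuous).cast
        ((hWW hm).apply_symm_apply w0).symm rfl)) (loopClass (γ.map (hWW hm).continuous)) ^ k := by
    rw [map_pow]
    congr 1
    exact homeoEquiv_conj (hWW hm) ((hWW hm).apply_symm_apply w0) δ γ
  rw [h1]
  have hγ : ∀ t : I, ((γ.map (hWW hm).continuous t : W) : ℂ × ℂ) =
      (cd 0 (φ (e t)) 1, cd 0 (φ (e t)) 2) := by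
    intro t
    have h2 : ((γ t : OrbSpace sP (DD m)) : CPoint sP) = φ (e t) := hbd t
    rw [← h2]
    rfl
  by_cases ha : a = 0
  · right
    subst ha
    have hkm : k = m := hk.unique (index_m (by omega))
    obtain ⟨χ, hχ, hχW, hχe⟩ := inf_of_meridian hm hr hφ hφ0 hE' hd
    have h3 : loopClass (γ.map (hWW hm).continuous) = (cc _)⁻¹ :=
      inf_class χ hχ hχW _ (fun t => (hγ t).trans (hχe t))
    rw [h3, map_inv, conj_cc, hkm]
  · left
    have hk3 : k = 3 := hk.unique (index_three ha)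
    rw [hk3]
    have hdisc := isDisc_of_meridian hm hr hφ hφ0 hE' ha hd
    refine boundary_cube_mem_R _ hdisc _ ?_ _
    intro t
    rw [hγ t, ret_e]

theorem mem_rel {m : ℕ} (hm : 2 ≤ m) {a : Fin 4} (ha : a ≠ 0) (α β : ℂ → ℂ)
    (hmer : IsMeridianDisc (DD m) (HH a) (fun z => ap (α z, β z))) {z1 : W} (δ : Path w0 z1)
    (γ : Path z1 z1) (hγ : ∀ t : I, (γ t : ℂ × ℂ) = (α (e t), β (e t))) :
    (PhiG hm).symm (conjHom (Path.Homotopic.Quotient.mk δ) (loopClass γ) ^ 3) ∈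
      orbRelations sP (DD m) (x0 hm) := by
  have h1 := homeoEquiv_symm_conj (hWW hm) ((hWW hm).apply_symm_apply w0) δ γ 3
  refine ⟨HH a, 3, fun z => ap (α z, β z), (hWW hm).symm z1, γ.map (hWW hm).symm.continuous,
    (δ.map (hWW hm).symm.continuous).cast rfl rfl,
    (isSt_iff hm _).2 ⟨a, rfl⟩, index_three ha, hmer, ?_, ?_⟩
  · intro t
    change ap (γ t : ℂ × ℂ) = ap (α (Complex.exp (2 * Real.pi * t * Complex.I)),
      β (Complex.exp (2 * Real.pi * t * Complex.I)))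
    rw [hγ t]
    rfl
  · exact h1

theorem disc_X (z : ℂ) (hz : z ≠ 0) (hzr : ‖z‖ < 5 / 4) :
    ((2 * z, -3 * Complex.I) : ℂ × ℂ) ∈ W := by
  rw [mem_W']
  refine ⟨mul_ne_zero two_ne_zero hz, by simp, ?_⟩
  intro h
  have h1 : ‖2 * z‖ = ‖-3 * Complex.I‖ := congrArg norm h
  rw [norm_mul, norm_mul, norm_neg, Complex.norm_I] at h1
  simp only [Complex.norm_ofNat] at h1
  linarith

theorem disc_2 (z : ℂ) (hz : z ≠ 0) (hzr : ‖z‖ < 5 / 4) : (((2 : ℂ), 2 - z) : ℂ × ℂ) ∈ W := by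
  rw [mem_W']
  refine ⟨two_ne_zero, ?_, ?_⟩
  · intro h
    have h1 : z = 2 := (sub_eq_zero.1 h).symm
    rw [h1, Complex.norm_ofNat] at hzr
    norm_num at hzr
  · intro h
    apply hz
    have h1 : (2 : ℂ) = 2 - z := h
    linear_combination h1

theorem disc_0 (z : ℂ) (hz : z ≠ 0) (hzr : ‖z‖ < 5 / 4) : (((2 : ℂ), z) : ℂ × ℂ) ∈ W := by
  rw [mem_W']
  refine ⟨two_ne_zero, hz, ?_⟩
  intro h
  have h1 : (2 : ℂ) = z := h
  rw [← h1, Complex.norm_ofNat] at hzr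
  norm_num at hzr

theorem mer_X {m : ℕ} (hm : 2 ≤ m) :
    IsMeridianDisc (DD m) (HH 1) (fun z => ap (2 * z, -3 * Complex.I)) := by
  refine isMeridian_ap hm (by decide) (fun z => 2 * z) (fun _ => -3 * Complex.I)
    (by fun_prop) (by fun_prop) (r := 5 / 4) (by norm_num) disc_X ?_ _ rfl ?_
  · intro b
    fin_cases b <;> simp
  · change deriv (fun z : ℂ => 2 * z) 0 ≠ 0
    have : deriv (fun z : ℂ => 2 * z) 0 = 2 := by simp
    rw [this]
    exact two_ne_zero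

theorem mer_2 {m : ℕ} (hm : 2 ≤ m) :
    IsMeridianDisc (DD m) (HH 3) (fun z => ap (2, 2 - z)) := by
  refine isMeridian_ap hm (by decide) (fun _ => 2) (fun z => 2 - z)
    (by fun_prop) (by fun_prop) (r := 5 / 4) (by norm_num) disc_2 ?_ _ rfl ?_
  · intro b
    fin_cases b <;> simp
  · change deriv (fun _ : ℂ => (2 : ℂ)) 0 - deriv (fun z : ℂ => 2 - z) 0 ≠ 0
    have h1 : deriv (fun _ : ℂ => (2 : ℂ)) 0 = 0 := by simp
    have h2 : deriv (fun z : ℂ => 2 - z) 0 = -1 := by simp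
    rw [h1, h2]
    norm_num

theorem mer_0 {m : ℕ} (hm : 2 ≤ m) :
    IsMeridianDisc (DD m) (HH 2) (fun z => ap (2, z)) := by
  refine isMeridian_ap hm (by decide) (fun _ => 2) (fun z => z)
    (by fun_prop) (by fun_prop) (r := 5 / 4) (by norm_num) disc_0 ?_ _ rfl ?_
  · intro b
    fin_cases b <;> simp
  · change deriv (fun z : ℂ => z) 0 ≠ 0
    have h2 : deriv (fun z : ℂ => z) 0 = 1 := by simp
    rw [h2]
    norm_num

theorem dvd_three_index {m : ℕ} (hm : 2 ≤ m) (A : Subgroup (OrbifoldPi1 sP (DD m) (x0 hm)))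
    (hA : ∀ a ∈ A, ∀ b ∈ A, a * b = b * a) (hn : A.index ≠ 0) : m ∣ 3 * A.index := by
  refine dvd_index (PhiG hm) (orbRelations sP (DD m) (x0 hm)) m (rel_image hm) ?_ ?_ ?_ A hA hn
  · refine mem_rel hm (a := 2) (by decide) (fun _ => 2) (fun z => z) (mer_0 hm) pw _ ?_
    intro t
    change ((2 : ℂ), e (((1 : ℕ) : ℝ) * t)) = (2, e t)
    simp
  · refine mem_rel hm (a := 3) (by decide) (fun _ => 2) (fun z => 2 - z) (mer_2 hm) pw _ ?_
    intro t
    change ((2 : ℂ), 2 - e (((1 : ℕ) : ℝ) * t)) = (2, 2 - e t)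
    simp
  · have h1 : loopAt fX fX_per 1 fX_zero =
        conjHom (Path.Homotopic.Quotient.mk (Path.refl w0)) (loopAt fX fX_per 1 fX_zero) :=
      (conjHom_refl _).symm
    rw [h1]
    refine mem_rel hm (a := 1) (by decide) (fun z => 2 * z) (fun _ => -3 * Complex.I)
      (mer_X hm) (Path.refl w0) _ ?_
    intro t
    change ((2 * e (((1 : ℕ) : ℝ) * t), -3 * Complex.I) : ℂ × ℂ) = (2 * e t, -3 * Complex.I)
    simp

end

end Pool.Agent.TH192.PP
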