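import Mathlib
import Pool.Agent.H438R2.PD.A3
import Pool.Agent.H438R2.BR.T11
import Pool.Agent.H789R2.FR.Sph
import Pool.Agent.Helper390.CovarioA
set_option autoImplicit false

namespace Pool.Agent.TH278.FN

open MeasureTheory Set Complex
open scoped ENNReal NNReal RealInnerProductSpace
open Pool.Agent.H789R2.FR (E sg T)
open Pool.Agent.H438R2.PD (E1)

/-- the Fourier extension operator of the paraboloid at the point (a, b, t) -/
noncomputable def ex (f : ℝ × ℝ → ℂ) (a b t : ℝ) : ℂ :=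
  ∫ x : ℝ × ℝ, cexp (-(I * ((x.1 * a + x.2 * b + (x.1 ^ 2 + x.2 ^ 2) * t : ℝ) : ℂ))) * f x

namespace J1618

open Pool.Agent.H438R2.PD in
theorem E1_bound (a : ℝ → ℂ) (M : ℝ) (hM : ∀ u, ‖a u‖ ≤ M) (ξ l : ℝ) : ‖E1 a ξ l‖ ≤ M * 2 := by
  unfold E1
  refine (norm_setIntegral_le_of_norm_le_const (C := M) (by
    rw [Real.volume_Ioo]; exact ENNReal.ofReal_lt_top) (fun u _ => ?_)).trans ?_
  · rw [norm_mul, Complex.norm_exp_ofReal_mul_I, mul_one]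
    exact hM u
  · rw [Real.volume_real_Ioo_of_le (by norm_num)]
    apply le_of_eq
    norm_num

theorem zero_out {f : ℝ × ℝ → ℂ} (hs : ∀ x : ℝ × ℝ, 1 ≤ x.1 ^ 2 + x.2 ^ 2 → f x = 0)
    {y : ℝ} (hy : y ∉ Ioo (-1 : ℝ) 1) (s : ℝ) : f (s, y) = 0 := by
  apply hs
  have h1 : 1 ≤ y ^ 2 := by
    by_contra hcon
    push Not at hcon
    exact hy (abs_lt.1 ((sq_lt_one_iff_abs_lt_one y).1 hcon))
  show 1 ≤ s ^ 2 + y ^ 2
  nlinarith [sq_nonneg s]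

theorem zero_out' {f : ℝ × ℝ → ℂ} (hs : ∀ x : ℝ × ℝ, 1 ≤ x.1 ^ 2 + x.2 ^ 2 → f x = 0)
    {s : ℝ} (hy : s ∉ Ioo (-1 : ℝ) 1) (y : ℝ) : f (s, y) = 0 := by
  apply hs
  have h1 : 1 ≤ s ^ 2 := by
    by_contra hcon
    push Not at hcon
    exact hy (abs_lt.1 ((sq_lt_one_iff_abs_lt_one s).1 hcon))
  show 1 ≤ s ^ 2 + y ^ 2
  nlinarith [sq_nonneg y]

/-- the function of `y` whose Fourier transform is `ex` -/
noncomputable def H (f : ℝ × ℝ → ℂ) (a t y : ℝ) : ℂ :=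
  cexp (-(I * ((y ^ 2 * t : ℝ) : ℂ))) * E1 (fun s => f (s, y)) a (-t)

theorem norm_cexp_neg_I (x : ℝ) : ‖cexp (-(I * (x : ℂ)))‖ = 1 := by
  rw [show -(I * (x : ℂ)) = ((-x : ℝ) : ℂ) * I by push_cast; ring]
  exact Complex.norm_exp_ofReal_mul_I _

theorem ex_eq (f : ℝ × ℝ → ℂ) (hf : Measurable f) (M : ℝ) (hM : ∀ z, ‖f z‖ ≤ M)
    (hs : ∀ x : ℝ × ℝ, 1 ≤ x.1 ^ 2 + x.2 ^ 2 → f x = 0) (a b t : ℝ) :
    ex f a b t = ∫ y : ℝ, cexp ((((-2 * Real.pi * y * (b / (2 * Real.pi))) : ℝ) : ℂ) * I) *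
      H f a t y := by
  have hpi : Real.pi ≠ 0 := Real.pi_ne_zero
  have hint : Integrable (fun x : ℝ × ℝ =>
      cexp (-(I * ((x.1 * a + x.2 * b + (x.1 ^ 2 + x.2 ^ 2) * t : ℝ) : ℂ))) * f x) := by
    have h1 : IntegrableOn (fun x : ℝ × ℝ =>
      cexp (-(I * ((x.1 * a + x.2 * b + (x.1 ^ 2 + x.2 ^ 2) * t : ℝ) : ℂ))) * f x)
        (Ioo (-1 : ℝ) 1 ×ˢ Ioo (-1 : ℝ) 1) := by
      refine Measure.integrableOn_of_bounded (M := M) ?_ ?_ ?_
      · rw [Measure.volume_eq_prod, Measure.prod_prod, Real.volume_Ioo]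
        exact ENNReal.mul_ne_top ENNReal.ofReal_ne_top ENNReal.ofReal_ne_top
      · apply Measurable.aestronglyMeasurable
        fun_prop
      · refine Filter.Eventually.of_forall fun x => ?_
        rw [norm_mul, norm_cexp_neg_I, one_mul]
        exact hM x
    refine (integrableOn_iff_integrable_of_support_subset ?_).mp h1
    intro x hx
    by_contra h
    apply hx
    show _ * f x = 0
    have h2 : x.1 ∉ Ioo (-1 : ℝ) 1 ∨ x.2 ∉ Ioo (-1 : ℝ) 1 := by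
      by_contra hcon
      push Not at hcon
      exact h ⟨hcon.1, hcon.2⟩
    rcases h2 with h2 | h2
    · rw [show f x = 0 from zero_out' hs h2 x.2, mul_zero]
    · rw [show f x = 0 from zero_out hs h2 x.1, mul_zero]
  unfold ex
  rw [Measure.volume_eq_prod] at hint ⊢
  rw [integral_prod_symm _ hint]
  refine integral_congr_ae (Filter.Eventually.of_forall fun y => ?_)
  show ∫ s : ℝ, cexp (-(I * ((s * a + y * b + (s ^ 2 + y ^ 2) * t : ℝ) : ℂ))) * f (s, y) = _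
  rw [← setIntegral_eq_integral_of_forall_compl_eq_zero (s := Ioo (-1 : ℝ) 1)
    (fun s hs' => by rw [zero_out' hs hs' y, mul_zero])]
  show _ = cexp ((((-2 * Real.pi * y * (b / (2 * Real.pi))) : ℝ) : ℂ) * I) *
      (cexp (-(I * ((y ^ 2 * t : ℝ) : ℂ))) * ∫ u in Ioo (-1 : ℝ) 1,
        f (u, y) * cexp (((-t * u ^ 2 - a * u : ℝ) : ℂ) * I))
  rw [← integral_const_mul, ← integral_const_mul]
  refine integral_congr_ae (Filter.Eventually.of_forall fun s => ?_)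
  show cexp (-(I * ((s * a + y * b + (s ^ 2 + y ^ 2) * t : ℝ) : ℂ))) * f (s, y) =
    cexp ((((-2 * Real.pi * y * (b / (2 * Real.pi))) : ℝ) : ℂ) * I) *
      (cexp (-(I * ((y ^ 2 * t : ℝ) : ℂ))) *
        (f (s, y) * cexp (((-t * s ^ 2 - a * s : ℝ) : ℂ) * I)))
  have e1 : -2 * Real.pi * y * (b / (2 * Real.pi)) = - (y * b) := by field_simp
  rw [e1]
  have e2 : cexp (-(I * ((s * a + y * b + (s ^ 2 + y ^ 2) * t : ℝ) : ℂ))) =
      cexp (((-(y * b) : ℝ) : ℂ) * I) * (cexp (-(I * ((y ^ 2 * t : ℝ) : ℂ))) *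
        cexp (((-t * s ^ 2 - a * s : ℝ) : ℂ) * I)) := by
    rw [← Complex.exp_add, ← Complex.exp_add]
    congr 1
    push_cast
    ring
  rw [e2]
  ring

theorem E1f_meas (f : ℝ × ℝ → ℂ) (hf : Measurable f) :
    Measurable fun q : (ℝ × ℝ) × ℝ => E1 (fun s => f (s, q.2)) q.1.1 (-q.1.2) := by
  have h1 : StronglyMeasurable (fun z : ((ℝ × ℝ) × ℝ) × ℝ =>
      f (z.2, z.1.2) * Complex.exp (((-z.1.1.2 * z.2 ^ 2 - z.1.1.1 * z.2 : ℝ) : ℂ) * I)) := by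
    apply Measurable.stronglyMeasurable
    fun_prop
  exact (h1.integral_prod_right' (ν := volume.restrict (Ioo (-1 : ℝ) 1))).measurable

theorem H_meas (f : ℝ × ℝ → ℂ) (hf : Measurable f) (a t : ℝ) : Measurable (H f a t) := by
  unfold H
  have h1 : Measurable fun y : ℝ => E1 (fun s => f (s, y)) a (-t) :=
    (E1f_meas f hf).comp (g := fun q : (ℝ × ℝ) × ℝ => E1 (fun s => f (s, q.2)) q.1.1 (-q.1.2))
      (f := fun y : ℝ => ((a, t), y)) (by fun_prop)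
  have h2 : Measurable fun y : ℝ => cexp (-(I * ((y ^ 2 * t : ℝ) : ℂ))) := by fun_prop
  exact h2.mul h1

theorem E1_zero (ξ l : ℝ) : E1 (fun _ => 0) ξ l = 0 := by
  unfold E1
  simp

theorem planch (f : ℝ × ℝ → ℂ) (hf : Measurable f) (M : ℝ) (hM : ∀ z, ‖f z‖ ≤ M)
    (hs : ∀ x : ℝ × ℝ, 1 ≤ x.1 ^ 2 + x.2 ^ 2 → f x = 0) (a t : ℝ) :
    ∫⁻ b : ℝ, ‖ex f a b t‖ₑ ^ 2 = ENNReal.ofReal (2 * Real.pi) *
      ∫⁻ y : ℝ, ‖E1 (fun s => f (s, y)) a (-t)‖ₑ ^ 2 := by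
  have hH : Measurable (H f a t) := H_meas f hf a t
  have hHn : ∀ y, ‖H f a t y‖ = ‖E1 (fun s => f (s, y)) a (-t)‖ := by
    intro y
    unfold H
    rw [norm_mul, norm_cexp_neg_I, one_mul]
  have hHb : ∀ y, ‖H f a t y‖ ≤ M * 2 := by
    intro y
    rw [hHn]
    exact E1_bound _ M (fun u => hM _) a (-t)
  have hHi : (Ioo (-1 : ℝ) 1).indicator (H f a t) = H f a t := by
    rw [Set.indicator_eq_self]
    intro y hy
    by_contra h
    apply hy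
    unfold H
    have : (fun s => f (s, y)) = fun _ => 0 := by
      funext s
      exact zero_out hs h s
    rw [this, E1_zero, mul_zero]
  have hvol : volume (Ioo (-1 : ℝ) 1) ≠ ⊤ := by
    rw [Real.volume_Ioo]; exact ENNReal.ofReal_ne_top
  have hl : ∀ p : ℝ≥0∞, MemLp (H f a t) p volume := by
    intro p
    have := Pool.Agent.H438R2.PD.A2.ind_lp (S := Ioo (-1 : ℝ) 1) measurableSet_Ioo hvol hH
      (fun y _ => hHb y) p
    rwa [hHi] at this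
  have h := Pool.Agent.H438R2.PD.A2.planch (H f a t) (memLp_one_iff_integrable.1 (hl 1)) (hl 2)
    (2 * Real.pi) (by positivity)
  rw [abs_of_pos (by positivity)] at h
  have e : ∀ z : ℂ, ENNReal.ofReal (‖z‖ ^ 2) = ‖z‖ₑ ^ 2 := by
    intro z
    rw [ENNReal.ofReal_pow (norm_nonneg _), ofReal_norm]
  simp only [e] at h
  have e2 : ∀ b, ex f a b t = ∫ s : ℝ, cexp ((((-2 * Real.pi * s * (b / (2 * Real.pi))) : ℝ) : ℂ) * I) *
      H f a t s := fun b => ex_eq f hf M hM hs a b t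
  simp only [e2]
  rw [h]
  congr 1
  refine lintegral_congr fun y => ?_
  rw [← ofReal_norm, hHn, ofReal_norm]

end J1618

open J1618 in
theorem ex_1t
    (hpar : ∀ q : ℝ, 4 < q → ∃ C : ℝ≥0, ∀ a : ℝ → ℂ, Measurable a → (∃ M : ℝ, ∀ u, ‖a u‖ ≤ M) →
      ∫⁻ l : ℝ, ∫⁻ ξ : ℝ, ‖E1 a ξ l‖ₑ ^ q ≤ C * (∫⁻ u in Ioo (-1 : ℝ) 1, ‖a u‖ₑ ^ 4) ^ (q / 4))
    (hmink : ∀ p : ℝ, 1 ≤ p → ∀ h : ℝ × ℝ → ℝ → ℝ≥0∞, Measurable (Function.uncurry h) →
      (∫⁻ x, (∫⁻ y, h x y) ^ p) ^ (1 / p) ≤ ∫⁻ y, (∫⁻ x, h x y ^ p) ^ (1 / p))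
    (q : ℝ) (hq : 4 < q) : ∃ C : ℝ≥0, ∀ f : ℝ × ℝ → ℂ, Measurable f → (∃ M : ℝ, ∀ z, ‖f z‖ ≤ M) →
      (∀ x : ℝ × ℝ, 1 ≤ x.1 ^ 2 + x.2 ^ 2 → f x = 0) →
      ∫⁻ a : ℝ, ∫⁻ t : ℝ, (∫⁻ b : ℝ, ‖ex f a b t‖ₑ ^ 2) ^ (q / 2) ≤
        C * (∫⁻ x, ‖f x‖ₑ ^ 4) ^ (q / 4) := by
  obtain ⟨C, hC⟩ := hpar q hq
  have hq0 : 0 < q := by linarith
  refine ⟨(2 * Real.pi).toNNReal ^ (q / 2) * (C * 2 ^ (q / 4)), fun f hf ⟨M, hM⟩ hs => ?_⟩
  set h : ℝ × ℝ → ℝ → ℝ≥0∞ := fun x y => ‖E1 (fun s => f (s, y)) x.1 (-x.2)‖ₑ ^ 2 with hh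
  have hmeas : Measurable (Function.uncurry h) := by
    have := (E1f_meas f hf).enorm.pow_const 2
    exact this
  have hp : 1 ≤ q / 2 := by linarith
  -- the left side
  have h1 : ∫⁻ a : ℝ, ∫⁻ t : ℝ, (∫⁻ b : ℝ, ‖ex f a b t‖ₑ ^ 2) ^ (q / 2) =
      ENNReal.ofReal (2 * Real.pi) ^ (q / 2) * ∫⁻ x : ℝ × ℝ, (∫⁻ y, h x y) ^ (q / 2) := by
    have hm2 : Measurable fun x : ℝ × ℝ => (∫⁻ y, h x y) ^ (q / 2) :=
      (Measurable.lintegral_prod_right' hmeas).pow_const _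
    rw [Measure.volume_eq_prod, lintegral_prod _ hm2.aemeasurable,
      ← lintegral_const_mul _ (by exact hm2.lintegral_prod_right')]
    refine lintegral_congr fun a => ?_
    rw [← lintegral_const_mul _ (by exact hm2.comp measurable_prodMk_left)]
    refine lintegral_congr fun t => ?_
    rw [planch f hf M hM hs a t, ENNReal.mul_rpow_of_nonneg _ _ (by positivity)]
  -- the inner bound
  set N : ℝ → ℝ≥0∞ := fun y => ∫⁻ u in Ioo (-1 : ℝ) 1, ‖f (u, y)‖ₑ ^ 4 with hN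
  have hNm : Measurable N := by
    have : Measurable fun z : ℝ × ℝ => ‖f (z.2, z.1)‖ₑ ^ 4 :=
      ((hf.comp measurable_swap).enorm).pow_const 4
    exact Measurable.lintegral_prod_right' (ν := volume.restrict (Ioo (-1 : ℝ) 1)) this
  have h2 : ∀ y, (∫⁻ x : ℝ × ℝ, h x y ^ (q / 2)) ^ (1 / (q / 2)) ≤
      (C : ℝ≥0∞) ^ (2 / q) * N y ^ (1 / 2 : ℝ) := by
    intro y
    have e1 : ∫⁻ x : ℝ × ℝ, h x y ^ (q / 2) =
        ∫⁻ l : ℝ, ∫⁻ ξ : ℝ, ‖E1 (fun s => f (s, y)) ξ l‖ₑ ^ q := by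
      have hm3 : Measurable fun x : ℝ × ℝ => h x y ^ (q / 2) :=
        (hmeas.comp (g := Function.uncurry h) (f := fun x : ℝ × ℝ => (x, y))
          (by fun_prop)).pow_const _
      rw [Measure.volume_eq_prod, lintegral_prod_symm _ hm3.aemeasurable]
      have e3 : ∀ t : ℝ, ∫⁻ ξ : ℝ, h (ξ, t) y ^ (q / 2) =
          ∫⁻ ξ : ℝ, ‖E1 (fun s => f (s, y)) ξ (-t)‖ₑ ^ q := by
        intro t
        refine lintegral_congr fun ξ => ?_
        show (‖E1 (fun s => f (s, y)) ξ (-t)‖ₑ ^ 2) ^ (q / 2) = _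
        rw [← ENNReal.rpow_natCast, ← ENNReal.rpow_mul]
        congr 1
        push_cast
        ring
      simp only [e3]
      exact lintegral_neg_eq_self (μ := (volume : Measure ℝ))
        (fun l : ℝ => ∫⁻ ξ : ℝ, ‖E1 (fun s => f (s, y)) ξ l‖ₑ ^ q)
    rw [e1]
    have e2 := hC (fun s => f (s, y)) (hf.comp (by fun_prop)) ⟨M, fun u => hM _⟩
    calc _ ≤ ((C : ℝ≥0∞) * (N y) ^ (q / 4)) ^ (1 / (q / 2)) :=
          ENNReal.rpow_le_rpow e2 (by positivity)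
      _ = _ := by
        rw [ENNReal.mul_rpow_of_nonneg _ _ (by positivity), ← ENNReal.rpow_mul]
        congr 2
        · field_simp
        · field_simp
          norm_num
  have h2' : ∀ y, y ∉ Ioo (-1 : ℝ) 1 → (∫⁻ x : ℝ × ℝ, h x y ^ (q / 2)) ^ (1 / (q / 2)) = 0 := by
    intro y hy
    have e1 : ∀ x : ℝ × ℝ, h x y ^ (q / 2) = 0 := by
      intro x
      have : (fun s => f (s, y)) = fun _ => 0 := by
        funext s
        exact zero_out hs hy s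
      show (‖E1 (fun s => f (s, y)) x.1 (-x.2)‖ₑ ^ 2) ^ (q / 2) = 0
      rw [this, E1_zero, enorm_zero, zero_pow two_ne_zero, ENNReal.zero_rpow_of_pos (by positivity)]
    simp only [e1]
    rw [lintegral_zero, ENNReal.zero_rpow_of_pos (by positivity)]
  have h3 : ∫⁻ y, (∫⁻ x : ℝ × ℝ, h x y ^ (q / 2)) ^ (1 / (q / 2)) ≤
      (C : ℝ≥0∞) ^ (2 / q) * (2 ^ (1 / 2 : ℝ) * (∫⁻ x, ‖f x‖ₑ ^ 4) ^ (1 / 2 : ℝ)) := by
    calc ∫⁻ y, (∫⁻ x : ℝ × ℝ, h x y ^ (q / 2)) ^ (1 / (q / 2))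
        ≤ ∫⁻ y, (Ioo (-1 : ℝ) 1).indicator (fun y => (C : ℝ≥0∞) ^ (2 / q) * N y ^ (1 / 2 : ℝ)) y := by
          refine lintegral_mono fun y => ?_
          by_cases hy : y ∈ Ioo (-1 : ℝ) 1
          · rw [indicator_of_mem hy]; exact h2 y
          · rw [indicator_of_notMem hy]; exact (h2' y hy).le
      _ = ∫⁻ y in Ioo (-1 : ℝ) 1, (C : ℝ≥0∞) ^ (2 / q) * N y ^ (1 / 2 : ℝ) :=
          lintegral_indicator measurableSet_Ioo _
      _ = (C : ℝ≥0∞) ^ (2 / q) * ∫⁻ y in Ioo (-1 : ℝ) 1, N y ^ (1 / 2 : ℝ) :=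
          lintegral_const_mul _ (hNm.pow_const _)
      _ ≤ (C : ℝ≥0∞) ^ (2 / q) * (2 ^ (1 / 2 : ℝ) * (∫⁻ x, ‖f x‖ₑ ^ 4) ^ (1 / 2 : ℝ)) := by
          gcongr
          have hcs := ENNReal.lintegral_mul_le_Lp_mul_Lq (volume.restrict (Ioo (-1 : ℝ) 1))
            (p := 2) (q := 2) (Real.holderConjugate_iff.2 ⟨by norm_num, by norm_num⟩)
            (f := fun _ => 1) (g := fun y => N y ^ (1 / 2 : ℝ)) measurable_const.aemeasurable
            (hNm.pow_const _).aemeasurable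
          have e4 : ∫⁻ y in Ioo (-1 : ℝ) 1, N y ^ (1 / 2 : ℝ) =
              ∫⁻ y in Ioo (-1 : ℝ) 1, ((fun _ => (1 : ℝ≥0∞)) *
                (fun y => N y ^ (1 / 2 : ℝ)) : ℝ → ℝ≥0∞) y := by
            refine lintegral_congr fun y => ?_
            simp
          rw [e4]
          refine hcs.trans ?_
          have e5 : ∫⁻ y in Ioo (-1 : ℝ) 1, (1 : ℝ≥0∞) ^ (2 : ℝ) = 2 := by
            simp only [ENNReal.one_rpow]
            rw [lintegral_one, Measure.restrict_apply_univ, Real.volume_Ioo]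
            norm_num
          have e6 : ∫⁻ y in Ioo (-1 : ℝ) 1, (N y ^ (1 / 2 : ℝ)) ^ (2 : ℝ) ≤ ∫⁻ x, ‖f x‖ₑ ^ 4 := by
            have e7 : ∀ y, (N y ^ (1 / 2 : ℝ)) ^ (2 : ℝ) = N y := by
              intro y
              rw [← ENNReal.rpow_mul]
              norm_num
            simp only [e7]
            rw [Measure.volume_eq_prod, lintegral_prod_symm _ (by fun_prop)]
            refine (setLIntegral_le_lintegral _ _).trans (lintegral_mono fun y => ?_)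
            exact setLIntegral_le_lintegral _ _
          rw [e5]
          gcongr
  have h4 := (hmink (q / 2) hp h hmeas).trans h3
  have h5 : ∫⁻ x : ℝ × ℝ, (∫⁻ y, h x y) ^ (q / 2) ≤
      ((C : ℝ≥0∞) ^ (2 / q) * (2 ^ (1 / 2 : ℝ) * (∫⁻ x, ‖f x‖ₑ ^ 4) ^ (1 / 2 : ℝ))) ^ (q / 2) := by
    have h6 := ENNReal.rpow_le_rpow h4 (show 0 ≤ q / 2 by positivity)
    rwa [← ENNReal.rpow_mul, one_div_mul_cancel (by positivity), ENNReal.rpow_one] at h6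
  rw [h1]
  calc ENNReal.ofReal (2 * Real.pi) ^ (q / 2) * ∫⁻ x : ℝ × ℝ, (∫⁻ y, h x y) ^ (q / 2)
      ≤ ENNReal.ofReal (2 * Real.pi) ^ (q / 2) *
        ((C : ℝ≥0∞) ^ (2 / q) * (2 ^ (1 / 2 : ℝ) * (∫⁻ x, ‖f x‖ₑ ^ 4) ^ (1 / 2 : ℝ))) ^ (q / 2) := by
        gcongr
    _ = _ := by
      rw [ENNReal.mul_rpow_of_nonneg _ _ (by positivity),
        ENNReal.mul_rpow_of_nonneg _ _ (by positivity), ← ENNReal.rpow_mul, ← ENNReal.rpow_mul,
        ← ENNReal.rpow_mul]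
      have e1 : 2 / q * (q / 2) = 1 := by field_simp
      have e2 : 1 / 2 * (q / 2) = q / 4 := by ring
      rw [e1, e2, ENNReal.rpow_one]
      push_cast
      rw [ENNReal.coe_rpow_of_nonneg _ (by positivity), ENNReal.coe_rpow_of_nonneg _ (by positivity)]
      rw [ENNReal.ofReal]
      push_cast
      ring

end Pool.Agent.TH278.FN
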