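import Mathlib
import Pool.Agent.TH109.M.Defs

set_option autoImplicit false
open scoped Classical
namespace Pool.Agent.TH109.M.J
open Pool.Agent.Helper943.LM (UA wpow)
open Pool.Agent.TH109.M
variable {G : Type} [Group G]

namespace QU

open Polynomial

/-- the polynomial of a Boolean list -/
noncomputable def pl : List Bool → ℤ[X]
  | [] => 0
  | b :: l => X * ((if b then 1 else 0) + pl l)

lemma pl_append (l l' : List Bool) : pl (l ++ l') = pl l + X ^ l.length * pl l' := by
  induction l with
  | nil => simp [pl]
  | cons b l ih =>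
    rw [List.cons_append, pl, ih, pl, List.length_cons]
    ring

lemma pl_replicate (n : ℕ) : pl (List.replicate n false) = 0 := by
  induction n with
  | zero => simp [pl]
  | succ n ih => rw [List.replicate_succ, pl, ih]; simp

lemma exists_pair (N k : ℕ) (hN : 0 < N) : ∃ l l' : List Bool, l.length = l'.length ∧
    l ≠ l' ∧ 0 < l.length ∧ ((X : ℤ[X]) ^ N - 1) ^ k ∣ pl l - pl l' := by
  induction k with
  | zero => exact ⟨[true], [false], rfl, by simp, by simp, by simp⟩
  | succ k ih =>
    obtain ⟨l, l', h1, h2, h3, h4⟩ := ih
    set n := l.length with hn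
    set m := N * n with hm
    have hmn : n ≤ m := Nat.le_mul_of_pos_left n hN
    set z := List.replicate (m - n) false with hz
    have hlz : (l ++ z).length = m := by
      rw [List.length_append, hz, List.length_replicate]; omega
    have hlz' : (l' ++ z).length = m := by
      rw [List.length_append, hz, List.length_replicate]; omega
    refine ⟨(l' ++ z) ++ (l ++ z), (l ++ z) ++ (l' ++ z), ?_, ?_, ?_, ?_⟩
    · simp only [List.length_append] at hlz hlz' ⊢
      omega
    · intro h
      have h5 := List.append_inj_left h (by rw [hlz, hlz'])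
      exact h2 (List.append_cancel_right h5).symm
    · rw [List.length_append, hlz]; omega
    · have e1 : pl (l ++ z) = pl l := by rw [pl_append, hz, pl_replicate, mul_zero, add_zero]
      have e2 : pl (l' ++ z) = pl l' := by rw [pl_append, hz, pl_replicate, mul_zero, add_zero]
      rw [pl_append (l' ++ z), pl_append (l ++ z) (l' ++ z), hlz, hlz', e1, e2]
      have e3 : pl l' + X ^ m * pl l - (pl l + X ^ m * pl l') =
          (X ^ m - 1) * (pl l - pl l') := by ring
      rw [e3, pow_succ']
      refine mul_dvd_mul ?_ h4
      rw [hm, pow_mul]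
      exact sub_one_dvd_pow_sub_one _ _
where
  sub_one_dvd_pow_sub_one (x : ℤ[X]) (n : ℕ) : x - 1 ∣ x ^ n - 1 := by
    have := sub_dvd_pow_sub_pow x 1 n
    rwa [one_pow] at this

/-- words -/
def W {α : Type} (P Q : List α) : List Bool → List α
  | [] => []
  | b :: l => (if b then Q else P) ++ W P Q l

lemma W_inj {α : Type} (P Q : List α) (hl : P.length = Q.length) (hne : P ≠ Q) :
    ∀ l l' : List Bool, l.length = l'.length → W P Q l = W P Q l' → l = l' := by
  intro l
  induction l with
  | nil =>
    intro l' h _
    exact (List.length_eq_zero_iff.1 h.symm).symm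
  | cons b l ih =>
    intro l' h h2
    cases l' with
    | nil => simp at h
    | cons b' l' =>
      have hll : l.length = l'.length := by simpa using h
      have hlen : (if b then Q else P).length = (if b' then Q else P).length := by
        cases b <;> cases b' <;> simp [hl]
      obtain ⟨h3, h4⟩ := List.append_inj h2 hlen
      have h5 := ih l' hll h4
      have h6 : b = b' := by
        cases b <;> cases b'
        · rfl
        · exact absurd h3 (by simpa using hne)
        · exact absurd h3 (by simpa using (Ne.symm hne))
        · rfl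
      rw [h5, h6]

end QU

open QU in
theorem star_of_qu {M : Type} [AddCommGroup M] (U : UA G) (B : MB G M)
    (h : ∀ g, ∃ N : ℕ, 0 < N ∧ ∃ k : ℕ, ∀ a, (((B.ρ g) ^ N - 1) ^ k) a = 0) : Star U := by
  intro s hs X Y hX hY hlen
  by_contra hne
  have hi0 : B.i 0 = 1 := by
    have := B.i_add 0 0
    rw [add_zero] at this
    exact left_eq_mul.1 this
  -- the words `P`, `Q`
  have hPl : (X ++ Y).length = (Y ++ X).length := by simp [add_comm]
  have hPQ : X ++ Y ≠ Y ++ X := by
    intro h1
    exact hne (List.append_inj_left h1 hlen)
  have hP : U.run s (X ++ Y) = s := by rw [UA.run_append, hX, hY]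
  have hQ : U.run s (Y ++ X) = s := by rw [UA.run_append, hY, hX]
  have hW : ∀ l : List Bool, U.run s (W (X ++ Y) (Y ++ X) l) = s := by
    intro l
    induction l with
    | nil => rfl
    | cons b l ih =>
      rw [W, UA.run_append]
      cases b
      · simp only [Bool.false_eq_true, if_false]; rw [hP, ih]
      · simp only [if_true]; rw [hQ, ih]
  obtain ⟨a, ha⟩ := B.comm (U.ev Y)⁻¹ (U.ev X)⁻¹
  set u := U.ev (X ++ Y) with hu
  have hQu : U.ev (Y ++ X) = u * B.i a := by
    rw [ha, hu, UA.ev_append, UA.ev_append]
    group
  have hconj : ∀ b : M, u * B.i b = B.i (B.ρ u b) * u := by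
    intro b
    rw [← B.conj]
    group
  have hev : ∀ l : List Bool, U.ev (W (X ++ Y) (Y ++ X) l) =
      B.i ((Polynomial.aeval (B.ρ u) (pl l)) a) * u ^ l.length := by
    intro l
    induction l with
    | nil =>
      rw [W, UA.ev_nil, pl, map_zero]
      show (1 : G) = B.i ((0 : AddMonoid.End M) a) * u ^ 0
      rw [pow_zero, mul_one]
      exact hi0.symm
    | cons b l ih =>
      have e1 : (Polynomial.aeval (B.ρ u) (pl (b :: l))) a =
          B.ρ u ((if b then a else 0) + (Polynomial.aeval (B.ρ u) (pl l)) a) := by
        rw [pl, map_mul, Polynomial.aeval_X, map_add]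
        cases b
        · simp only [Bool.false_eq_true, if_false, map_zero, zero_add]
          rfl
        · simp only [if_true, map_one]
          rfl
      rw [W, UA.ev_append, ih, e1, List.length_cons, pow_succ']
      have e2 : U.ev (if b then (Y ++ X) else (X ++ Y)) = u * B.i (if b then a else 0) := by
        cases b
        · simp only [Bool.false_eq_true, if_false, hi0, mul_one]; exact hu.symm
        · simp only [if_true]; exact hQu
      rw [e2, mul_assoc, ← mul_assoc (B.i _) (B.i _), ← B.i_add, ← mul_assoc, hconj, mul_assoc]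
  obtain ⟨N, hN, k, hk⟩ := h u
  obtain ⟨l, l', h1, h2, -, q, hq⟩ := exists_pair N k hN
  apply h2
  refine W_inj (X ++ Y) (Y ++ X) hPl hPQ l l' h1 ?_
  refine UA.closed_inj U hs (hW l) (hW l') ?_
  rw [hev, hev, h1]
  congr 2
  have e3 : pl l = pl l' + q * ((Polynomial.X : Polynomial ℤ) ^ N - 1) ^ k := by
    linear_combination hq
  rw [e3, map_add, map_mul, map_pow, map_sub, map_pow, Polynomial.aeval_X, map_one]
  show (Polynomial.aeval (B.ρ u) (pl l')) a +
    (Polynomial.aeval (B.ρ u) q) (((B.ρ u ^ N - 1) ^ k) a) = _
  rw [hk, map_zero, add_zero]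

end Pool.Agent.TH109.M.J
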